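import Pool.Agent.Lib.MP_7470b6_lc.Gen.GenD
import Pool.Agent.Lib.MP_7470b6_lc.Crs.NM0

/-!
# Job DA: elementary inequalities for AA, kk, ec
-/

open Finset

namespace Pool.Agent.Lib.MP_7470b6_lc.Gen

open Pool.Agent.Lib.MP_7470b6_lc.Crs

theorem kk_nonneg {t : ℝ} (h : 0 ≤ t) : 0 ≤ kk t := by
  unfold kk
  have : Real.exp (-t) ≤ 1 := by
    rw [← Real.exp_zero]
    exact Real.exp_le_exp.2 (by linarith)
  linarith

theorem kk_le {t : ℝ} : kk t ≤ t := by
  unfold kk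
  have := Real.add_one_le_exp (-t)
  linarith

theorem AA_nonneg {t : ℝ} (h0 : 0 ≤ t) (h1 : t ≤ 1) : 0 ≤ AA t := by
  unfold AA
  have h2 : 0.3678 * t - 0.29 * t ^ 2 + 0.1 * t ^ 3 = t * (0.3678 - 0.29 * t + 0.1 * t ^ 2) := by ring
  rw [h2]
  apply mul_nonneg h0
  have : 0 ≤ t ^ 2 := by positivity
  linarith

private theorem DA_exp (t : ℝ) (h0 : 0 ≤ t) : 0.3678 * t ≤ kk t * Real.exp (-(1 - t)) := by
  have h1 : kk t * Real.exp (-(1 - t)) = Real.exp (-1) * (Real.exp t - 1) := by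
    unfold kk
    have h2 : Real.exp (-(1 - t)) = Real.exp (-1) * Real.exp t := by
      rw [← Real.exp_add]
      congr 1
      ring
    have h3 : Real.exp (-t) * Real.exp t = 1 := by
      rw [← Real.exp_add, neg_add_cancel, Real.exp_zero]
    rw [h2]
    calc (1 - Real.exp (-t)) * (Real.exp (-1) * Real.exp t)
        = Real.exp (-1) * (Real.exp t - Real.exp (-t) * Real.exp t) := by ring
      _ = Real.exp (-1) * (Real.exp t - 1) := by rw [h3]
  rw [h1]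
  have h4 := Real.add_one_le_exp t
  exact mul_le_mul lam_le (by linarith) h0 (Real.exp_pos _).le

/-- `AA t ≤ 0.3678 t ≤ exp (-1) (exp t - 1) = kk t * exp (-(1 - t))` (`lam_le`). -/
theorem AA_le {t : ℝ} (h0 : 0 ≤ t) (h1 : t ≤ 1) : AA t ≤ kk t * Real.exp (-(1 - t)) := by
  refine le_trans ?_ (DA_exp t h0)
  unfold AA
  have h2 : t ^ 3 ≤ t ^ 2 := by
    have : t ^ 2 * t ≤ t ^ 2 * 1 := mul_le_mul_of_nonneg_left h1 (by positivity)
    linarith [this, show t ^ 3 = t ^ 2 * t by ring]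
  have h3 : 0 ≤ t ^ 2 := by positivity
  linarith

/-- `kk t ≥ t - t^2/2 + t^3/6 - t^4/24` (`taylor_even`) and
`0.29 - 0.1839 ≥ (0.1 - 0.0613) t + 0.0153 t^2`. -/
theorem AA_le_kk {t : ℝ} (h0 : 0 ≤ t) (h1 : t ≤ 1) : AA t ≤ 0.3678 * kk t := by
  have h2 := taylor_even 2 h0
  simp only [Finset.sum_range_succ, Finset.sum_range_zero, Nat.factorial] at h2
  have h3 : t - t ^ 2 / 2 + t ^ 3 / 6 - t ^ 4 / 24 ≤ kk t := by
    unfold kk
    norm_num at h2
    linarith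
  have h4 : AA t ≤ 0.3678 * (t - t ^ 2 / 2 + t ^ 3 / 6 - t ^ 4 / 24) := by
    unfold AA
    have h5 : 0.3678 * (t - t ^ 2 / 2 + t ^ 3 / 6 - t ^ 4 / 24) -
        (0.3678 * t - 0.29 * t ^ 2 + 0.1 * t ^ 3) =
        t ^ 2 * (0.1061 - 0.0387 * t - 0.015325 * t ^ 2) := by ring
    have h6 : 0 ≤ t ^ 2 * (0.1061 - 0.0387 * t - 0.015325 * t ^ 2) := by
      apply mul_nonneg (by positivity)
      have : t ^ 2 ≤ 1 := by nlinarith
      linarith
    linarith
  have h7 : 0.3678 * (t - t ^ 2 / 2 + t ^ 3 / 6 - t ^ 4 / 24) ≤ 0.3678 * kk t :=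
    mul_le_mul_of_nonneg_left h3 (by norm_num)
  linarith

/-- Convexity of `exp`: `exp (-(0.3678 t)) ≥ exp (-t)`. -/
theorem ec_le_kk {t : ℝ} (h : 0 ≤ t) : ec t ≤ kk t := by
  unfold ec kk
  have : Real.exp (-t) ≤ Real.exp (-(0.3678 * t)) := Real.exp_le_exp.2 (by linarith)
  linarith

theorem ec_nonneg {t : ℝ} (h : 0 ≤ t) : 0 ≤ ec t := by
  unfold ec
  have : Real.exp (-(0.3678 * t)) ≤ 1 := by
    rw [← Real.exp_zero]
    exact Real.exp_le_exp.2 (by linarith)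
  linarith

/-- `AA a * exp b ≤ kk a` for `a + b ≤ 1` (`AA_le`). -/
theorem AA_exp_le {a b : ℝ} (ha : 0 ≤ a) (hb : 0 ≤ b) (hab : a + b ≤ 1) :
    AA a * Real.exp b ≤ kk a := by
  have h1 := AA_le ha (by linarith : a ≤ 1)
  have h2 := mul_le_mul_of_nonneg_right h1 (Real.exp_pos b).le
  refine h2.trans ?_
  rw [mul_assoc, ← Real.exp_add]
  have h3 : Real.exp (-(1 - a) + b) ≤ 1 := Real.exp_le_one_iff.2 (by linarith)
  calc kk a * Real.exp (-(1 - a) + b) ≤ kk a * 1 := mul_le_mul_of_nonneg_left h3 (kk_nonneg ha)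
    _ = kk a := mul_one _

/-- The quotient is between `0`, `0.3678`, and `exp (-(1 - t))`. -/
theorem eta_bounds {t : ℝ} (h0 : 0 < t) (h1 : t ≤ 1) :
    0 ≤ AA t / kk t ∧ AA t / kk t ≤ 0.3678 ∧ AA t / kk t ≤ Real.exp (-(1 - t)) := by
  have hk : 0 < kk t := by
    unfold kk
    have : Real.exp (-t) < 1 := by
      rw [← Real.exp_zero]
      exact Real.exp_lt_exp.2 (by linarith)
    linarith
  refine ⟨div_nonneg (AA_nonneg h0.le h1) hk.le, ?_, ?_⟩
  · rw [div_le_iff₀ hk]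
    exact AA_le_kk h0.le h1
  · rw [div_le_iff₀ hk, mul_comm]
    exact AA_le h0.le h1

/-- The factors for `a + b ≤ 1`. -/
theorem pf_bounds {s a b : ℝ} (hs0 : 0 ≤ s) (hs1 : s ≤ 1) (ha : 0 ≤ a) (hb : 0 ≤ b)
    (hab : a + b ≤ 1) :
    0 ≤ qf s a b ∧ qf s a b ≤ pf s a b ∧ pf s a b ≤ 1 := by
  have h1 : 0 ≤ AA a * Real.exp b := mul_nonneg (AA_nonneg ha (by linarith)) (Real.exp_pos b).le
  have h2 := AA_exp_le ha hb hab
  have hk := kk_nonneg ha
  have h3 : s * (AA a * Real.exp b) ≤ s * kk a := mul_le_mul_of_nonneg_left h2 hs0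
  have h4 : 0 ≤ s * (AA a * Real.exp b) := mul_nonneg hs0 h1
  have h5 : 0 ≤ kk a * (1 - s) := mul_nonneg hk (by linarith)
  have h6 : kk a ≤ 1 := by
    unfold kk
    have := Real.exp_pos (-a)
    linarith
  refine ⟨?_, ?_, ?_⟩
  · unfold qf pf
    linarith
  · unfold qf
    linarith
  · unfold pf
    linarith

theorem pc_bounds {s a : ℝ} (hs0 : 0 ≤ s) (hs1 : s ≤ 1) (ha : 0 ≤ a) :
    0 ≤ qc s a ∧ qc s a ≤ pc s a ∧ pc s a ≤ 1 := by
  have h1 : 0 ≤ ec a := ec_nonneg ha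
  have h2 := ec_le_kk ha
  have hk := kk_nonneg ha
  have h3 : s * ec a ≤ s * kk a := mul_le_mul_of_nonneg_left h2 hs0
  have h4 : 0 ≤ s * ec a := mul_nonneg hs0 h1
  have h5 : 0 ≤ kk a * (1 - s) := mul_nonneg hk (by linarith)
  have h6 : kk a ≤ 1 := by
    unfold kk
    have := Real.exp_pos (-a)
    linarith
  refine ⟨?_, ?_, ?_⟩
  · unfold qc pc
    linarith
  · unfold qc
    linarith
  · unfold pc
    linarith

/-- Node inequality. Proof: `n ≤ 3` by computation; then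
`s^(n+1) ≤ 0.788 s^n` and `0.788 (n+2) ≤ n + 1` for `n ≥ 3`. -/
theorem node_le (n : ℕ) :
    1 / 2 * ((0.212 : ℝ) ^ n + 0.788 ^ n) ≤ 1 / ((n : ℝ) + 1) := by
  rcases Nat.lt_or_ge n 3 with h | h
  · interval_cases n <;> norm_num
  · induction n, h using Nat.le_induction with
    | base => norm_num
    | succ n hn ih =>
      have hn' : (3 : ℝ) ≤ n := by exact_mod_cast hn
      have h1 : (0.212 : ℝ) ^ (n + 1) ≤ 0.788 * 0.212 ^ n := by
        rw [pow_succ']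
        exact mul_le_mul_of_nonneg_right (by norm_num) (by positivity)
      have h2 : (0.788 : ℝ) ^ (n + 1) = 0.788 * 0.788 ^ n := pow_succ' _ _
      have h3 : 1 / 2 * ((0.212 : ℝ) ^ (n + 1) + 0.788 ^ (n + 1)) ≤ 0.788 * (1 / ((n : ℝ) + 1)) := by
        have := mul_le_mul_of_nonneg_left ih (by norm_num : (0 : ℝ) ≤ 0.788)
        linarith
      refine h3.trans ?_
      push_cast
      rw [mul_one_div, div_le_div_iff₀ (by positivity) (by positivity)]
      linarith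

end Pool.Agent.Lib.MP_7470b6_lc.Gen
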