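import Pool.Agent.Lib.MP_7470b6_lc.Gen.DI
import Pool.Agent.Lib.MP_7470b6_lc.Gen.DN

/-!
# Job DE: bounds for the products
-/

open Finset

namespace Pool.Agent.Lib.MP_7470b6_lc.Gen

variable {α : Type*} [DecidableEq α] {a b : α → ℝ} {N₁ N₂ : Finset α}

/-- General product inequality. Proof: induction on `N`: with `P = ∏ p`, `Q = ∏ (p - d)`, `D = ∏ (1 - d)` show
`0 ≤ Q ≤ P ≤ 1`, `P - Q ≤ 1 - D`, `0 ≤ D ≤ 1`; step: `P p - Q (p - d) = p (P - Q) + Q d ≤ P - Q (1 - d)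
= d P + (1 - d) (P - Q) ≤ d + (1 - d) (1 - D) = 1 - (1 - d) D`. -/
theorem prod_diff {N : Finset α} {p d : α → ℝ} (hd : ∀ i ∈ N, 0 ≤ d i) (hpd : ∀ i ∈ N, d i ≤ p i)
    (hp : ∀ i ∈ N, p i ≤ 1) :
    0 ≤ ∏ i ∈ N, p i - ∏ i ∈ N, (p i - d i) ∧
      ∏ i ∈ N, p i - ∏ i ∈ N, (p i - d i) ≤ 1 - ∏ i ∈ N, (1 - d i) := by
  have key : (0 ≤ ∏ i ∈ N, (p i - d i) ∧ ∏ i ∈ N, (p i - d i) ≤ ∏ i ∈ N, p i ∧
      ∏ i ∈ N, p i ≤ 1) ∧ (0 ≤ ∏ i ∈ N, (1 - d i) ∧ ∏ i ∈ N, (1 - d i) ≤ 1) ∧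
      ∏ i ∈ N, p i - ∏ i ∈ N, (p i - d i) ≤ 1 - ∏ i ∈ N, (1 - d i) := by
    induction N using Finset.induction_on with
    | empty => simp
    | insert x N hx ih =>
      have ih' := ih (fun i hi => hd i (Finset.mem_insert_of_mem hi))
        (fun i hi => hpd i (Finset.mem_insert_of_mem hi))
        (fun i hi => hp i (Finset.mem_insert_of_mem hi))
      have h1 := hd x (Finset.mem_insert_self _ _)
      have h2 := hpd x (Finset.mem_insert_self _ _)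
      have h3 := hp x (Finset.mem_insert_self _ _)
      rw [Finset.prod_insert hx, Finset.prod_insert hx, Finset.prod_insert hx]
      obtain ⟨⟨a1, a2, a3⟩, ⟨a4, a5⟩, a6⟩ := ih'
      set P := ∏ i ∈ N, p i
      set Q := ∏ i ∈ N, (p i - d i)
      set D := ∏ i ∈ N, (1 - d i)
      refine ⟨⟨?_, ?_, ?_⟩, ⟨?_, ?_⟩, ?_⟩
      · exact mul_nonneg (by linarith) a1
      · exact mul_le_mul (by linarith) a2 a1 (by linarith)
      · exact mul_le_one₀ h3 (by linarith) a3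
      · exact mul_nonneg (by linarith) a4
      · exact mul_le_one₀ (by linarith) a4 a5
      · have e1 : p x * P - (p x - d x) * Q = p x * (P - Q) + Q * d x := by ring
        have e2 : p x * (P - Q) ≤ 1 * (P - Q) := mul_le_mul_of_nonneg_right h3 (by linarith)
        have e3 : (1 - d x) * (P - Q) ≤ (1 - d x) * (1 - D) :=
          mul_le_mul_of_nonneg_left a6 (by linarith)
        have e4 : d x * P ≤ d x * 1 := mul_le_mul_of_nonneg_left a3 h1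
        nlinarith
  exact ⟨by linarith [key.1.2.1], key.2.2⟩

/-- `prod_diff` on `N₁ ∪ N₂` with `d i = kk (a i) (1 - s)` and `kk_ge`: `∏ (1 - d) ≥ exp (-(1-s) Σ a) ≥ exp (-(1-s))`. -/
theorem PO_QO {s : ℝ} (hs0 : 0 ≤ s) (hs1 : s ≤ 1) (hN : Disjoint N₁ N₂)
    (hg : Good (N₁ ∪ N₂) a b) :
    0 ≤ PO s a b N₁ N₂ - QO s a b N₁ N₂ ∧
      PO s a b N₁ N₂ - QO s a b N₁ N₂ ≤ 1 - Real.exp (-(1 - s)) := by
  classical
  have h1s : 0 ≤ 1 - s := by linarith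
  have hNN : ∀ i ∈ N₂, i ∉ N₁ := fun i hi hi' => Finset.disjoint_left.1 hN hi' hi
  have hd : ∀ i ∈ N₁ ∪ N₂, 0 ≤ kk (a i) * (1 - s) := fun i hi =>
    mul_nonneg (kk_nonneg (hg.a0 i hi)) h1s
  have hpd : ∀ i ∈ N₁ ∪ N₂, kk (a i) * (1 - s) ≤
      (if i ∈ N₁ then pf s (a i) (b i) else pc s (a i)) := by
    intro i hi
    split_ifs with h
    · have := (pf_bounds hs0 hs1 (hg.a0 i hi) (hg.b0 i hi) (hg.ab i hi)).1
      unfold qf at this
      linarith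
    · have := (pc_bounds hs0 hs1 (hg.a0 i hi)).1
      unfold qc at this
      linarith
  have hp : ∀ i ∈ N₁ ∪ N₂, (if i ∈ N₁ then pf s (a i) (b i) else pc s (a i)) ≤ 1 := by
    intro i hi
    split_ifs with h
    · exact (pf_bounds hs0 hs1 (hg.a0 i hi) (hg.b0 i hi) (hg.ab i hi)).2.2
    · exact (pc_bounds hs0 hs1 (hg.a0 i hi)).2.2
  have key := prod_diff hd hpd hp
  have hP : ∏ i ∈ N₁ ∪ N₂, (if i ∈ N₁ then pf s (a i) (b i) else pc s (a i)) =
      PO s a b N₁ N₂ := by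
    rw [Finset.prod_union hN]
    unfold PO
    congr 1
    · exact Finset.prod_congr rfl fun i hi => if_pos hi
    · exact Finset.prod_congr rfl fun i hi => if_neg (hNN i hi)
  have hQ : ∏ i ∈ N₁ ∪ N₂, ((if i ∈ N₁ then pf s (a i) (b i) else pc s (a i)) -
      kk (a i) * (1 - s)) = QO s a b N₁ N₂ := by
    rw [Finset.prod_union hN]
    unfold QO
    congr 1
    · refine Finset.prod_congr rfl fun i hi => ?_
      rw [if_pos hi]
      rfl
    · refine Finset.prod_congr rfl fun i hi => ?_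
      rw [if_neg (hNN i hi)]
      rfl
  have hD : Real.exp (-(1 - s)) ≤ ∏ i ∈ N₁ ∪ N₂, (1 - kk (a i) * (1 - s)) := by
    calc Real.exp (-(1 - s)) ≤ Real.exp (∑ i ∈ N₁ ∪ N₂, -(a i * (1 - s))) := by
          apply Real.exp_le_exp.2
          rw [Finset.sum_neg_distrib, ← Finset.sum_mul]
          have := mul_le_mul_of_nonneg_right hg.sa h1s
          linarith
      _ = ∏ i ∈ N₁ ∪ N₂, Real.exp (-(a i * (1 - s))) := Real.exp_sum _ _
      _ ≤ _ := Finset.prod_le_prod (fun i _ => (Real.exp_pos _).le) fun i _ => kk_ge hs0 hs1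
  rw [hP, hQ] at key
  exact ⟨key.1, key.2.trans (by linarith)⟩

/-- `gf_mono`, `qc_mono`. -/
theorem RO_mono (hN : Disjoint N₁ N₂) (hg : Good (N₁ ∪ N₂) a b) :
    0 ≤ RO 0.212 a b N₁ N₂ ∧ RO 0.212 a b N₁ N₂ ≤ RO 0.788 a b N₁ N₂ := by
  have h1 : ∀ i ∈ N₁, 0 ≤ gf 0.212 (a i) (b i) ∧ gf 0.212 (a i) (b i) ≤ gf 0.788 (a i) (b i) :=
    fun i hi => gf_mono (hg.a0 i (Finset.mem_union_left _ hi)) (hg.b0 i (Finset.mem_union_left _ hi))
      (hg.ab i (Finset.mem_union_left _ hi))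
  have h2 : ∀ i ∈ N₂, 0 ≤ qc 0.212 (a i) * qc 0.212 (b i) ∧
      qc 0.212 (a i) * qc 0.212 (b i) ≤ qc 0.788 (a i) * qc 0.788 (b i) := by
    intro i hi
    have ha := qc_mono (hg.a0 i (Finset.mem_union_right _ hi))
    have hb := qc_mono (hg.b0 i (Finset.mem_union_right _ hi))
    exact ⟨mul_nonneg ha.1 hb.1, mul_le_mul ha.2 hb.2 hb.1 (ha.1.trans ha.2)⟩
  unfold RO
  have e1 : 0 ≤ ∏ i ∈ N₁, gf 0.212 (a i) (b i) := Finset.prod_nonneg fun i hi => (h1 i hi).1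
  have e2 : 0 ≤ ∏ i ∈ N₂, (qc 0.212 (a i) * qc 0.212 (b i)) :=
    Finset.prod_nonneg fun i hi => (h2 i hi).1
  have e3 := Finset.prod_le_prod (fun i hi => (h1 i hi).1) (fun i hi => (h1 i hi).2)
  have e4 := Finset.prod_le_prod (fun i hi => (h2 i hi).1) (fun i hi => (h2 i hi).2)
  exact ⟨mul_nonneg e1 e2, mul_le_mul e3 e4 e2 (e1.trans e3)⟩

/-- `num_g`, `qc_ge`, and `Σ (a i + b i) ≤ 2`. -/
theorem RO_ge (hN : Disjoint N₁ N₂) (hg : Good (N₁ ∪ N₂) a b) :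
    Real.exp (-(2 * (1 - 0.6322 * 0.788))) ≤ RO 0.788 a b N₁ N₂ := by
  have hsum : ∑ i ∈ N₁ ∪ N₂, (a i + b i) ≤ 2 := by
    rw [Finset.sum_add_distrib]
    linarith [hg.sa, hg.sb]
  have h1 : ∏ i ∈ N₁, Real.exp (-((a i + b i) * (1 - 0.6322 * 0.788))) ≤
      ∏ i ∈ N₁, gf 0.788 (a i) (b i) :=
    Finset.prod_le_prod (fun i _ => (Real.exp_pos _).le) fun i hi =>
      num_g (hg.a0 i (Finset.mem_union_left _ hi)) (hg.b0 i (Finset.mem_union_left _ hi))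
      (hg.ab i (Finset.mem_union_left _ hi))
  have h2 : ∏ i ∈ N₂, Real.exp (-((a i + b i) * (1 - 0.6322 * 0.788))) ≤
      ∏ i ∈ N₂, (qc 0.788 (a i) * qc 0.788 (b i)) := by
    refine Finset.prod_le_prod (fun i _ => (Real.exp_pos _).le) fun i hi => ?_
    have ha : Real.exp (-(a i * (1 - 0.6322 * 0.788))) ≤ qc 0.788 (a i) :=
      qc_ge (by norm_num) (by norm_num)
    have hb : Real.exp (-(b i * (1 - 0.6322 * 0.788))) ≤ qc 0.788 (b i) :=
      qc_ge (by norm_num) (by norm_num)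
    have e : Real.exp (-((a i + b i) * (1 - 0.6322 * 0.788))) =
        Real.exp (-(a i * (1 - 0.6322 * 0.788))) * Real.exp (-(b i * (1 - 0.6322 * 0.788))) := by
      rw [← Real.exp_add]
      congr 1
      ring
    rw [e]
    exact mul_le_mul ha hb (Real.exp_pos _).le ((Real.exp_pos _).le.trans ha)
  unfold RO
  refine le_trans ?_ (mul_le_mul h1 h2 (Finset.prod_nonneg fun i _ => (Real.exp_pos _).le)
    ((Finset.prod_nonneg fun i _ => (Real.exp_pos _).le).trans h1))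
  rw [← Finset.prod_union hN, ← Real.exp_sum]
  apply Real.exp_le_exp.2
  rw [Finset.sum_neg_distrib, ← Finset.sum_mul]
  have := mul_le_mul_of_nonneg_right hsum (by norm_num : (0 : ℝ) ≤ 1 - 0.6322 * 0.788)
  linarith

/-- The independent version: `RO - η QO - η QO + η² = (Qa - η)(Qb - η)` with `Qa = ∏ qc s (a i) ≥
exp (-m (1 - 0.6322 s)) ≥ exp (-m) ≥ η`, and `∏ pc s (a i) ≥ exp (-0.3678 m s)`. -/
theorem PH_indep {N : Finset α} {η s m : ℝ} (hs0 : 0 ≤ s) (hs1 : s ≤ 1) (hη0 : 0 ≤ η)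
    (hη1 : η ≤ Real.exp (-m)) (hm : 0 ≤ m) (ha0 : ∀ i ∈ N, 0 ≤ a i) (hb0 : ∀ i ∈ N, 0 ≤ b i)
    (hsa : ∑ i ∈ N, a i ≤ m) (hsb : ∑ i ∈ N, b i ≤ m) :
    2 * η * (Real.exp (-(0.3678 * m * s)) - Real.exp (-(m * (1 - 0.6322 * s)))) +
      Real.exp (-(m * (1 - 0.6322 * s))) ^ 2 ≤ PH η s a b ∅ N := by
  have hP : ∀ f : α → ℝ, (∀ i ∈ N, 0 ≤ f i) → ∑ i ∈ N, f i ≤ m →
      Real.exp (-(0.3678 * m * s)) ≤ ∏ i ∈ N, pc s (f i) := by
    intro f _ hf
    calc Real.exp (-(0.3678 * m * s)) ≤ Real.exp (∑ i ∈ N, -(0.3678 * f i * s)) := by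
          apply Real.exp_le_exp.2
          rw [Finset.sum_neg_distrib]
          have e : ∑ i ∈ N, 0.3678 * f i * s = 0.3678 * s * ∑ i ∈ N, f i := by
            rw [Finset.mul_sum]
            exact Finset.sum_congr rfl fun i _ => by ring
          rw [e]
          have := mul_le_mul_of_nonneg_left hf (by positivity : (0 : ℝ) ≤ 0.3678 * s)
          linarith
      _ = ∏ i ∈ N, Real.exp (-(0.3678 * f i * s)) := Real.exp_sum _ _
      _ ≤ _ := Finset.prod_le_prod (fun i _ => (Real.exp_pos _).le) fun i _ => pc_ge hs0 hs1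
  have hc : (0 : ℝ) ≤ 1 - 0.6322 * s := by linarith
  have hQ : ∀ f : α → ℝ, (∀ i ∈ N, 0 ≤ f i) → ∑ i ∈ N, f i ≤ m →
      Real.exp (-(m * (1 - 0.6322 * s))) ≤ ∏ i ∈ N, qc s (f i) := by
    intro f _ hf
    calc Real.exp (-(m * (1 - 0.6322 * s))) ≤
          Real.exp (∑ i ∈ N, -(f i * (1 - 0.6322 * s))) := by
          apply Real.exp_le_exp.2
          rw [Finset.sum_neg_distrib, ← Finset.sum_mul]
          have := mul_le_mul_of_nonneg_right hf hc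
          linarith
      _ = ∏ i ∈ N, Real.exp (-(f i * (1 - 0.6322 * s))) := Real.exp_sum _ _
      _ ≤ _ := Finset.prod_le_prod (fun i _ => (Real.exp_pos _).le) fun i _ => qc_ge hs0 hs1
  have hη2 : η ≤ Real.exp (-(m * (1 - 0.6322 * s))) := by
    refine hη1.trans (Real.exp_le_exp.2 ?_)
    nlinarith
  have p1 := hP a ha0 hsa
  have p2 := hP b hb0 hsb
  have q1 := hQ a ha0 hsa
  have q2 := hQ b hb0 hsb
  unfold PH PO QO RO
  rw [Finset.prod_empty, Finset.prod_empty, Finset.prod_empty, Finset.prod_empty,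
    Finset.prod_empty, one_mul, one_mul, one_mul, one_mul, one_mul, Finset.prod_mul_distrib]
  set Pa := ∏ i ∈ N, pc s (a i)
  set Pb := ∏ i ∈ N, pc s (b i)
  set Qa := ∏ i ∈ N, qc s (a i)
  set Qb := ∏ i ∈ N, qc s (b i)
  set e1 := Real.exp (-(0.3678 * m * s))
  set e2 := Real.exp (-(m * (1 - 0.6322 * s)))
  have h1 : (e2 - η) * (e2 - η) ≤ (Qa - η) * (Qb - η) :=
    mul_le_mul (by linarith) (by linarith) (by linarith) (by linarith)
  have h2 : η * e1 ≤ η * Pa := mul_le_mul_of_nonneg_left p1 hη0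
  have h3 : η * e1 ≤ η * Pb := mul_le_mul_of_nonneg_left p2 hη0
  nlinarith

end Pool.Agent.Lib.MP_7470b6_lc.Gen
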