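import Pool.Agent.Lib.MP_7470b6_lc.Gen.DA

/-!
# Job DI: identities
-/

open Finset

namespace Pool.Agent.Lib.MP_7470b6_lc.Gen

theorem pf_eq (s a b : ℝ) : pf s a b = pc s a - s * del a b := by
  unfold pf pc del
  ring

theorem qf_eq (s a b : ℝ) : qf s a b = qc s a - s * del a b := by
  unfold qf qc pf pc del
  ring

theorem gf_eq (s a b : ℝ) : gf s a b = qc s a * qc s b + s * BB s a b := by
  unfold gf qc pc BB
  ring

theorem gf_comm (s a b : ℝ) : gf s a b = gf s b a := by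
  unfold gf
  ring

private theorem DI_gf (s a b : ℝ) : gf s a b = (1 - kk a) * (1 - kk b) +
    (kk a * (1 - kk b) - AA a + (kk b * (1 - kk a) - AA b)) * s + kk a * kk b * s ^ 2 := by
  unfold gf
  ring

private theorem DI_AA {a b : ℝ} (ha : 0 ≤ a) (hb : 0 ≤ b) (hab : a + b ≤ 1) :
    0 ≤ kk a * (1 - kk b) - AA a := by
  have h1 := AA_le ha (by linarith : a ≤ 1)
  have h2 : Real.exp (-(1 - a)) ≤ 1 - kk b := by
    unfold kk
    rw [sub_sub_cancel]
    exact Real.exp_le_exp.2 (by linarith)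
  have h3 := mul_le_mul_of_nonneg_left h2 (kk_nonneg ha)
  linarith

private theorem DI_kk1 (a : ℝ) : 0 ≤ 1 - kk a := by
  unfold kk
  have := Real.exp_pos (-a)
  linarith

/-- `gf` is a polynomial in `s` with nonnegative coefficients: constant term `(1 - kk a)(1 - kk b)`, linear
coefficient `kk a (1 - kk b) - AA a + kk b (1 - kk a) - AA b` (`AA a ≤ kk a exp (-(1-a)) ≤ kk a exp (-b)`), quadratic
coefficient `kk a kk b`. -/
theorem gf_mono {a b : ℝ} (ha : 0 ≤ a) (hb : 0 ≤ b) (hab : a + b ≤ 1) :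
    0 ≤ gf 0.212 a b ∧ gf 0.212 a b ≤ gf 0.788 a b := by
  have h1 := DI_AA ha hb hab
  have h2 := DI_AA hb ha (by linarith)
  have h3 := mul_nonneg (DI_kk1 a) (DI_kk1 b)
  have h4 := mul_nonneg (kk_nonneg ha) (kk_nonneg hb)
  rw [DI_gf, DI_gf]
  constructor
  · nlinarith
  · nlinarith

/-- Same for the independent version: `qc s a = exp (-a) + s (kk a - ec a)`. -/
theorem qc_mono {a : ℝ} (ha : 0 ≤ a) : 0 ≤ qc 0.212 a ∧ qc 0.212 a ≤ qc 0.788 a := by
  refine ⟨(pc_bounds (by norm_num) (by norm_num) ha).1, ?_⟩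
  have h := ec_le_kk ha
  unfold qc pc
  linarith

/-- Convexity of `exp`: `qc s a = (1-s) exp (-a) + s exp (-0.3678 a) ≥ exp (-a ((1-s) + 0.3678 s))`. -/
theorem qc_ge {s a : ℝ} (hs0 : 0 ≤ s) (hs1 : s ≤ 1) :
    Real.exp (-(a * (1 - 0.6322 * s))) ≤ qc s a := by
  have h := convexOn_exp.2 (Set.mem_univ (-a)) (Set.mem_univ (-(0.3678 * a)))
    (by linarith : 0 ≤ 1 - s) hs0 (by ring)
  simp only [smul_eq_mul] at h
  have h1 : (1 - s) * -a + s * -(0.3678 * a) = -(a * (1 - 0.6322 * s)) := by ring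
  rw [h1] at h
  refine h.trans (le_of_eq ?_)
  unfold qc pc ec kk
  ring

/-- Convexity of `exp`. -/
theorem pc_ge {s a : ℝ} (hs0 : 0 ≤ s) (hs1 : s ≤ 1) :
    Real.exp (-(0.3678 * a * s)) ≤ pc s a := by
  have h := convexOn_exp.2 (Set.mem_univ (0 : ℝ)) (Set.mem_univ (-(0.3678 * a)))
    (by linarith : 0 ≤ 1 - s) hs0 (by ring)
  simp only [smul_eq_mul, Real.exp_zero] at h
  have h1 : (1 - s) * 0 + s * -(0.3678 * a) = -(0.3678 * a * s) := by ring
  rw [h1] at h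
  refine h.trans (le_of_eq ?_)
  unfold pc ec
  ring

/-- Convexity of `exp`. -/
theorem kk_ge {s a : ℝ} (hs0 : 0 ≤ s) (hs1 : s ≤ 1) :
    Real.exp (-(a * (1 - s))) ≤ 1 - kk a * (1 - s) := by
  have h := convexOn_exp.2 (Set.mem_univ (0 : ℝ)) (Set.mem_univ (-a))
    hs0 (by linarith : 0 ≤ 1 - s) (by ring)
  simp only [smul_eq_mul, Real.exp_zero] at h
  have h1 : s * 0 + (1 - s) * -a = -(a * (1 - s)) := by ring
  rw [h1] at h
  refine h.trans (le_of_eq ?_)
  unfold kk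
  ring

end Pool.Agent.Lib.MP_7470b6_lc.Gen
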