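import Pool.Agent.Lib.MP_7470b6_lc.Gen.DS
import Pool.Agent.Lib.MP_7470b6_lc.Gen.DE

/-!
# Job DM: the deterministic inequality
-/

open Finset

namespace Pool.Agent.Lib.MP_7470b6_lc.Gen

variable {α : Type*} [DecidableEq α] {a b : α → ℝ}

private theorem DM_good {N M : Finset α} (hg : Good N a b) (h : M ⊆ N) : Good M a b := by
  refine ⟨fun i hi => hg.a0 i (h hi), fun i hi => hg.b0 i (h hi), fun i hi => hg.ab i (h hi), ?_, ?_⟩
  · exact (Finset.sum_le_sum_of_subset_of_nonneg h fun i hi _ => hg.a0 i hi).trans hg.sa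
  · exact (Finset.sum_le_sum_of_subset_of_nonneg h fun i hi _ => hg.b0 i hi).trans hg.sb

private theorem DM_swap {N : Finset α} (hg : Good N a b) : Good N b a :=
  ⟨hg.b0, hg.a0, fun i hi => by linarith [hg.ab i hi], hg.sb, hg.sa⟩

private theorem DM_PO1 (s : ℝ) (a b : α → ℝ) {N₁ N₂ : Finset α} {i : α} (h : i ∉ N₁) :
    PO s a b (insert i N₁) N₂ = PO s a b N₁ N₂ * pf s (a i) (b i) := by
  unfold PO
  rw [Finset.prod_insert h]
  ring

private theorem DM_PO2 (s : ℝ) (a b : α → ℝ) {N₁ N₂ : Finset α} {i : α} (h : i ∉ N₂) :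
    PO s a b N₁ (insert i N₂) = PO s a b N₁ N₂ * pc s (a i) := by
  unfold PO
  rw [Finset.prod_insert h]
  ring

private theorem DM_QO1 (s : ℝ) (a b : α → ℝ) {N₁ N₂ : Finset α} {i : α} (h : i ∉ N₁) :
    QO s a b (insert i N₁) N₂ = QO s a b N₁ N₂ * qf s (a i) (b i) := by
  unfold QO
  rw [Finset.prod_insert h]
  ring

private theorem DM_QO2 (s : ℝ) (a b : α → ℝ) {N₁ N₂ : Finset α} {i : α} (h : i ∉ N₂) :
    QO s a b N₁ (insert i N₂) = QO s a b N₁ N₂ * qc s (a i) := by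
  unfold QO
  rw [Finset.prod_insert h]
  ring

private theorem DM_RO1 (s : ℝ) (a b : α → ℝ) {N₁ N₂ : Finset α} {i : α} (h : i ∉ N₁) :
    RO s a b (insert i N₁) N₂ = RO s a b N₁ N₂ * gf s (a i) (b i) := by
  unfold RO
  rw [Finset.prod_insert h]
  ring

private theorem DM_RO2 (s : ℝ) (a b : α → ℝ) {N₁ N₂ : Finset α} {i : α} (h : i ∉ N₂) :
    RO s a b N₁ (insert i N₂) = RO s a b N₁ N₂ * (qc s (a i) * qc s (b i)) := by
  unfold RO
  rw [Finset.prod_insert h]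
  ring

private theorem DM_step {η : ℝ} (hη0 : 0 ≤ η) (hη1 : η ≤ 0.3678) {N₁ N₂ : Finset α} {i : α}
    (h1 : i ∉ N₁) (h2 : i ∉ N₂) (hd : Disjoint N₁ N₂) (hg : Good (N₁ ∪ N₂) a b) (ha : 0 ≤ a i)
    (hb : 0 ≤ b i) (hab : a i + b i ≤ 1) :
    PH η 0.212 a b N₁ (insert i N₂) + PH η 0.788 a b N₁ (insert i N₂) ≤
      PH η 0.212 a b (insert i N₁) N₂ + PH η 0.788 a b (insert i N₁) N₂ := by
  have e1 : (1 - 0.212 : ℝ) = 0.788 := by norm_num
  have e2 : (1 - 0.788 : ℝ) = 0.212 := by norm_num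
  have hu1 := PO_QO (s := 0.212) (by norm_num) (by norm_num) hd hg
  have hu2 := PO_QO (s := 0.788) (by norm_num) (by norm_num) hd hg
  have hv1 := PO_QO (s := 0.212) (by norm_num) (by norm_num) hd (DM_swap hg)
  have hv2 := PO_QO (s := 0.788) (by norm_num) (by norm_num) hd (DM_swap hg)
  rw [e1] at hu1 hv1
  rw [e2] at hu2 hv2
  have hR := RO_mono hd hg
  have hR2 := RO_ge hd hg
  have key := step_env hη0 hη1 ha hb hab hu1.1 hu1.2 hv1.1 hv1.2 hu2.1 hu2.2 hv2.1 hv2.2 hR.1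
    hR.2 hR2
  unfold PH
  rw [DM_PO1 _ _ _ h1, DM_PO1 _ _ _ h1, DM_PO1 _ _ _ h1, DM_PO1 _ _ _ h1, DM_QO1 _ _ _ h1,
    DM_QO1 _ _ _ h1, DM_QO1 _ _ _ h1, DM_QO1 _ _ _ h1, DM_RO1 _ _ _ h1, DM_RO1 _ _ _ h1,
    DM_PO2 _ _ _ h2, DM_PO2 _ _ _ h2, DM_PO2 _ _ _ h2, DM_PO2 _ _ _ h2, DM_QO2 _ _ _ h2,
    DM_QO2 _ _ _ h2, DM_QO2 _ _ _ h2, DM_QO2 _ _ _ h2, DM_RO2 _ _ _ h2, DM_RO2 _ _ _ h2]
  linarith

private theorem DM_all {η : ℝ} (hη0 : 0 ≤ η) (hη1 : η ≤ 0.3678) {N₁ : Finset α} :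
    ∀ N₂ : Finset α, Disjoint N₁ N₂ → Good (N₁ ∪ N₂) a b →
      PH η 0.212 a b ∅ (N₁ ∪ N₂) + PH η 0.788 a b ∅ (N₁ ∪ N₂) ≤
        PH η 0.212 a b N₁ N₂ + PH η 0.788 a b N₁ N₂ := by
  induction N₁ using Finset.induction_on with
  | empty =>
    intro N₂ _ _
    rw [Finset.empty_union]
  | insert i M hi ih =>
    intro N₂ hd hg
    rw [Finset.disjoint_insert_left] at hd
    have hd' : Disjoint M (insert i N₂) := by
      rw [Finset.disjoint_insert_right]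
      exact ⟨hi, hd.2⟩
    have hset : M ∪ insert i N₂ = insert i M ∪ N₂ := by
      rw [Finset.union_insert, Finset.insert_union]
    have hih := ih (insert i N₂) hd' (by rw [hset]; exact hg)
    rw [hset] at hih
    have him : i ∈ insert i M ∪ N₂ := Finset.mem_union_left _ (Finset.mem_insert_self _ _)
    have hsub : M ∪ N₂ ⊆ insert i M ∪ N₂ :=
      Finset.union_subset_union (Finset.subset_insert _ _) Finset.Subset.rfl
    exact hih.trans (DM_step hη0 hη1 hi hd.1 hd.2 (DM_good hg hsub) (hg.a0 i him) (hg.b0 i him)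
      (hg.ab i him))

/-- Induction on `N₁`: the element `i` is moved from the first to the second set by `step_env`, with environment the
products over the other elements (`PO_QO` for `a, b` and for `b, a`, `RO_mono`, `RO_ge`). -/
theorem swap_all {η : ℝ} (hη0 : 0 ≤ η) (hη1 : η ≤ 0.3678) {N : Finset α} (hg : Good N a b) :
    PH η 0.212 a b ∅ N + PH η 0.788 a b ∅ N ≤ PH η 0.212 a b N ∅ + PH η 0.788 a b N ∅ := by
  have h := DM_all (a := a) (b := b) hη0 hη1 (N₁ := N) ∅ (Finset.disjoint_empty_right _)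
    (by rw [Finset.union_empty]; exact hg)
  rw [Finset.union_empty] at h
  exact h

/-- `swap_all`, `PH_indep` with `m = 1 - x`, `num_x`, `eta_bounds`. -/
theorem det_main {x : ℝ} (h0 : 0 < x) (h1 : x ≤ 1) {N : Finset α} (ha0 : ∀ i ∈ N, 0 ≤ a i)
    (hb0 : ∀ i ∈ N, 0 ≤ b i) (hab : ∀ i ∈ N, a i + b i ≤ 1) (hsa : ∑ i ∈ N, a i ≤ 1 - x)
    (hsb : ∑ i ∈ N, b i ≤ 1 - x) :
    0.49 * x ≤ kk x * (1 / 2 * (PH (AA x / kk x) 0.212 a b N ∅ +
      PH (AA x / kk x) 0.788 a b N ∅)) := by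
  obtain ⟨hη0, hη1, hη2⟩ := eta_bounds h0 h1
  have hkk : 0 < kk x := by
    unfold kk
    have := Real.exp_lt_one_iff.2 (show -x < 0 by linarith)
    linarith
  obtain ⟨η, hη⟩ : ∃ η, η = AA x / kk x := ⟨_, rfl⟩
  rw [← hη] at hη0 hη1 hη2 ⊢
  have hAA : kk x * η = AA x := by
    rw [hη]
    field_simp
  have hg : Good N a b := ⟨ha0, hb0, hab, hsa.trans (by linarith), hsb.trans (by linarith)⟩
  have hs := swap_all hη0 hη1 hg
  have p1 := PH_indep (s := 0.212) (m := 1 - x) (by norm_num) (by norm_num) hη0 hη2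
    (by linarith) ha0 hb0 hsa hsb
  have p2 := PH_indep (s := 0.788) (m := 1 - x) (by norm_num) (by norm_num) hη0 hη2
    (by linarith) ha0 hb0 hsa hsb
  have hn := num_x h0 h1
  obtain ⟨X1, hX1⟩ : ∃ X, X = Real.exp (-(0.3678 * (1 - x) * 0.212)) := ⟨_, rfl⟩
  obtain ⟨X2, hX2⟩ : ∃ X, X = Real.exp (-((1 - x) * (1 - 0.6322 * 0.212))) := ⟨_, rfl⟩
  obtain ⟨Y1, hY1⟩ : ∃ X, X = Real.exp (-(0.3678 * (1 - x) * 0.788)) := ⟨_, rfl⟩
  obtain ⟨Y2, hY2⟩ : ∃ X, X = Real.exp (-((1 - x) * (1 - 0.6322 * 0.788))) := ⟨_, rfl⟩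
  rw [← hX1, ← hX2] at p1
  rw [← hY1, ← hY2] at p2
  rw [← hX1, ← hX2, ← hY1, ← hY2, ← hAA] at hn
  have h3 : 2 * η * (X1 - X2) + X2 ^ 2 + (2 * η * (Y1 - Y2) + Y2 ^ 2) ≤
      PH η 0.212 a b N ∅ + PH η 0.788 a b N ∅ := by linarith
  have h4 := mul_le_mul_of_nonneg_left h3 hkk.le
  nlinarith

end Pool.Agent.Lib.MP_7470b6_lc.Gen
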