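import Pool.Agent.Lib.MP_7470b6_lc.Gen.DI
import Pool.Agent.Lib.MP_7470b6_lc.Gen.DN

/-!
# Job DS: replacing one neighbour by its independent version
-/

open Finset

namespace Pool.Agent.Lib.MP_7470b6_lc.Gen

open Pool.Agent.Lib.MP_7470b6_lc.Crs in
private theorem DS_exp1 : (0.4547 : ℝ) ≤ Real.exp (-0.788) := by
  have h := taylor_odd 3 (y := 0.788) (by norm_num)
  refine le_trans ?_ h
  norm_num [Finset.sum_range_succ, Nat.factorial]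

open Pool.Agent.Lib.MP_7470b6_lc.Crs in
private theorem DS_exp2 : (0.80895 : ℝ) ≤ Real.exp (-0.212) := by
  have h := taylor_odd 2 (y := 0.212) (by norm_num)
  refine le_trans ?_ h
  norm_num [Finset.sum_range_succ, Nat.factorial]

private theorem DS_exp3 : (0.3665 : ℝ) ≤ Real.exp (-(2 * (1 - 0.6322 * 0.788))) := by
  have h1 := Real.exp_neg_one_gt_d9
  have h2 : (-(2 * (1 - 0.6322 * 0.788)) : ℝ) = -1 + -0.0036528 := by norm_num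
  rw [h2, Real.exp_add]
  have h3 := Real.add_one_le_exp (-0.0036528 : ℝ)
  have h4 : (0.36787944 : ℝ) * (-0.0036528 + 1) ≤ Real.exp (-1) * Real.exp (-0.0036528) :=
    mul_le_mul (by linarith) h3 (by norm_num) (Real.exp_pos _).le
  linarith

/-- One term. -/
private theorem DS_term {η s d D e : ℝ} (hη0 : 0 ≤ η) (hη1 : η ≤ 0.3678) (hs : 0 ≤ s)
    (h0 : 0 ≤ D) (h1 : D ≤ 1 - e) :
    η * (s * d * D) ≤ 0.3678 * (s * (max 0 d) * (1 - e)) := by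
  have hm : 0 ≤ max 0 d := le_max_left _ _
  have hd : d ≤ max 0 d := le_max_right _ _
  have e1 : s * d * D ≤ s * (max 0 d) * (1 - e) := by
    have a1 : s * d ≤ s * max 0 d := mul_le_mul_of_nonneg_left hd hs
    have a2 : 0 ≤ s * max 0 d := mul_nonneg hs hm
    calc s * d * D ≤ s * max 0 d * D := mul_le_mul_of_nonneg_right a1 h0
      _ ≤ s * max 0 d * (1 - e) := mul_le_mul_of_nonneg_left h1 a2
  have e2 : 0 ≤ s * (max 0 d) * (1 - e) := mul_nonneg (mul_nonneg hs hm) (by linarith)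
  calc η * (s * d * D) ≤ η * (s * (max 0 d) * (1 - e)) := mul_le_mul_of_nonneg_left e1 hη0
    _ ≤ 0.3678 * (s * (max 0 d) * (1 - e)) := mul_le_mul_of_nonneg_right hη1 e2

/-- The step with abstract environment. Index 1 is the node `0.212`, index 2 the node `0.788`. By `pf_eq`, `qf_eq`,
`gf_eq` the difference of the two sides is
`-η Σ s δ(a,b) (Pu - Qu) - η Σ s δ(b,a) (Pv - Qv) + Σ s R_s BB s a b`. The first two terms are at least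
`-0.3678 C (δ(a,b)⁺ + δ(b,a)⁺)` with `C = 0.212 (1 - exp (-0.788)) + 0.788 (1 - exp (-0.212)) ≤ 0.2662`
(`0.3678 * 0.2662 ≤ 0.09791`). If `BB 0.212 a b ≥ 0` the last sum is at least `R₂ 0.788 BB 0.788 a b` and `num_a` applies
(`R₂ ≥ exp (-1.00366) ≥ 0.3665`; `BB 0.788 ≥ 0` by `num_a`); otherwise `R₁ BB 0.212 ≥ R₂ BB 0.212` and `num_b` applies. -/
theorem step_env {η a b : ℝ} (hη0 : 0 ≤ η) (hη1 : η ≤ 0.3678) (ha : 0 ≤ a) (hb : 0 ≤ b)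
    (hab : a + b ≤ 1) {Pu₁ Qu₁ Pv₁ Qv₁ R₁ Pu₂ Qu₂ Pv₂ Qv₂ R₂ : ℝ}
    (hu₁ : 0 ≤ Pu₁ - Qu₁) (hu₁' : Pu₁ - Qu₁ ≤ 1 - Real.exp (-0.788))
    (hv₁ : 0 ≤ Pv₁ - Qv₁) (hv₁' : Pv₁ - Qv₁ ≤ 1 - Real.exp (-0.788))
    (hu₂ : 0 ≤ Pu₂ - Qu₂) (hu₂' : Pu₂ - Qu₂ ≤ 1 - Real.exp (-0.212))
    (hv₂ : 0 ≤ Pv₂ - Qv₂) (hv₂' : Pv₂ - Qv₂ ≤ 1 - Real.exp (-0.212))
    (hR₁ : 0 ≤ R₁) (hR₁₂ : R₁ ≤ R₂) (hR₂ : Real.exp (-(2 * (1 - 0.6322 * 0.788))) ≤ R₂) :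
    (η * (Pu₁ * pc 0.212 a - Qu₁ * qc 0.212 a) + η * (Pv₁ * pc 0.212 b - Qv₁ * qc 0.212 b) +
        R₁ * (qc 0.212 a * qc 0.212 b)) +
      (η * (Pu₂ * pc 0.788 a - Qu₂ * qc 0.788 a) + η * (Pv₂ * pc 0.788 b - Qv₂ * qc 0.788 b) +
        R₂ * (qc 0.788 a * qc 0.788 b)) ≤
    (η * (Pu₁ * pf 0.212 a b - Qu₁ * qf 0.212 a b) +
        η * (Pv₁ * pf 0.212 b a - Qv₁ * qf 0.212 b a) + R₁ * gf 0.212 a b) +
      (η * (Pu₂ * pf 0.788 a b - Qu₂ * qf 0.788 a b) +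
        η * (Pv₂ * pf 0.788 b a - Qv₂ * qf 0.788 b a) + R₂ * gf 0.788 a b) := by
  have ha' := num_a ha hb hab
  have hb' := num_b ha hb hab
  obtain ⟨d1, hd1⟩ : ∃ d, d = del a b := ⟨_, rfl⟩
  obtain ⟨d2, hd2⟩ : ∃ d, d = del b a := ⟨_, rfl⟩
  obtain ⟨B1, hB1⟩ : ∃ d, d = BB 0.212 a b := ⟨_, rfl⟩
  obtain ⟨B2, hB2⟩ : ∃ d, d = BB 0.788 a b := ⟨_, rfl⟩
  rw [← hd1, ← hd2, ← hB2] at ha'
  rw [← hd1, ← hd2, ← hB2, ← hB1] at hb'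
  rw [pf_eq, pf_eq, pf_eq, pf_eq, qf_eq, qf_eq, qf_eq, qf_eq, gf_eq, gf_eq, ← hd1, ← hd2, ← hB1,
    ← hB2]
  have hR2 : 0.3665 ≤ R₂ := DS_exp3.trans hR₂
  obtain ⟨D1, hD1⟩ : ∃ d, d = max 0 d1 := ⟨_, rfl⟩
  obtain ⟨D2, hD2⟩ : ∃ d, d = max 0 d2 := ⟨_, rfl⟩
  have hD1n : 0 ≤ D1 := by
    rw [hD1]
    exact le_max_left _ _
  have hD2n : 0 ≤ D2 := by
    rw [hD2]
    exact le_max_left _ _
  have t1 := DS_term (s := 0.212) (d := d1) hη0 hη1 (by norm_num) hu₁ hu₁'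
  have t2 := DS_term (s := 0.212) (d := d2) hη0 hη1 (by norm_num) hv₁ hv₁'
  have t3 := DS_term (s := 0.788) (d := d1) hη0 hη1 (by norm_num) hu₂ hu₂'
  have t4 := DS_term (s := 0.788) (d := d2) hη0 hη1 (by norm_num) hv₂ hv₂'
  rw [← hD1] at t1 t3 ha' hb'
  rw [← hD2] at t2 t4 ha' hb'
  have x1 := DS_exp1
  have x2 := DS_exp2
  obtain ⟨E1, hE1⟩ : ∃ d, d = Real.exp (-0.788) := ⟨_, rfl⟩
  obtain ⟨E2, hE2⟩ : ∃ d, d = Real.exp (-0.212) := ⟨_, rfl⟩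
  rw [← hE1] at t1 t2 x1
  rw [← hE2] at t3 t4 x2
  -- the total of the negative terms
  have hneg : ∀ D : ℝ, 0 ≤ D → 0.3678 * (0.212 * D * (1 - E1)) + 0.3678 * (0.788 * D * (1 - E2)) ≤
      0.09791 * D := by
    intro D hD
    have e1 : 0.212 * (1 - E1) + 0.788 * (1 - E2) ≤ 0.2662 := by linarith
    have e2 : 0.3678 * (0.212 * D * (1 - E1)) + 0.3678 * (0.788 * D * (1 - E2)) =
        0.3678 * D * (0.212 * (1 - E1) + 0.788 * (1 - E2)) := by ring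
    rw [e2]
    have e3 := mul_le_mul_of_nonneg_left e1 (by positivity : 0 ≤ 0.3678 * D)
    linarith
  have hn1 := hneg D1 hD1n
  have hn2 := hneg D2 hD2n
  have hB2n : 0 ≤ B2 := by
    have : 0 ≤ 0.09791 * (D1 + D2) := by positivity
    linarith
  have hmain : 0.09791 * (D1 + D2) ≤ R₁ * (0.212 * B1) + R₂ * (0.788 * B2) := by
    rcases le_or_gt 0 B1 with h | h
    · have e1 : 0 ≤ R₁ * (0.212 * B1) := by positivity
      have e2 : 0.3665 * (0.788 * B2) ≤ R₂ * (0.788 * B2) :=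
        mul_le_mul_of_nonneg_right hR2 (by positivity)
      linarith
    · have e1 : R₂ * (0.212 * B1) ≤ R₁ * (0.212 * B1) :=
        mul_le_mul_of_nonpos_right hR₁₂ (by linarith)
      have e3 : 0 ≤ 0.788 * B2 + 0.212 * B1 := by
        have : 0 ≤ 0.09791 * (D1 + D2) := by positivity
        linarith
      have e2 : 0.3665 * (0.788 * B2 + 0.212 * B1) ≤ R₂ * (0.788 * B2 + 0.212 * B1) :=
        mul_le_mul_of_nonneg_right hR2 e3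
      linarith
  have key : ∀ (A1 A2 A3 A4 A5 A6 A7 A8 : ℝ),
      (η * (Pu₁ * (A1 - 0.212 * d1) - Qu₁ * (A2 - 0.212 * d1)) +
        η * (Pv₁ * (A3 - 0.212 * d2) - Qv₁ * (A4 - 0.212 * d2)) +
          R₁ * (A2 * A4 + 0.212 * B1)) +
      (η * (Pu₂ * (A5 - 0.788 * d1) - Qu₂ * (A6 - 0.788 * d1)) +
        η * (Pv₂ * (A7 - 0.788 * d2) - Qv₂ * (A8 - 0.788 * d2)) +
          R₂ * (A6 * A8 + 0.788 * B2)) -
      ((η * (Pu₁ * A1 - Qu₁ * A2) + η * (Pv₁ * A3 - Qv₁ * A4) + R₁ * (A2 * A4)) +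
      (η * (Pu₂ * A5 - Qu₂ * A6) + η * (Pv₂ * A7 - Qv₂ * A8) + R₂ * (A6 * A8))) =
      R₁ * (0.212 * B1) + R₂ * (0.788 * B2) - η * (0.212 * d1 * (Pu₁ - Qu₁)) -
        η * (0.212 * d2 * (Pv₁ - Qv₁)) - η * (0.788 * d1 * (Pu₂ - Qu₂)) -
        η * (0.788 * d2 * (Pv₂ - Qv₂)) := by
    intros
    ring
  have hk := key (pc 0.212 a) (qc 0.212 a) (pc 0.212 b) (qc 0.212 b) (pc 0.788 a) (qc 0.788 a)
    (pc 0.788 b) (qc 0.788 b)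
  linarith

end Pool.Agent.Lib.MP_7470b6_lc.Gen
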