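import Pool.Agent.Lib.MP_7470b6_lc.Gen.GenD

/-!
# Job GA: Harris inequality for products, conditional version
-/

open Finset

namespace Pool.Agent.Lib.MP_7470b6_lc.Gen

open Pool.Agent.Lib.MP_7470b6_lc.Crs

private theorem GA_same {ι : Type*} [DecidableEq ι] {f : Finset ι → ℝ} {B : Finset ι} (hf : DepOn f B)
    {i : ι} (hi : i ∉ B) (T : Finset ι) : f (insert i T) = f T := by
  apply hf
  ext x
  simp only [mem_inter, mem_insert]
  constructor
  · rintro ⟨h | h, hx⟩
    · exact absurd (h ▸ hx) hi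
    · exact ⟨h, hx⟩
  · rintro ⟨h, hx⟩
    exact ⟨Or.inr h, hx⟩

private theorem GA_dep {ι α : Type*} [DecidableEq ι] [DecidableEq α] (N : Finset α) (φ : α → Finset ι → ℝ)
    (Bk : α → Finset ι) (hφ : ∀ b ∈ N, DepOn (φ b) (Bk b)) :
    DepOn (fun T => ∏ b ∈ N, φ b T) (N.biUnion Bk) := by
  intro T T' h
  refine prod_congr rfl fun b hb => ?_
  apply hφ b hb
  ext x
  have hx := congrArg (fun S : Finset ι => x ∈ S) h
  simp only [mem_inter, mem_biUnion, eq_iff_iff] at hx
  simp only [mem_inter]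
  constructor
  · rintro ⟨h1, h2⟩
    exact ⟨(hx.1 ⟨h1, b, hb, h2⟩).1, h2⟩
  · rintro ⟨h1, h2⟩
    exact ⟨(hx.2 ⟨h1, b, hb, h2⟩).1, h2⟩

/-- Proof: induction on `N` with `ev_harris`: the product over `N'` depends on
`N'.biUnion Bk`, and is nondecreasing in every coordinate shared by `Bk b` and `Bk c`, `c ∈ N'`: the factors
`φ c` with `i ∈ Bk c` are nondecreasing by hypothesis, the others do not depend on `i`. -/
theorem ev_harris_prod {ι α : Type*} [DecidableEq ι] [DecidableEq α] {A : Finset ι} {p : ι → ℝ}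
    (hp : ∀ i ∈ A, 0 ≤ p i ∧ p i ≤ 1) (N : Finset α) (φ : α → Finset ι → ℝ)
    (Bk : α → Finset ι) (h0 : ∀ b ∈ N, ∀ T, 0 ≤ φ b T) (hφ : ∀ b ∈ N, DepOn (φ b) (Bk b))
    (hm : ∀ b ∈ N, ∀ c ∈ N, b ≠ c → ∀ i ∈ Bk b ∩ Bk c, ∀ T, φ b T ≤ φ b (insert i T)) :
    ∏ b ∈ N, ev A p (φ b) ≤ ev A p (fun T => ∏ b ∈ N, φ b T) := by
  induction N using Finset.induction_on with
  | empty => simp only [prod_empty, ev_const, le_refl]
  | insert a N ha ih =>
      have ih' := ih (fun b hb => h0 b (mem_insert_of_mem hb)) (fun b hb => hφ b (mem_insert_of_mem hb))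
        (fun b hb c hc => hm b (mem_insert_of_mem hb) c (mem_insert_of_mem hc))
      have hne : ∀ b ∈ N, b ≠ a := fun b hb h => ha (h ▸ hb)
      simp only [prod_insert ha]
      have h1 : 0 ≤ ev A p (φ a) := by
        rw [← ev_const A p 0]
        exact ev_mono hp fun T _ => h0 a (mem_insert_self _ _) T
      refine (mul_le_mul_of_nonneg_left ih' h1).trans ?_
      refine ev_harris hp (hφ a (mem_insert_self _ _))
        (GA_dep N φ Bk fun b hb => hφ b (mem_insert_of_mem hb)) ?_ ?_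
      · intro i hi T
        obtain ⟨hia, hiN⟩ := mem_inter.1 hi
        obtain ⟨c, hc, hic⟩ := mem_biUnion.1 hiN
        exact hm a (mem_insert_self _ _) c (mem_insert_of_mem hc) (hne c hc).symm i
          (mem_inter.2 ⟨hia, hic⟩) T
      · intro i hi T
        obtain ⟨hia, -⟩ := mem_inter.1 hi
        refine prod_le_prod (fun b hb => h0 b (mem_insert_of_mem hb) T) fun b hb => ?_
        by_cases hib : i ∈ Bk b
        · exact hm b (mem_insert_of_mem hb) a (mem_insert_self _ _) (hne b hb) i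
            (mem_inter.2 ⟨hib, hia⟩) T
        · rw [GA_same (hφ b (mem_insert_of_mem hb)) hib T]

/-- Induction on `B` with `ev_insert`. -/
theorem ev_unionG {ι : Type*} [DecidableEq ι] {B C : Finset ι} (hBC : Disjoint B C) (p : ι → ℝ)
    (f : Finset ι → ℝ) :
    ev (B ∪ C) p f = ev C p (fun S => ev B p (fun T => f (T ∪ S))) := by
  induction B using Finset.induction_on generalizing f with
  | empty =>
      rw [empty_union]
      refine ev_congr fun S _ => ?_
      rw [ev_empty, empty_union]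
  | insert i B hi ih =>
      have hiC : i ∉ C := fun h => Finset.disjoint_left.1 hBC (mem_insert_self i B) h
      have hBC' : Disjoint B C := Finset.disjoint_of_subset_left (subset_insert i B) hBC
      have hiBC : i ∉ B ∪ C := fun h => (mem_union.1 h).elim hi hiC
      rw [insert_union, ev_insert hiBC, ih hBC', ih hBC', ← ev_const_mul, ← ev_const_mul, ← ev_add]
      refine ev_congr fun S _ => ?_
      rw [ev_insert hi]
      simp only [insert_union]

/-- Conditional version. `U` depends on `C`; for each configuration `S ⊆ C` the function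
`T ↦ ψ b (T ∪ S)` depends on `Bk b ⊆ D`, and has expectation `m b S`. Proof: `ev_unionG` for both sides (`B = D`);
for `S ⊆ C` the inner expectation on the right is `U S * ev D p (fun T => ∏ b, ψ b (T ∪ S))` and
`ev_harris_prod` applies; on the left it is `U S * ∏ m b S` because `m b` depends on `C`. -/
theorem ev_cond_harris {ι α : Type*} [DecidableEq ι] [DecidableEq α] {C D : Finset ι}
    (hDC : Disjoint D C) {p : ι → ℝ} (hp : ∀ i ∈ D ∪ C, 0 ≤ p i ∧ p i ≤ 1)
    {U : Finset ι → ℝ} (hU : ∀ T, 0 ≤ U T) (hUd : DepOn U C) (N : Finset α)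
    (ψ m : α → Finset ι → ℝ) (Bk : α → Finset ι) (h0 : ∀ b ∈ N, ∀ T, 0 ≤ ψ b T)
    (hψ : ∀ b ∈ N, DepOn (ψ b) (C ∪ Bk b)) (hB : ∀ b ∈ N, Bk b ⊆ D)
    (hm : ∀ b ∈ N, ∀ c ∈ N, b ≠ c → ∀ i ∈ Bk b ∩ Bk c, ∀ T, ψ b T ≤ ψ b (insert i T))
    (hmd : ∀ b ∈ N, DepOn (m b) C)
    (hmE : ∀ b ∈ N, ∀ S ⊆ C, ev D p (fun T => ψ b (T ∪ S)) = m b S) :
    ev (D ∪ C) p (fun T => U T * ∏ b ∈ N, m b T) ≤
      ev (D ∪ C) p (fun T => U T * ∏ b ∈ N, ψ b T) := by
  rw [ev_unionG hDC, ev_unionG hDC]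
  refine ev_mono (fun i hi => hp i (mem_union_right _ hi)) fun S hS => ?_
  have hpD : ∀ i ∈ D, 0 ≤ p i ∧ p i ≤ 1 := fun i hi => hp i (mem_union_left _ hi)
  -- subsets of `D` do not change the intersection with `C`
  have hTS : ∀ T ⊆ D, (T ∪ S) ∩ C = S ∩ C := by
    intro T hT
    ext x
    simp only [mem_inter, mem_union]
    constructor
    · rintro ⟨h | h, hx⟩
      · exact absurd hx (Finset.disjoint_left.1 hDC (hT h))
      · exact ⟨h, hx⟩
    · rintro ⟨h, hx⟩
      exact ⟨Or.inr h, hx⟩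
  have hL : ev D p (fun T => U (T ∪ S) * ∏ b ∈ N, m b (T ∪ S)) = U S * ∏ b ∈ N, m b S := by
    rw [← ev_const D p (U S * ∏ b ∈ N, m b S)]
    refine ev_congr fun T hT => ?_
    rw [hUd (T ∪ S) S (hTS T hT)]
    congr 1
    exact prod_congr rfl fun b hb => hmd b hb (T ∪ S) S (hTS T hT)
  have hR : ev D p (fun T => U (T ∪ S) * ∏ b ∈ N, ψ b (T ∪ S)) =
      U S * ev D p (fun T => ∏ b ∈ N, ψ b ((T ∩ D) ∪ S)) := by
    rw [← ev_const_mul]
    refine ev_congr fun T hT => ?_
    rw [hUd (T ∪ S) S (hTS T hT), inter_eq_left.2 hT]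
  rw [hL, hR]
  refine mul_le_mul_of_nonneg_left ?_ (hU S)
  have hE : ∀ b ∈ N, m b S = ev D p (fun T => ψ b ((T ∩ D) ∪ S)) := by
    intro b hb
    rw [← hmE b hb S hS]
    refine ev_congr fun T hT => ?_
    rw [inter_eq_left.2 hT]
  rw [prod_congr rfl hE]
  refine ev_harris_prod hpD N (fun b T => ψ b ((T ∩ D) ∪ S)) Bk (fun b hb T => h0 b hb _) ?_ ?_
  · intro b hb T T' h
    apply hψ b hb
    ext x
    have hx := congrArg (fun S : Finset ι => x ∈ S) h
    simp only [mem_inter, eq_iff_iff] at hx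
    simp only [mem_inter, mem_union]
    have hDC' : x ∈ D → x ∉ C := fun h => Finset.disjoint_left.1 hDC h
    have hBD : x ∈ Bk b → x ∈ D := fun h => hB b hb h
    tauto
  · intro b hb c hc hbc i hi T
    have hiD : i ∈ D := hB b hb (mem_inter.1 hi).1
    have e : (insert i T ∩ D) ∪ S = insert i ((T ∩ D) ∪ S) := by
      rw [insert_inter_of_mem hiD, insert_union]
    show ψ b ((T ∩ D) ∪ S) ≤ ψ b ((insert i T ∩ D) ∪ S)
    rw [e]
    exact hm b hb c hc hbc i hi _

end Pool.Agent.Lib.MP_7470b6_lc.Gen
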