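import Pool.Agent.Lib.MP_7470b6_lc.Gen.DA
import Pool.Agent.Lib.MP_7470b6_lc.Crs.RU1

/-!
# Job GB: probabilities in [0,1], vertex sums
-/

open Finset

namespace Pool.Agent.Lib.MP_7470b6_lc.Gen

open Pool.Agent.Lib.MP_7470b6_lc.Crs

variable {V : Type} [Fintype V] [DecidableEq V] {G : SimpleGraph V} {x : Sym2 V → ℝ}

private theorem GB_mf {α : Type*} {p : α → Prop} (inst : DecidablePred p) {s : Finset α} {a : α} :
    a ∈ @Finset.filter α p inst s ↔ a ∈ s ∧ p a := Finset.mem_filter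

private theorem GB_mem_ot {u v b : V} : b ∈ ot u v ↔ b ≠ u ∧ b ≠ v := by
  unfold ot
  rw [GB_mf]
  exact ⟨fun h => h.2, fun h => ⟨Finset.mem_univ _, h⟩⟩

/-- The vertex sum of `u`, split into `s(u,v)` and the other edges (if `s(u,v)` is no edge then `x s(u,v) = 0`). -/
theorem oth_le (hx : FG G x) (u v : V) : x s(u, v) + oth G x u v ≤ 1 := by
  classical
  have h := hx.vertex u
  by_cases he : s(u, v) ∈ edges G
  · refine le_trans (le_of_eq ?_) h
    have hmem : s(u, v) ∈ (edges G).filter (fun f => u ∈ f) :=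
      Finset.mem_filter.2 ⟨he, Sym2.mem_mk_left u v⟩
    refine Eq.trans ?_ (Eq.trans (Finset.add_sum_erase _ (fun f => x f) hmem) ?_)
    · refine congrArg (fun t : ℝ => x s(u, v) + t) ?_
      unfold oth
      refine Finset.sum_congr ?_ (fun _ _ => rfl)
      ext f
      rw [GB_mf, Finset.mem_erase, Finset.mem_filter]
      tauto
    · refine Finset.sum_congr ?_ (fun _ _ => rfl)
      ext f
      simp only [Finset.mem_filter]
  · rw [hx.zero _ he, zero_add]
    refine le_trans ?_ h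
    unfold oth
    refine Finset.sum_le_sum_of_subset_of_nonneg ?_ (fun f _ _ => hx.nonneg f)
    intro f hf
    obtain ⟨h1, h2, -⟩ := (GB_mf _).1 hf
    exact (GB_mf _).2 ⟨h1, h2⟩

theorem oth_nonneg (hx : FG G x) (u v : V) : 0 ≤ oth G x u v := by
  unfold oth
  exact Finset.sum_nonneg (fun f _ => hx.nonneg f)

theorem x_le (hx : FG G x) (u v : V) : x s(u, v) ≤ 1 := by
  have h1 := oth_le hx u v
  have h2 := oth_nonneg hx u v
  linarith

/-- Coins: `AA t ≤ kk t * exp (-(1 - t)) ≤ kk t * exp (-oth)` (`AA_le`, `oth_le`), `AA_nonneg`. -/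
theorem prG_mem (hx : FG G x) : ∀ i ∈ gr G, 0 ≤ prG G x i ∧ prG G x i ≤ 1 := by
  intro i hi
  rcases i with f | ⟨b, u⟩
  · have h2 := hx.nonneg f
    show 0 ≤ 1 - Real.exp (-(x f)) ∧ 1 - Real.exp (-(x f)) ≤ 1
    constructor
    · have : Real.exp (-(x f)) ≤ 1 := Real.exp_le_one_iff.2 (by linarith)
      linarith
    · have := Real.exp_pos (-(x f))
      linarith
  · show 0 ≤ (if s(b, u) ∈ edges G ∧ 0 < x s(b, u) then
        AA (x s(b, u)) / ((1 - Real.exp (-(x s(b, u)))) * Real.exp (-(oth G x b u)))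
      else 0) ∧ (if s(b, u) ∈ edges G ∧ 0 < x s(b, u) then
        AA (x s(b, u)) / ((1 - Real.exp (-(x s(b, u)))) * Real.exp (-(oth G x b u)))
      else 0) ≤ 1
    split_ifs with hc
    · obtain ⟨he, ht⟩ := hc
      have hv := oth_le hx b u
      have h1 := x_le hx b u
      set t := x s(b, u) with htdef
      have hk : 0 < 1 - Real.exp (-t) := by
        have : Real.exp (-t) < 1 := Real.exp_lt_one_iff.2 (by linarith)
        linarith
      have hden : 0 < (1 - Real.exp (-t)) * Real.exp (-(oth G x b u)) :=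
        mul_pos hk (Real.exp_pos _)
      refine ⟨div_nonneg (AA_nonneg ht.le h1) hden.le, ?_⟩
      rw [div_le_one hden]
      refine (AA_le ht.le h1).trans ?_
      refine mul_le_mul_of_nonneg_left (Real.exp_le_exp.2 (by linarith)) hk.le
    · exact ⟨le_refl _, zero_le_one⟩

/-- `oth` as a sum over vertices. -/
private theorem GB_oth (hx : FG G x) (u v : V) :
    ∑ b ∈ (Finset.univ : Finset V).filter (fun b => b ≠ u ∧ b ≠ v), x s(u, b) = oth G x u v := by
  classical
  have h1 : ∑ b ∈ (Finset.univ : Finset V).filter (fun b => b ≠ u ∧ b ≠ v), x s(u, b) =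
      ∑ b ∈ ((Finset.univ : Finset V).filter (fun b => b ≠ u ∧ b ≠ v)).filter
        (fun b => s(u, b) ∈ edges G), x s(u, b) := by
    symm
    apply Finset.sum_filter_of_ne
    intro b _ hb
    by_contra hne
    exact hb (hx.zero _ hne)
  rw [h1]
  unfold oth
  apply Finset.sum_bij (fun b _ => s(u, b))
  · intro b hb
    rw [Finset.mem_filter, Finset.mem_filter] at hb
    exact (GB_mf _).2 ⟨hb.2, Sym2.mem_mk_left u b, fun h => hb.1.2.2 (Sym2.congr_right.1 h)⟩
  · intro a _ b _ h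
    exact Sym2.congr_right.1 h
  · intro f hf
    obtain ⟨h2, h3, h4⟩ := (GB_mf _).1 hf
    obtain ⟨b, rfl⟩ := Sym2.mem_iff_exists.1 h3
    refine ⟨b, ?_, rfl⟩
    rw [Finset.mem_filter, Finset.mem_filter]
    refine ⟨⟨Finset.mem_univ _, ?_, ?_⟩, h2⟩
    · exact ((mk_mem_edges G u b).1 h2).ne'
    · intro hb
      exact h4 (by rw [hb])
  · intro b _
    rfl

theorem sum_ot (hx : FG G x) {u v : V} (huv : u ≠ v) :
    ∑ b ∈ ot u v, x s(u, b) = oth G x u v := by
  unfold ot
  exact GB_oth hx u v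

theorem ot_comm (u v : V) : ot u v = ot v u := by
  ext b
  rw [GB_mem_ot, GB_mem_ot]
  exact and_comm

theorem oth2_eq (hx : FG G x) {u v b : V} (huv : u ≠ v) (hb : b ∈ ot u v) :
    oth2 G x b u v + x s(b, v) = oth G x b u := by
  classical
  have hne : s(b, v) ≠ s(b, u) := fun h => huv (Sym2.congr_right.1 h).symm
  by_cases he : s(b, v) ∈ edges G
  · have hmem : s(b, v) ∈ (edges G).filter (fun f => b ∈ f ∧ f ≠ s(b, u)) :=
      Finset.mem_filter.2 ⟨he, Sym2.mem_mk_left b v, hne⟩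
    refine Eq.trans ?_ (Eq.trans (Finset.sum_erase_add _ (fun f => x f) hmem) ?_)
    · refine congrArg (fun t : ℝ => t + x s(b, v)) ?_
      unfold oth2
      refine Finset.sum_congr ?_ (fun _ _ => rfl)
      ext f
      rw [GB_mf, Finset.mem_erase, Finset.mem_filter]
      tauto
    · unfold oth
      refine Finset.sum_congr ?_ (fun _ _ => rfl)
      ext f
      simp only [Finset.mem_filter]
  · rw [hx.zero _ he, add_zero]
    unfold oth2 oth
    refine Finset.sum_congr ?_ (fun _ _ => rfl)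
    ext f
    rw [GB_mf, GB_mf]
    constructor
    · rintro ⟨h1, h2, h3, -⟩
      exact ⟨h1, h2, h3⟩
    · rintro ⟨h1, h2, h3⟩
      refine ⟨h1, h2, h3, fun h => he ?_⟩
      rw [← h]
      exact h1

theorem oth2_comm (u v b : V) : oth2 G x b u v = oth2 G x b v u := by
  unfold oth2
  refine Finset.sum_congr ?_ (fun _ _ => rfl)
  ext f
  rw [GB_mf, GB_mf]
  tauto

/-- Vertex sum of `b`. -/
theorem ab_le (hx : FG G x) {u v b : V} (huv : u ≠ v) (hb : b ∈ ot u v) :
    x s(u, b) + x s(v, b) ≤ 1 := by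
  have h1 := oth2_eq hx huv hb
  have h2 := oth_le hx b u
  have h3 : 0 ≤ oth2 G x b u v := by
    unfold oth2
    exact Finset.sum_nonneg (fun f _ => hx.nonneg f)
  have h4 : s(u, b) = s(b, u) := Sym2.eq_swap
  have h5 : s(v, b) = s(b, v) := Sym2.eq_swap
  rw [h4, h5]
  linarith

end Pool.Agent.Lib.MP_7470b6_lc.Gen
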