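import Pool.Agent.Lib.MP_7470b6_lc.Gen.GenD
import Pool.Agent.Lib.MP_7470b6_lc.Crs.RU1

/-!
# Job GC: combinatorics
-/

open Finset

namespace Pool.Agent.Lib.MP_7470b6_lc.Gen

open Pool.Agent.Lib.MP_7470b6_lc.Crs

variable {V : Type} [Fintype V] [DecidableEq V] {G : SimpleGraph V} {T : Finset (Idx V)}

private theorem GC_mf {α : Type*} {p : α → Prop} (inst : DecidablePred p) {s : Finset α} {a : α} :
    a ∈ @Finset.filter α p inst s ↔ a ∈ s ∧ p a := Finset.mem_filter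

private theorem GC_edge (hT : T ⊆ gr G) {f : Sym2 V} (hf : Sum.inl f ∈ T) : f ∈ edges G := by
  have h := hT hf
  unfold gr at h
  rwa [Finset.inl_mem_disjSum] at h

private theorem GC_ne (hT : T ⊆ gr G) {u b : V} (hf : Sum.inl s(u, b) ∈ T) : b ≠ u := by
  have h := (mk_mem_edges G u b).1 (GC_edge hT hf)
  exact h.ne'

private theorem GC_mem_ot {u v b : V} : b ∈ ot u v ↔ b ≠ u ∧ b ≠ v := by
  unfold ot
  rw [GC_mf]
  exact ⟨fun h => h.2, fun h => ⟨Finset.mem_univ _, h⟩⟩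

private theorem GC_mem_nb {u v b : V} : b ∈ nb G u v ↔ b ≠ v ∧ s(u, b) ∈ edges G := by
  unfold nb
  rw [GC_mf]
  exact ⟨fun h => h.2, fun h => ⟨Finset.mem_univ _, h⟩⟩

private theorem GC_ot_comm (u v : V) : ot u v = ot v u := by
  ext b
  rw [GC_mem_ot, GC_mem_ot]
  exact and_comm

theorem act_iff (hT : T ⊆ gr G) {u v b : V} (huv : u ≠ v) (hb : b ∈ ot u v) :
    act G T b u ↔ (Sum.inl s(b, u) ∈ T ∧ Sum.inl s(b, v) ∉ T ∧ Sum.inr (b, u) ∈ T ∧
      quiet G T b u v) := by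
  constructor
  · rintro ⟨h1, h2, h3, h4⟩
    refine ⟨h2, ?_, h3, fun f hf hfT hbf => Or.inl (h4 f hf hfT hbf)⟩
    intro hv
    have h5 := h4 s(b, v) (GC_edge hT hv) hv (Sym2.mem_mk_left b v)
    exact huv (Sym2.congr_right.1 h5).symm
  · rintro ⟨h1, h2, h3, h4⟩
    refine ⟨GC_edge hT h1, h1, h3, fun f hf hfT hbf => ?_⟩
    rcases h4 f hf hfT hbf with h5 | h5
    · exact h5
    · rw [h5] at hfT
      exact absurd hfT h2

theorem lf_iff (hT : T ⊆ gr G) {u v : V} (huv : u ≠ v) :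
    lf G T u v ↔ (Sum.inr (u, v) ∈ T ∧ ∀ b ∈ ot u v, Sum.inl s(u, b) ∉ T) := by
  constructor
  · rintro ⟨h1, h2⟩
    refine ⟨h1, fun b hb hbT => ?_⟩
    have h3 := h2 s(u, b) (GC_edge hT hbT) hbT (Sym2.mem_mk_left u b)
    exact (GC_mem_ot.1 hb).2 (Sym2.congr_right.1 h3)
  · rintro ⟨h1, h2⟩
    refine ⟨h1, fun f hf hfT huf => ?_⟩
    obtain ⟨b, rfl⟩ := Sym2.mem_iff_exists.1 huf
    by_cases hb : b = v
    · rw [hb]
    · exact absurd hfT (h2 b (GC_mem_ot.2 ⟨GC_ne hT hfT, hb⟩))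

open Classical in
private theorem GC_prod {α : Type*} (N : Finset α) (p : α → Prop) (s : ℝ) :
    ∏ b ∈ N, (if p b then s else 1) = s ^ (N.filter p).card := by
  rw [Finset.prod_ite, Finset.prod_const, Finset.prod_const_one, mul_one]

open Classical in
private theorem GC_cntK (hT : T ⊆ gr G) (u v : V) :
    cntK G T u v = ((ot u v).filter (fun b => Sum.inl s(u, b) ∈ T)).card := by
  unfold cntK
  apply Finset.card_bij (fun a _ => a)
  · intro a ha
    obtain ⟨h1, h2⟩ := (GC_mf _).1 ha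
    exact (GC_mf _).2 ⟨GC_mem_ot.2 ⟨GC_ne hT h2, (GC_mem_nb.1 h1).1⟩, h2⟩
  · intro a _ b _ h
    exact h
  · intro b hb
    obtain ⟨h1, h2⟩ := (GC_mf _).1 hb
    exact ⟨b, (GC_mf _).2 ⟨GC_mem_nb.2 ⟨(GC_mem_ot.1 h1).2, GC_edge hT h2⟩, h2⟩, rfl⟩

open Classical in
private theorem GC_cntA (hT : T ⊆ gr G) (u v : V) :
    cntA G T u v = ((ot u v).filter (fun b => act G T b u)).card := by
  unfold cntA
  apply Finset.card_bij (fun a _ => a)
  · intro a ha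
    obtain ⟨h1, h2⟩ := (GC_mf _).1 ha
    have h3 : a ≠ u := (GC_ne hT h2.2.1).symm
    exact (GC_mf _).2 ⟨GC_mem_ot.2 ⟨h3, (GC_mem_nb.1 h1).1⟩, h2⟩
  · intro a _ b _ h
    exact h
  · intro b hb
    obtain ⟨h1, h2⟩ := (GC_mf _).1 hb
    have h3 : s(u, b) ∈ edges G := by
      rw [Sym2.eq_swap]
      exact h2.1
    exact ⟨b, (GC_mf _).2 ⟨GC_mem_nb.2 ⟨(GC_mem_ot.1 h1).2, h3⟩, h2⟩, rfl⟩

open Classical in
theorem cntK_pow (hT : T ⊆ gr G) {u v : V} (huv : u ≠ v) (s : ℝ) :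
    s ^ (cntK G T u v + cntK G T v u) =
      ∏ b ∈ ot u v, ((if Sum.inl s(u, b) ∈ T then s else 1) *
        (if Sum.inl s(v, b) ∈ T then s else 1)) := by
  rw [Finset.prod_mul_distrib, pow_add]
  refine congrArg₂ (fun a b : ℝ => a * b) ?_ ?_
  · rw [GC_cntK hT u v]
    refine Eq.trans ?_ (Eq.trans (GC_prod (ot u v) (fun b => Sum.inl s(u, b) ∈ T) s).symm ?_)
    · refine congrArg (fun n : ℕ => s ^ n) (congrArg Finset.card ?_)
      ext b
      rw [GC_mf, GC_mf]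
    · refine Finset.prod_congr rfl (fun b _ => ?_)
      by_cases h : Sum.inl s(u, b) ∈ T
      · rw [if_pos h, if_pos h]
      · rw [if_neg h, if_neg h]
  · rw [GC_cntK hT v u, GC_ot_comm u v]
    refine Eq.trans ?_ (Eq.trans (GC_prod (ot v u) (fun b => Sum.inl s(v, b) ∈ T) s).symm ?_)
    · refine congrArg (fun n : ℕ => s ^ n) (congrArg Finset.card ?_)
      ext b
      rw [GC_mf, GC_mf]
    · refine Finset.prod_congr rfl (fun b _ => ?_)
      by_cases h : Sum.inl s(v, b) ∈ T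
      · rw [if_pos h, if_pos h]
      · rw [if_neg h, if_neg h]

open Classical in
theorem cntA_pow (hT : T ⊆ gr G) {u v : V} (huv : u ≠ v) (s : ℝ) :
    s ^ cntA G T u v = ∏ b ∈ ot u v, (if act G T b u then s else 1) := by
  rw [GC_cntA hT u v]
  exact (GC_prod (ot u v) (fun b => act G T b u) s).symm

private theorem GC_cntA_zero (hT : T ⊆ gr G) (u v : V) :
    cntA G T u v = 0 ↔ ∀ b ∈ ot u v, ¬ act G T b u := by
  classical
  rw [GC_cntA hT u v, Finset.card_eq_zero, Finset.filter_eq_empty_iff]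

theorem cntA_zero (hT : T ⊆ gr G) {u v : V} (huv : u ≠ v) :
    (cntA G T u v = 0 ∧ cntA G T v u = 0) ↔
      ∀ b ∈ ot u v, ¬ act G T b u ∧ ¬ act G T b v := by
  rw [GC_cntA_zero hT u v, GC_cntA_zero hT v u, GC_ot_comm v u]
  exact ⟨fun h b hb => ⟨h.1 b hb, h.2 b hb⟩, fun h => ⟨fun b hb => (h b hb).1, fun b hb => (h b hb).2⟩⟩

theorem quiet_comm {u v b : V} : quiet G T b u v ↔ quiet G T b v u := by
  unfold quiet
  exact ⟨fun h f h1 h2 h3 => (h f h1 h2 h3).symm, fun h f h1 h2 h3 => (h f h1 h2 h3).symm⟩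

end Pool.Agent.Lib.MP_7470b6_lc.Gen
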