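import Pool.Agent.Lib.MP_7470b6_lc.Gen.GU
import Pool.Agent.Lib.MP_7470b6_lc.Gen.GA

/-!
# Job GE1: conditional Harris inequality for the main term
-/

open Finset

namespace Pool.Agent.Lib.MP_7470b6_lc.Gen

open Pool.Agent.Lib.MP_7470b6_lc.Crs

variable {V : Type} [Fintype V] [DecidableEq V] {G : SimpleGraph V} {x : Sym2 V → ℝ}

private theorem GE1_mf {α : Type*} {p : α → Prop} (inst : DecidablePred p) {s : Finset α} {a : α} :
    a ∈ @Finset.filter α p inst s ↔ a ∈ s ∧ p a := Finset.mem_filter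

open Classical in
/-- The edges at `u` or `v`, and the two coins. -/
private noncomputable def GE1_C (G : SimpleGraph V) (u v : V) : Finset (Idx V) :=
  ((edges G).filter (fun f => u ∈ f ∨ v ∈ f)).disjSum ({(u, v), (v, u)} : Finset (V × V))

private noncomputable def GE1_D (G : SimpleGraph V) (u v : V) : Finset (Idx V) :=
  gr G \ GE1_C G u v

open Classical in
private noncomputable def GE1_E (G : SimpleGraph V) (b u v : V) : Finset (Sym2 V) :=
  (edges G).filter (fun f => b ∈ f ∧ f ≠ s(b, u) ∧ f ≠ s(b, v))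

private theorem GE1_mem_E {b u v : V} {f : Sym2 V} :
    f ∈ GE1_E G b u v ↔ f ∈ edges G ∧ b ∈ f ∧ f ≠ s(b, u) ∧ f ≠ s(b, v) := by
  unfold GE1_E
  exact GE1_mf _

private theorem GE1_inl_C {u v : V} {f : Sym2 V} :
    (Sum.inl f : Idx V) ∈ GE1_C G u v ↔ f ∈ edges G ∧ (u ∈ f ∨ v ∈ f) := by
  unfold GE1_C
  rw [Finset.inl_mem_disjSum]
  exact GE1_mf _

private theorem GE1_inr_C {u v : V} {c : V × V} :
    (Sum.inr c : Idx V) ∈ GE1_C G u v ↔ c = (u, v) ∨ c = (v, u) := by
  unfold GE1_C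
  rw [Finset.inr_mem_disjSum, Finset.mem_insert, Finset.mem_singleton]

private theorem GE1_inl_gr {f : Sym2 V} : (Sum.inl f : Idx V) ∈ gr G ↔ f ∈ edges G := by
  unfold gr
  rw [Finset.inl_mem_disjSum]

private theorem GE1_inr_gr {c : V × V} : (Sum.inr c : Idx V) ∈ gr G := by
  unfold gr
  rw [Finset.inr_mem_disjSum]
  exact Finset.mem_univ _

private theorem GE1_inl_blk {b u v : V} {f : Sym2 V} :
    (Sum.inl f : Idx V) ∈ blk2 G b u v ↔ f ∈ GE1_E G b u v := by
  unfold blk2 GE1_E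
  rw [Finset.inl_mem_disjSum]

private theorem GE1_inr_blk {b u v : V} {c : V × V} :
    (Sum.inr c : Idx V) ∈ blk2 G b u v ↔ c = (b, u) ∨ c = (b, v) := by
  unfold blk2
  rw [Finset.inr_mem_disjSum, Finset.mem_insert, Finset.mem_singleton]

private theorem GE1_C_sub {u v : V} : GE1_C G u v ⊆ gr G := by
  intro i hi
  rcases i with f | c
  · exact GE1_inl_gr.2 (GE1_inl_C.1 hi).1
  · exact GE1_inr_gr

private theorem GE1_union {u v : V} : GE1_D G u v ∪ GE1_C G u v = gr G := by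
  unfold GE1_D
  exact Finset.sdiff_union_of_subset GE1_C_sub

private theorem GE1_disj {u v : V} : Disjoint (GE1_D G u v) (GE1_C G u v) := by
  unfold GE1_D
  exact Finset.sdiff_disjoint

private theorem GE1_iff {S S' X : Finset (Idx V)} {i : Idx V} (hS : S ⊆ gr G) (hS' : S' ⊆ gr G)
    (h : S ∩ X = S' ∩ X) (hi : i ∈ gr G → i ∈ X) : i ∈ S ↔ i ∈ S' := by
  constructor
  · intro h1
    have h2 : i ∈ S ∩ X := Finset.mem_inter.2 ⟨h1, hi (hS h1)⟩
    rw [h] at h2
    exact (Finset.mem_inter.1 h2).1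
  · intro h1
    have h2 : i ∈ S' ∩ X := Finset.mem_inter.2 ⟨h1, hi (hS' h1)⟩
    rw [← h] at h2
    exact (Finset.mem_inter.1 h2).1

private theorem GE1_dep {f : Finset (Idx V) → ℝ} {X : Finset (Idx V)}
    (hf : ∀ S S' : Finset (Idx V), S ⊆ gr G → S' ⊆ gr G → S ∩ X = S' ∩ X → f S = f S') :
    DepOn (fun T => f (T ∩ gr G)) X := by
  intro T T' h
  refine hf _ _ Finset.inter_subset_right Finset.inter_subset_right ?_
  rw [Finset.inter_right_comm, h, Finset.inter_right_comm]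

/-- An edge at `b` in the list `E` avoids `u` and `v`. -/
private theorem GE1_avoid {b u v : V} (hbu : b ≠ u) (hbv : b ≠ v) {f : Sym2 V}
    (hf : f ∈ GE1_E G b u v) : u ∉ f ∧ v ∉ f := by
  obtain ⟨_, h2, h3, h4⟩ := GE1_mem_E.1 hf
  constructor
  · intro h
    exact h3 ((Sym2.mem_and_mem_iff hbu).1 ⟨h2, h⟩)
  · intro h
    exact h4 ((Sym2.mem_and_mem_iff hbv).1 ⟨h2, h⟩)

private theorem GE1_blk_sub {b u v : V} (hbu : b ≠ u) (hbv : b ≠ v) :
    blk2 G b u v ⊆ GE1_D G u v := by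
  intro i hi
  unfold GE1_D
  rw [Finset.mem_sdiff]
  rcases i with f | c
  · have hf := GE1_inl_blk.1 hi
    obtain ⟨h1, h2⟩ := GE1_avoid hbu hbv hf
    refine ⟨GE1_inl_gr.2 (GE1_mem_E.1 hf).1, ?_⟩
    intro h
    rcases (GE1_inl_C.1 h).2 with h | h
    · exact h1 h
    · exact h2 h
  · refine ⟨GE1_inr_gr, ?_⟩
    intro h
    have hb : c.1 = b := by
      rcases GE1_inr_blk.1 hi with h | h
      · rw [h]
      · rw [h]
    rcases GE1_inr_C.1 h with h | h
    · rw [h] at hb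
      exact hbu hb.symm
    · rw [h] at hb
      exact hbv hb.symm

/-- `quiet` in terms of the list `E`. -/
private theorem GE1_quiet {T : Finset (Idx V)} {b u v : V} :
    quiet G T b u v ↔ ∀ f ∈ GE1_E G b u v, (Sum.inl f : Idx V) ∉ T := by
  constructor
  · intro h f hf hT
    obtain ⟨h1, h2, h3, h4⟩ := GE1_mem_E.1 hf
    rcases h f h1 hT h2 with h | h
    · exact h3 h
    · exact h4 h
  · intro h f h1 hT h2
    by_contra hcon
    push Not at hcon
    exact h f (GE1_mem_E.2 ⟨h1, h2, hcon.1, hcon.2⟩) hT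

private theorem GE1_psi_01 (b u v : V) (T : Finset (Idx V)) :
    0 ≤ psi G b u v T ∧ psi G b u v T ≤ 1 := by
  unfold psi
  split_ifs
  · exact ⟨le_rfl, zero_le_one⟩
  · exact ⟨zero_le_one, le_rfl⟩

/-- A further edge destroys `quiet`. -/
private theorem GE1_psi_one {b u v : V} {T : Finset (Idx V)} {f : Sym2 V}
    (hf : f ∈ GE1_E G b u v) (hT : (Sum.inl f : Idx V) ∈ T) : psi G b u v T = 1 := by
  have hq : ¬ quiet G T b u v := fun h => GE1_quiet.1 h f hf hT
  unfold psi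
  refine if_neg ?_
  rintro (⟨_, _, _, h⟩ | ⟨_, _, _, h⟩)
  · exact hq h
  · exact hq h

private theorem GE1_case (A B P Q : Prop) [Decidable ((A ∧ ¬B ∧ P) ∨ (B ∧ ¬A ∧ Q))]
    [Decidable (A ∧ ¬B)] [Decidable P] [Decidable (B ∧ ¬A)] [Decidable Q] :
    (if (A ∧ ¬B ∧ P) ∨ (B ∧ ¬A ∧ Q) then (0 : ℝ) else 1) =
      1 - (if A ∧ ¬B then (1 : ℝ) else 0) * (if P then (1 : ℝ) else 0) -
        (if B ∧ ¬A then (1 : ℝ) else 0) * (if Q then (1 : ℝ) else 0) := by
  by_cases hA : A <;> by_cases hB : B <;> by_cases hP : P <;> by_cases hQ : Q <;>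
    simp [hA, hB, hP, hQ]

private theorem GE1_coin {b u v w : V} (hbu : b ≠ u) (hbv : b ≠ v) (hw : w = u ∨ w = v) :
    ev (GE1_D G u v) (prG G x) (fun T => if ({Sum.inr (b, w)} : Finset (Idx V)) ⊆ T ∧
      Disjoint ((GE1_E G b u v).map Function.Embedding.inl) T then (1 : ℝ) else 0) =
      prG G x (Sum.inr (b, w)) * Real.exp (-(oth2 G x b u v)) := by
  have hsub := GE1_blk_sub (G := G) hbu hbv
  rw [ev_pattern]
  · rw [Finset.prod_singleton, Finset.prod_map]
    congr 1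
    unfold oth2
    rw [← Finset.sum_neg_distrib, Real.exp_sum]
    unfold GE1_E
    refine Finset.prod_congr rfl fun f _ => ?_
    show 1 - prG G x (Sum.inl f) = _
    unfold prG
    ring
  · rw [Finset.singleton_subset_iff]
    apply hsub
    rw [GE1_inr_blk]
    rcases hw with rfl | rfl
    · exact Or.inl rfl
    · exact Or.inr rfl
  · intro i hi
    obtain ⟨f, hf, rfl⟩ := Finset.mem_map.1 hi
    exact hsub (GE1_inl_blk.2 hf)
  · rw [Finset.disjoint_singleton_left]
    intro h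
    obtain ⟨f, _, h2⟩ := Finset.mem_map.1 h
    exact absurd h2 (by simp)

private theorem GE1_exp (hx : FG G x) {b u v : V} (hbu : b ≠ u) (hbv : b ≠ v)
    {S : Finset (Idx V)} (hS : S ⊆ GE1_C G u v) :
    ev (GE1_D G u v) (prG G x) (fun T => psi G b u v ((T ∪ S) ∩ gr G)) =
      mf G x b u v (S ∩ gr G) := by
  classical
  have hSgr : S ⊆ gr G := hS.trans GE1_C_sub
  have hSi : S ∩ gr G = S := Finset.inter_eq_left.2 hSgr
  rw [hSi]
  have hC : ∀ w : V, w = u ∨ w = v → ∀ T ⊆ GE1_D G u v,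
      ((Sum.inl s(b, w) : Idx V) ∈ T ∪ S ↔ (Sum.inl s(b, w) : Idx V) ∈ S) := by
    intro w hw T hT
    rw [Finset.mem_union]
    constructor
    · rintro (h | h)
      · exfalso
        have h1 := hT h
        unfold GE1_D at h1
        rw [Finset.mem_sdiff, GE1_inl_gr, GE1_inl_C] at h1
        apply h1.2
        refine ⟨h1.1, ?_⟩
        rcases hw with rfl | rfl
        · exact Or.inl (Sym2.mem_mk_right _ _)
        · exact Or.inr (Sym2.mem_mk_right _ _)
      · exact h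
    · exact Or.inr
  have hcoin : ∀ w : V, ∀ T : Finset (Idx V),
      ((Sum.inr (b, w) : Idx V) ∈ T ∪ S ↔ ({Sum.inr (b, w)} : Finset (Idx V)) ⊆ T) := by
    intro w T
    rw [Finset.singleton_subset_iff, Finset.mem_union]
    constructor
    · rintro (h | h)
      · exact h
      · exfalso
        rcases GE1_inr_C.1 (hS h) with h1 | h1
        · exact hbu (congrArg Prod.fst h1)
        · exact hbv (congrArg Prod.fst h1)
    · exact Or.inl
  have hq : ∀ T : Finset (Idx V), (quiet G (T ∪ S) b u v ↔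
      Disjoint ((GE1_E G b u v).map Function.Embedding.inl) T) := by
    intro T
    rw [GE1_quiet, Finset.disjoint_left]
    constructor
    · intro h i hi hT
      obtain ⟨f, hf, rfl⟩ := Finset.mem_map.1 hi
      exact h f hf (Finset.mem_union_left _ hT)
    · intro h f hf hT
      rcases Finset.mem_union.1 hT with hT | hT
      · exact h (Finset.mem_map.2 ⟨f, hf, rfl⟩) hT
      · obtain ⟨h1, h2⟩ := GE1_avoid hbu hbv hf
        rcases (GE1_inl_C.1 (hS hT)).2 with h3 | h3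
        · exact h1 h3
        · exact h2 h3
  have hform : ∀ T ⊆ GE1_D G u v, psi G b u v ((T ∪ S) ∩ gr G) =
      1 - (if (Sum.inl s(b, u) : Idx V) ∈ S ∧ (Sum.inl s(b, v) : Idx V) ∉ S then (1 : ℝ) else 0) *
        (if ({Sum.inr (b, u)} : Finset (Idx V)) ⊆ T ∧
          Disjoint ((GE1_E G b u v).map Function.Embedding.inl) T then (1 : ℝ) else 0) -
      (if (Sum.inl s(b, v) : Idx V) ∈ S ∧ (Sum.inl s(b, u) : Idx V) ∉ S then (1 : ℝ) else 0) *
        (if ({Sum.inr (b, v)} : Finset (Idx V)) ⊆ T ∧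
          Disjoint ((GE1_E G b u v).map Function.Embedding.inl) T then (1 : ℝ) else 0) := by
    intro T hT
    have hTgr : (T ∪ S) ∩ gr G = T ∪ S := by
      rw [Finset.inter_eq_left, ← GE1_union (G := G) (u := u) (v := v)]
      exact Finset.union_subset_union hT hS
    rw [hTgr]
    unfold psi
    have e1 := hC u (Or.inl rfl) T hT
    have e2 := hC v (Or.inr rfl) T hT
    have e3 := hcoin u T
    have e4 := hcoin v T
    have e5 := hq T
    refine (if_congr (or_congr (and_congr e1 (and_congr (not_congr e2) (and_congr e3 e5)))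
      (and_congr e2 (and_congr (not_congr e1) (and_congr e4 e5)))) rfl rfl).trans ?_
    exact GE1_case _ _ _ _
  rw [ev_congr hform, ev_sub, ev_sub, ev_const_mul, ev_const_mul, ev_const,
    GE1_coin hbu hbv (Or.inl rfl), GE1_coin hbu hbv (Or.inr rfl)]
  unfold mf rho
  rw [oth2_comm v u b]
  split_ifs <;> ring

private theorem GE1_Uf_nonneg {u v : V} {s : ℝ} (hs0 : 0 ≤ s) (T : Finset (Idx V)) :
    0 ≤ Uf s u v T := by
  unfold Uf
  refine mul_nonneg (mul_nonneg ?_ (mul_nonneg ?_ ?_)) (Finset.prod_nonneg fun b _ =>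
    mul_nonneg ?_ ?_)
  · split_ifs
    · exact zero_le_one
    · exact le_rfl
  · split_ifs
    · norm_num
    · norm_num
  · split_ifs
    · norm_num
    · norm_num
  · split_ifs
    · exact hs0
    · exact zero_le_one
  · split_ifs
    · exact hs0
    · exact zero_le_one

/-- Proof: `ev_cond_harris` with `C` the set of the `inl f ∈ gr G` with `u ∈ f` or `v ∈ f` and `inr (u,v)`, `inr (v,u)`,
`D = gr G \ C`, `Bk b = blk2 G b u v`, `m b = mf G x b u v`, `ψ b = psi G b u v`. For `S ⊆ C`, `T ⊆ D` membership of `inl s(b,u)`,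
`inl s(b,v)` in `T ∪ S` is membership in `S`, and `inr (b,u)`, `quiet` are decided by `T`; the expectation over `D` of the
indicator of `inr (b,u) ∈ T ∧ quiet` is `rho G x b u v` (`ev_pattern`). Since `T ∪ S ⊆ gr G` one of the two cases of `psi` at most
occurs. Common elements of `Bk b` and `Bk c` are `inl s(b,c)`, which can only destroy `quiet`.
(`DepOn` and the monotonicity are about all `T`, also not contained in `gr G`; so first replace `Uf`, `psi`, `mf` by the same expressions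
with `s(b,u) ∈ edges G ∧` added to each membership `inl s(b,u) ∈ T`, which agree with them on subsets of `gr G`, `ev_congr`.) -/
theorem main_harris (hx : FG G x) {u v : V} (huv : s(u, v) ∈ edges G) {s : ℝ}
    (hs0 : 0 ≤ s) (hs1 : s ≤ 1) :
    ev (gr G) (prG G x) (fun T => Uf s u v T * ∏ b ∈ ot u v, mf G x b u v T) ≤
      ev (gr G) (prG G x) (fun T => Uf s u v T * ∏ b ∈ ot u v, psi G b u v T) := by
  classical
  have hne : u ≠ v := by
    have h := (mk_mem_edges G u v).1 huv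
    exact h.ne
  have hot : ∀ b ∈ ot u v, b ≠ u ∧ b ≠ v := by
    intro b hb
    unfold ot at hb
    exact (Finset.mem_filter.1 hb).2
  have e1 : ev (gr G) (prG G x) (fun T => Uf s u v T * ∏ b ∈ ot u v, mf G x b u v T) =
      ev (GE1_D G u v ∪ GE1_C G u v) (prG G x) (fun T => Uf s u v (T ∩ gr G) *
        ∏ b ∈ ot u v, mf G x b u v (T ∩ gr G)) := by
    rw [GE1_union]
    refine ev_congr fun T hT => ?_
    rw [Finset.inter_eq_left.2 hT]
  have e2 : ev (gr G) (prG G x) (fun T => Uf s u v T * ∏ b ∈ ot u v, psi G b u v T) =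
      ev (GE1_D G u v ∪ GE1_C G u v) (prG G x) (fun T => Uf s u v (T ∩ gr G) *
        ∏ b ∈ ot u v, psi G b u v (T ∩ gr G)) := by
    rw [GE1_union]
    refine ev_congr fun T hT => ?_
    rw [Finset.inter_eq_left.2 hT]
  rw [e1, e2]
  refine ev_cond_harris (C := GE1_C G u v) (D := GE1_D G u v) GE1_disj ?_
    (U := fun T => Uf s u v (T ∩ gr G)) (fun T => GE1_Uf_nonneg hs0 _) ?_ (ot u v)
    (fun b T => psi G b u v (T ∩ gr G)) (fun b T => mf G x b u v (T ∩ gr G))
    (fun b => blk2 G b u v) (fun b _ T => (GE1_psi_01 b u v _).1) ?_ ?_ ?_ ?_ ?_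
  · rw [GE1_union]
    exact prG_mem hx
  · refine GE1_dep ?_
    intro S S' hS hS' h
    have hu : ∀ w, (Sum.inl s(u, w) : Idx V) ∈ S ↔ (Sum.inl s(u, w) : Idx V) ∈ S' := fun w =>
      GE1_iff hS hS' h fun h1 => GE1_inl_C.2 ⟨GE1_inl_gr.1 h1, Or.inl (Sym2.mem_mk_left _ _)⟩
    have hv : ∀ w, (Sum.inl s(v, w) : Idx V) ∈ S ↔ (Sum.inl s(v, w) : Idx V) ∈ S' := fun w =>
      GE1_iff hS hS' h fun h1 => GE1_inl_C.2 ⟨GE1_inl_gr.1 h1, Or.inr (Sym2.mem_mk_left _ _)⟩
    have hc1 : (Sum.inr (u, v) : Idx V) ∈ S ↔ (Sum.inr (u, v) : Idx V) ∈ S' :=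
      GE1_iff hS hS' h fun _ => GE1_inr_C.2 (Or.inl rfl)
    have hc2 : (Sum.inr (v, u) : Idx V) ∈ S ↔ (Sum.inr (v, u) : Idx V) ∈ S' :=
      GE1_iff hS hS' h fun _ => GE1_inr_C.2 (Or.inr rfl)
    unfold Uf
    refine congrArg₂ (· * ·) (congrArg₂ (· * ·) (if_congr (hu v) rfl rfl)
      (congrArg₂ (· * ·) (congrArg (1 - ·) (if_congr ?_ rfl rfl))
        (congrArg (1 - ·) (if_congr ?_ rfl rfl))))
      (Finset.prod_congr rfl fun b _ => congrArg₂ (· * ·) (if_congr (hu b) rfl rfl)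
        (if_congr (hv b) rfl rfl))
    · exact and_congr hc1 (forall₂_congr fun b _ => not_congr (hu b))
    · exact and_congr hc2 (forall₂_congr fun b _ => not_congr (hv b))
  · intro b hb
    obtain ⟨hbu, hbv⟩ := hot b hb
    refine GE1_dep ?_
    intro S S' hS hS' h
    have hu : (Sum.inl s(b, u) : Idx V) ∈ S ↔ (Sum.inl s(b, u) : Idx V) ∈ S' :=
      GE1_iff hS hS' h fun h1 => Finset.mem_union_left _
        (GE1_inl_C.2 ⟨GE1_inl_gr.1 h1, Or.inl (Sym2.mem_mk_right _ _)⟩)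
    have hv : (Sum.inl s(b, v) : Idx V) ∈ S ↔ (Sum.inl s(b, v) : Idx V) ∈ S' :=
      GE1_iff hS hS' h fun h1 => Finset.mem_union_left _
        (GE1_inl_C.2 ⟨GE1_inl_gr.1 h1, Or.inr (Sym2.mem_mk_right _ _)⟩)
    have hc1 : (Sum.inr (b, u) : Idx V) ∈ S ↔ (Sum.inr (b, u) : Idx V) ∈ S' :=
      GE1_iff hS hS' h fun _ => Finset.mem_union_right _ (GE1_inr_blk.2 (Or.inl rfl))
    have hc2 : (Sum.inr (b, v) : Idx V) ∈ S ↔ (Sum.inr (b, v) : Idx V) ∈ S' :=
      GE1_iff hS hS' h fun _ => Finset.mem_union_right _ (GE1_inr_blk.2 (Or.inr rfl))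
    have hq : quiet G S b u v ↔ quiet G S' b u v := by
      rw [GE1_quiet, GE1_quiet]
      refine forall₂_congr fun f hf => not_congr ?_
      exact GE1_iff hS hS' h fun _ => Finset.mem_union_right _ (GE1_inl_blk.2 hf)
    unfold psi
    exact if_congr (or_congr (and_congr hu (and_congr (not_congr hv) (and_congr hc1 hq)))
      (and_congr hv (and_congr (not_congr hu) (and_congr hc2 hq)))) rfl rfl
  · intro b hb
    obtain ⟨hbu, hbv⟩ := hot b hb
    exact GE1_blk_sub hbu hbv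
  · intro b hb c hc hbc i hi T
    obtain ⟨hbu, hbv⟩ := hot b hb
    obtain ⟨hi1, hi2⟩ := Finset.mem_inter.1 hi
    rcases i with f | p
    · have hf := GE1_inl_blk.1 hi1
      have h1 : psi G b u v ((insert (Sum.inl f) T) ∩ gr G) = 1 := by
        refine GE1_psi_one hf (Finset.mem_inter.2 ⟨Finset.mem_insert_self _ _, ?_⟩)
        exact GE1_inl_gr.2 (GE1_mem_E.1 hf).1
      show psi G b u v (T ∩ gr G) ≤ psi G b u v ((insert (Sum.inl f) T) ∩ gr G)
      rw [h1]
      exact (GE1_psi_01 b u v _).2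
    · exfalso
      have h1 : p.1 = b := by
        rcases GE1_inr_blk.1 hi1 with h | h
        · rw [h]
        · rw [h]
      have h2 : p.1 = c := by
        rcases GE1_inr_blk.1 hi2 with h | h
        · rw [h]
        · rw [h]
      exact hbc (h1.symm.trans h2)
  · intro b hb
    refine GE1_dep ?_
    intro S S' hS hS' h
    have hu : (Sum.inl s(b, u) : Idx V) ∈ S ↔ (Sum.inl s(b, u) : Idx V) ∈ S' :=
      GE1_iff hS hS' h fun h1 =>
        GE1_inl_C.2 ⟨GE1_inl_gr.1 h1, Or.inl (Sym2.mem_mk_right _ _)⟩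
    have hv : (Sum.inl s(b, v) : Idx V) ∈ S ↔ (Sum.inl s(b, v) : Idx V) ∈ S' :=
      GE1_iff hS hS' h fun h1 =>
        GE1_inl_C.2 ⟨GE1_inl_gr.1 h1, Or.inr (Sym2.mem_mk_right _ _)⟩
    unfold mf
    refine congrArg₂ (· - ·) (congrArg (1 - ·) (if_congr ?_ rfl rfl)) (if_congr ?_ rfl rfl)
    · exact and_congr hu (not_congr hv)
    · exact and_congr hv (not_congr hu)
  · intro b hb S hS
    obtain ⟨hbu, hbv⟩ := hot b hb
    exact GE1_exp hx hbu hbv hS

end Pool.Agent.Lib.MP_7470b6_lc.Gen
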