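import Pool.Agent.Lib.MP_7470b6_lc.Gen.GU

/-!
# Job GE2: exact value of the independent main term
-/

open Finset

namespace Pool.Agent.Lib.MP_7470b6_lc.Gen

open Pool.Agent.Lib.MP_7470b6_lc.Crs

variable {V : Type} [Fintype V] [DecidableEq V] {G : SimpleGraph V} {x : Sym2 V → ℝ}

/-- `rho` in terms of `AA`: `kk a * rho = AA a * exp (-(oth - oth2)) ...`, precisely `coin * exp (-oth2) * kk a = AA a * exp b`
with `a = x s(b,u)`, `b = x s(b,v)` (also if `a = 0`, then both sides are `0`). -/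
theorem kk_rho (hx : FG G x) {u v b : V} (huv : u ≠ v) (hb : b ∈ ot u v) :
    kk (x s(b, u)) * rho G x b u v = AA (x s(b, u)) * Real.exp (x s(b, v)) := by
  by_cases h : s(b, u) ∈ edges G ∧ 0 < x s(b, u)
  · obtain ⟨h1, h2⟩ := h
    have hc := coin_oth (x := x) h1 h2
    have ho := oth2_eq hx huv hb
    have hkk : kk (x s(b, u)) ≠ 0 := by
      unfold kk
      have : Real.exp (-(x s(b, u))) < 1 := by
        rw [Real.exp_lt_one_iff]
        linarith
      linarith
    have he : Real.exp (-(oth2 G x b u v)) = Real.exp (-(oth G x b u)) * Real.exp (x s(b, v)) := by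
      rw [← Real.exp_add]
      congr 1
      linarith
    unfold rho
    rw [he]
    calc kk (x s(b, u)) * (prG G x (Sum.inr (b, u)) *
          (Real.exp (-(oth G x b u)) * Real.exp (x s(b, v))))
        = kk (x s(b, u)) * (prG G x (Sum.inr (b, u)) * Real.exp (-(oth G x b u))) *
          Real.exp (x s(b, v)) := by ring
      _ = AA (x s(b, u)) * Real.exp (x s(b, v)) := by
          rw [hc]
          field_simp
  · have h0 : x s(b, u) = 0 := by
      by_cases h1 : s(b, u) ∈ edges G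
      · have h2 : ¬ 0 < x s(b, u) := fun h2 => h ⟨h1, h2⟩
        have := hx.nonneg s(b, u)
        linarith
      · exact hx.zero _ h1
    rw [h0]
    simp [kk, AA]

/-- indicator of the presence of an index -/
private noncomputable def ge2X (i : Idx V) (T : Finset (Idx V)) : ℝ := if i ∈ T then 1 else 0

private lemma ge2_mem {B T T' : Finset (Idx V)} (h : T ∩ B = T' ∩ B) {i : Idx V} (hi : i ∈ B) :
    ge2X i T = ge2X i T' := by
  have h1 : i ∈ T ↔ i ∈ T' := by
    have h2 : i ∈ T ∩ B ↔ i ∈ T' ∩ B := by rw [h]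
    simpa [hi] using h2
  unfold ge2X
  by_cases h3 : i ∈ T
  · rw [if_pos h3, if_pos (h1.mp h3)]
  · rw [if_neg h3, if_neg (fun h4 => h3 (h1.mpr h4))]

private lemma ge2X_dep (i : Idx V) : DepOn (ge2X i) {i} := fun _ _ h =>
  ge2_mem h (Finset.mem_singleton_self i)

private lemma ge2_ev (hx : FG G x) (f : Sym2 V) :
    ev (gr G) (prG G x) (ge2X (Sum.inl f)) = kk (x f) := by
  by_cases hf : f ∈ edges G
  · have h1 : (Sum.inl f : Idx V) ∈ gr G := by
      unfold gr
      exact Finset.inl_mem_disjSum.mpr hf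
    have h2 := ev_mem h1 (prG G x)
    have h3 : (ge2X (Sum.inl f) : Finset (Idx V) → ℝ) =
        fun T => if (Sum.inl f : Idx V) ∈ T then (1 : ℝ) else 0 := rfl
    rw [h3, h2]
    rfl
  · have h1 : ∀ T ⊆ gr G, ge2X (Sum.inl f) T = (fun _ : Finset (Idx V) => (0 : ℝ)) T := by
      intro T hT
      unfold ge2X
      rw [if_neg]
      intro h2
      have h3 := hT h2
      unfold gr at h3
      exact hf (Finset.inl_mem_disjSum.mp h3)
    rw [ev_congr h1, ev_const, hx.zero f hf]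
    simp [kk]

private lemma ge2_ev2 (hx : FG G x) {f g : Sym2 V} (hfg : f ≠ g) :
    ev (gr G) (prG G x) (fun T => ge2X (Sum.inl f) T * ge2X (Sum.inl g) T) =
      kk (x f) * kk (x g) := by
  rw [ev_indep (ge2X_dep _) (ge2X_dep _), ge2_ev hx, ge2_ev hx]
  rw [Finset.disjoint_singleton]
  intro h
  exact hfg (Sum.inl_injective h)

/-- expectation of a bilinear function of two indicators -/
private lemma ge2_bil (hx : FG G x) {f g : Sym2 V} (hfg : f ≠ g) (c0 c1 c2 c3 : ℝ) :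
    ev (gr G) (prG G x) (fun T => c0 + c1 * ge2X (Sum.inl f) T + c2 * ge2X (Sum.inl g) T +
      c3 * (ge2X (Sum.inl f) T * ge2X (Sum.inl g) T)) =
      c0 + c1 * kk (x f) + c2 * kk (x g) + c3 * (kk (x f) * kk (x g)) := by
  rw [ev_add, ev_add, ev_add, ev_const, ev_const_mul, ev_const_mul, ev_const_mul,
    ge2_ev2 hx hfg, ge2_ev hx, ge2_ev hx]

private lemma ge2X_sq (i : Idx V) (T : Finset (Idx V)) : ge2X i T * ge2X i T = ge2X i T := by
  unfold ge2X
  split_ifs <;> norm_num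

private noncomputable def ge2H (s : ℝ) (G : SimpleGraph V) (x : Sym2 V → ℝ) (u v b : V)
    (T : Finset (Idx V)) : ℝ :=
  (1 + (s - 1) * ge2X (Sum.inl s(u, b)) T) * (1 + (s - 1) * ge2X (Sum.inl s(v, b)) T) -
    s * rho G x b u v * (ge2X (Sum.inl s(u, b)) T * (1 - ge2X (Sum.inl s(v, b)) T)) -
    s * rho G x b v u * (ge2X (Sum.inl s(v, b)) T * (1 - ge2X (Sum.inl s(u, b)) T))

private lemma ge2_ne {u v b : V} (huv : u ≠ v) (hb : b ∈ ot u v) :
    (s(u, b) : Sym2 V) ≠ s(v, b) := by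
  unfold ot at hb
  rw [Finset.mem_filter] at hb
  intro h
  rw [Sym2.eq_iff] at h
  rcases h with ⟨h, _⟩ | ⟨h, _⟩
  · exact huv h
  · exact hb.2.1 h.symm

private lemma ge2_exp (t : ℝ) : 1 - kk t = Real.exp (-t) := by unfold kk; ring

private lemma ge2_r1 (hx : FG G x) {u v b : V} (huv : u ≠ v) (hb : b ∈ ot u v) :
    kk (x s(u, b)) * rho G x b u v = AA (x s(u, b)) * Real.exp (x s(v, b)) := by
  have h := kk_rho hx huv hb
  rw [show (s(b, u) : Sym2 V) = s(u, b) from Sym2.eq_swap,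
    show (s(b, v) : Sym2 V) = s(v, b) from Sym2.eq_swap] at h
  exact h

private lemma ge2_r2 (hx : FG G x) {u v b : V} (huv : u ≠ v) (hb : b ∈ ot u v) :
    kk (x s(v, b)) * rho G x b v u = AA (x s(v, b)) * Real.exp (x s(u, b)) :=
  ge2_r1 hx huv.symm (by rw [ot_comm]; exact hb)

private lemma ge2_e1 (hx : FG G x) {u v b : V} (huv : u ≠ v) (hb : b ∈ ot u v) (s : ℝ) :
    ev (gr G) (prG G x) (ge2H s G x u v b) = gf s (x s(u, b)) (x s(v, b)) := by
  have hne := ge2_ne huv hb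
  have h1 : (ge2H s G x u v b) = fun T => 1 +
      ((s - 1) - s * rho G x b u v) * ge2X (Sum.inl s(u, b)) T +
      ((s - 1) - s * rho G x b v u) * ge2X (Sum.inl s(v, b)) T +
      ((s - 1) * (s - 1) + s * rho G x b u v + s * rho G x b v u) *
        (ge2X (Sum.inl s(u, b)) T * ge2X (Sum.inl s(v, b)) T) := by
    funext T
    unfold ge2H
    ring
  rw [h1, ge2_bil hx hne]
  have r1 := ge2_r1 hx huv hb
  have r2 := ge2_r2 hx huv hb
  have e1 : Real.exp (x s(v, b)) * (1 - kk (x s(v, b))) = 1 := by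
    rw [ge2_exp, ← Real.exp_add]
    simp
  have e2 : Real.exp (x s(u, b)) * (1 - kk (x s(u, b))) = 1 := by
    rw [ge2_exp, ← Real.exp_add]
    simp
  unfold gf
  linear_combination (-s * (1 - kk (x s(v, b)))) * r1 + (-s * (1 - kk (x s(u, b)))) * r2 -
    s * AA (x s(u, b)) * e1 - s * AA (x s(v, b)) * e2

private lemma ge2_e2 (hx : FG G x) {u v b : V} (huv : u ≠ v) (hb : b ∈ ot u v) (s : ℝ) :
    ev (gr G) (prG G x) (fun T => (1 - ge2X (Sum.inl s(u, b)) T) * ge2H s G x u v b T) =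
      Real.exp (-(x s(u, b))) * qf s (x s(v, b)) (x s(u, b)) := by
  have hne := ge2_ne huv hb
  have h1 : (fun T => (1 - ge2X (Sum.inl s(u, b)) T) * ge2H s G x u v b T) = fun T => 1 +
      (-1) * ge2X (Sum.inl s(u, b)) T +
      ((s - 1) - s * rho G x b v u) * ge2X (Sum.inl s(v, b)) T +
      (-((s - 1) - s * rho G x b v u)) *
        (ge2X (Sum.inl s(u, b)) T * ge2X (Sum.inl s(v, b)) T) := by
    funext T
    unfold ge2H
    have h2 := ge2X_sq (Sum.inl s(u, b)) T
    linear_combination (-(s - 1) * (1 + (s - 1) * ge2X (Sum.inl s(v, b)) T) +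
      s * rho G x b u v * (1 - ge2X (Sum.inl s(v, b)) T) -
      s * rho G x b v u * ge2X (Sum.inl s(v, b)) T) * h2
  rw [h1, ge2_bil hx hne]
  have r2 := ge2_r2 hx huv hb
  rw [← ge2_exp (x s(u, b))]
  unfold qf pf
  linear_combination (-s * (1 - kk (x s(u, b)))) * r2

private lemma ge2_e3 (hx : FG G x) {u v b : V} (huv : u ≠ v) (hb : b ∈ ot u v) (s : ℝ) :
    ev (gr G) (prG G x) (fun T => (1 - ge2X (Sum.inl s(v, b)) T) * ge2H s G x u v b T) =
      Real.exp (-(x s(v, b))) * qf s (x s(u, b)) (x s(v, b)) := by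
  have h := ge2_e2 hx huv.symm (show b ∈ ot v u by rw [ot_comm]; exact hb) s
  rw [← h]
  congr 1
  funext T
  unfold ge2H
  ring

private lemma ge2_e4 (hx : FG G x) {u v b : V} (huv : u ≠ v) (hb : b ∈ ot u v) (s : ℝ) :
    ev (gr G) (prG G x) (fun T => (1 - ge2X (Sum.inl s(u, b)) T) *
      ((1 - ge2X (Sum.inl s(v, b)) T) * ge2H s G x u v b T)) =
      Real.exp (-(x s(u, b))) * Real.exp (-(x s(v, b))) := by
  have hne := ge2_ne huv hb
  have h1 : (fun T => (1 - ge2X (Sum.inl s(u, b)) T) *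
      ((1 - ge2X (Sum.inl s(v, b)) T) * ge2H s G x u v b T)) = fun T => 1 +
      (-1) * ge2X (Sum.inl s(u, b)) T + (-1) * ge2X (Sum.inl s(v, b)) T +
      1 * (ge2X (Sum.inl s(u, b)) T * ge2X (Sum.inl s(v, b)) T) := by
    funext T
    unfold ge2H ge2X
    split_ifs <;> ring
  rw [h1, ge2_bil hx hne, ← ge2_exp, ← ge2_exp]
  ring

private def ge2B (u v b : V) : Finset (Idx V) := {Sum.inl s(u, b), Sum.inl s(v, b)}

private lemma ge2_depH (s : ℝ) (u v b : V) : DepOn (ge2H s G x u v b) (ge2B u v b) := by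
  intro T T' h
  have h1 : ge2X (Sum.inl s(u, b)) T = ge2X (Sum.inl s(u, b)) T' :=
    ge2_mem h (by unfold ge2B; simp)
  have h2 : ge2X (Sum.inl s(v, b)) T = ge2X (Sum.inl s(v, b)) T' :=
    ge2_mem h (by unfold ge2B; simp)
  unfold ge2H
  rw [h1, h2]

private lemma ge2_depU (u v b : V) :
    DepOn (fun T => 1 - ge2X (Sum.inl s(u, b)) T) (ge2B u v b) := by
  intro T T' h
  have h1 : ge2X (Sum.inl s(u, b)) T = ge2X (Sum.inl s(u, b)) T' :=
    ge2_mem h (by unfold ge2B; simp)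
  simp only
  rw [h1]

private lemma ge2_depV (u v b : V) :
    DepOn (fun T => 1 - ge2X (Sum.inl s(v, b)) T) (ge2B u v b) := by
  intro T T' h
  have h1 : ge2X (Sum.inl s(v, b)) T = ge2X (Sum.inl s(v, b)) T' :=
    ge2_mem h (by unfold ge2B; simp)
  simp only
  rw [h1]

private lemma ge2_dis {u v : V} (_huv : u ≠ v) : ∀ b ∈ ot u v, ∀ c ∈ ot u v, b ≠ c →
    Disjoint (ge2B u v b) (ge2B u v c) := by
  intro b hb c hc hbc
  unfold ot at hb hc
  rw [Finset.mem_filter] at hb hc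
  have hbu := hb.2.1
  have hbv := hb.2.2
  have hcu := hc.2.1
  have hcv := hc.2.2
  rw [Finset.disjoint_left]
  intro i hi hj
  unfold ge2B at hi hj
  simp only [Finset.mem_insert, Finset.mem_singleton] at hi hj
  rcases hi with rfl | rfl <;> rcases hj with h | h <;>
    (have h' := Sum.inl_injective h; rw [Sym2.eq_iff] at h'; grind)

private def ge2C (u v : V) : Finset (Idx V) :=
  {Sum.inl s(u, v), Sum.inr (u, v), Sum.inr (v, u)}

private lemma ge2_disC {u v : V} (huv : u ≠ v) : Disjoint (ge2C u v)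
    ((ot u v).biUnion (ge2B u v)) := by
  rw [Finset.disjoint_biUnion_right]
  intro b hb
  unfold ot at hb
  rw [Finset.mem_filter] at hb
  have hbu := hb.2.1
  have hbv := hb.2.2
  rw [Finset.disjoint_left]
  intro i hi hj
  unfold ge2C at hi
  unfold ge2B at hj
  simp only [Finset.mem_insert, Finset.mem_singleton] at hi hj
  rcases hi with rfl | rfl | rfl
  · rcases hj with h | h <;>
      (have h' := Sum.inl_injective h; rw [Sym2.eq_iff] at h'; grind)
  · rcases hj with h | h <;> simp at h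
  · rcases hj with h | h <;> simp at h

private lemma ge2_split {u v : V} (huv : u ≠ v) (c : Finset (Idx V) → ℝ)
    (hc : DepOn c (ge2C u v)) (φ : V → Finset (Idx V) → ℝ)
    (hφ : ∀ b ∈ ot u v, DepOn (φ b) (ge2B u v b)) :
    ev (gr G) (prG G x) (fun T => c T * ∏ b ∈ ot u v, φ b T) =
      ev (gr G) (prG G x) c * ∏ b ∈ ot u v, ev (gr G) (prG G x) (φ b) := by
  rw [← ev_prod (ot u v) φ (ge2B u v) hφ (ge2_dis huv)]
  refine ev_indep hc ?_ (ge2_disC huv)
  intro T T' h
  refine Finset.prod_congr rfl fun b hb => ?_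
  refine hφ b hb T T' ?_
  ext i
  have hi := congrArg (fun S : Finset (Idx V) => i ∈ S) h
  simp only [Finset.mem_inter, Finset.mem_biUnion, eq_iff_iff] at hi
  simp only [Finset.mem_inter]
  constructor
  · rintro ⟨h1, h2⟩
    exact ⟨(hi.1 ⟨h1, b, hb, h2⟩).1, h2⟩
  · rintro ⟨h1, h2⟩
    exact ⟨(hi.2 ⟨h1, b, hb, h2⟩).1, h2⟩

private lemma ge2_ind (P : Prop) [Decidable P] (N : Finset V) (i : V → Idx V)
    (T : Finset (Idx V)) [Decidable (P ∧ ∀ b ∈ N, i b ∉ T)] :
    (if P ∧ ∀ b ∈ N, i b ∉ T then (1 : ℝ) else 0) =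
      (if P then 1 else 0) * ∏ b ∈ N, (1 - ge2X (i b) T) := by
  by_cases h : ∀ b ∈ N, i b ∉ T
  · have h1 : ∏ b ∈ N, (1 - ge2X (i b) T) = 1 := by
      apply Finset.prod_eq_one
      intro b hb
      unfold ge2X
      rw [if_neg (h b hb)]
      ring
    rw [h1, mul_one]
    by_cases hP : P
    · rw [if_pos ⟨hP, h⟩, if_pos hP]
    · rw [if_neg (fun h2 => hP h2.1), if_neg hP]
  · rw [if_neg (fun h2 => h h2.2)]
    push Not at h
    obtain ⟨b, hb, hbT⟩ := h
    rw [Finset.prod_eq_zero hb, mul_zero]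
    unfold ge2X
    rw [if_pos hbT]
    ring

private lemma ge2_point (s : ℝ) (u v : V) (T : Finset (Idx V)) :
    Uf s u v T * ∏ b ∈ ot u v, mf G x b u v T =
      ge2X (Sum.inl s(u, v)) T * ∏ b ∈ ot u v, ge2H s G x u v b T
      - (ge2X (Sum.inl s(u, v)) T * ge2X (Sum.inr (u, v)) T) *
        ∏ b ∈ ot u v, ((1 - ge2X (Sum.inl s(u, b)) T) * ge2H s G x u v b T)
      - (ge2X (Sum.inl s(u, v)) T * ge2X (Sum.inr (v, u)) T) *
        ∏ b ∈ ot u v, ((1 - ge2X (Sum.inl s(v, b)) T) * ge2H s G x u v b T)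
      + (ge2X (Sum.inl s(u, v)) T * (ge2X (Sum.inr (u, v)) T * ge2X (Sum.inr (v, u)) T)) *
        ∏ b ∈ ot u v, ((1 - ge2X (Sum.inl s(u, b)) T) *
          ((1 - ge2X (Sum.inl s(v, b)) T) * ge2H s G x u v b T)) := by
  have hH : (∏ b ∈ ot u v, ((if Sum.inl s(u, b) ∈ T then s else 1) *
      (if Sum.inl s(v, b) ∈ T then s else 1))) * ∏ b ∈ ot u v, mf G x b u v T =
      ∏ b ∈ ot u v, ge2H s G x u v b T := by
    rw [← Finset.prod_mul_distrib]
    apply Finset.prod_congr rfl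
    intro b _
    have e1 : (s(b, u) : Sym2 V) = s(u, b) := Sym2.eq_swap
    have e2 : (s(b, v) : Sym2 V) = s(v, b) := Sym2.eq_swap
    unfold mf ge2H ge2X
    rw [e1, e2]
    by_cases h1 : (Sum.inl s(u, b) : Idx V) ∈ T <;>
      by_cases h2 : (Sum.inl s(v, b) : Idx V) ∈ T <;> simp [h1, h2] <;> ring
  have hU : Uf s u v T = ge2X (Sum.inl s(u, v)) T *
      ((1 - ge2X (Sum.inr (u, v)) T * ∏ b ∈ ot u v, (1 - ge2X (Sum.inl s(u, b)) T)) *
      (1 - ge2X (Sum.inr (v, u)) T * ∏ b ∈ ot u v, (1 - ge2X (Sum.inl s(v, b)) T))) *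
      ∏ b ∈ ot u v, ((if Sum.inl s(u, b) ∈ T then s else 1) *
        (if Sum.inl s(v, b) ∈ T then s else 1)) := by
    unfold Uf
    have h1 := ge2_ind ((Sum.inr (u, v) : Idx V) ∈ T) (ot u v) (fun b => Sum.inl s(u, b)) T
    have h2 := ge2_ind ((Sum.inr (v, u) : Idx V) ∈ T) (ot u v) (fun b => Sum.inl s(v, b)) T
    unfold ge2X at h1 h2 ⊢
    congr 1
    congr 1
    congr 1
    · congr 1
    · congr 1
  rw [hU, mul_assoc, hH]
  rw [Finset.prod_mul_distrib, Finset.prod_mul_distrib, Finset.prod_mul_distrib,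
    Finset.prod_mul_distrib]
  ring

/-- Proof: with `h b = (s^{X_ub} s^{X_vb}) mf b` (a function of the membership of `inl s(u,b)`, `inl s(v,b)`, disjoint pairs for
different `b`) the function is
`1_e (∏ h - c_uv ∏ (1 - X_ub) h - c_vu ∏ (1 - X_vb) h + c_uv c_vu ∏ (1 - X_ub) (1 - X_vb) h)`
with the indicators `c_uv`, `c_vu` of the coins. By `ev_indep`, `ev_prod` and
`ev h = gf s a b`, `ev ((1 - X_ub) h) = exp (-a) qf s b a`, `ev ((1 - X_vb) h) = exp (-b) qf s a b`,
`ev ((1 - X_ub) (1 - X_vb) h) = exp (-a) exp (-b)` (`a = x s(u,b)`, `b = x s(v,b)`), `∏ exp (-a) = exp (-oth G x u v)` (`sum_ot`), `coin_oth`.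
(`DepOn` is about all `T`, also not contained in `gr G`: take as block of `b` the pair `{inl s(u,b), inl s(v,b)}`, whether edges or not; for
non-edges `f` we have `inl f ∉ gr G`, so `inl f ∉ T` for `T ⊆ gr G`, and `x f = 0`.) -/
theorem main_value (hx : FG G x) {u v : V} (huv : s(u, v) ∈ edges G) (hxe : 0 < x s(u, v))
    (s : ℝ) :
    ev (gr G) (prG G x) (fun T => Uf s u v T * ∏ b ∈ ot u v, mf G x b u v T) =
      kk (x s(u, v)) * (∏ b ∈ ot u v, gf s (x s(u, b)) (x s(v, b)) -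
        AA (x s(u, v)) / kk (x s(u, v)) * ∏ b ∈ ot u v, qf s (x s(v, b)) (x s(u, b)) -
        AA (x s(u, v)) / kk (x s(u, v)) * ∏ b ∈ ot u v, qf s (x s(u, b)) (x s(v, b)) +
        (AA (x s(u, v)) / kk (x s(u, v))) ^ 2) := by
  have hne : u ≠ v := by
    rintro rfl
    simp [edges] at huv
  have hswap : (s(v, u) : Sym2 V) = s(u, v) := Sym2.eq_swap
  have huv' : s(v, u) ∈ edges G := by rw [hswap]; exact huv
  have hxe' : 0 < x s(v, u) := by rw [hswap]; exact hxe
  have hcoin1 := coin_oth huv hxe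
  have hcoin2 := coin_oth huv' hxe'
  rw [hswap] at hcoin2
  have hs1 := sum_ot hx hne
  have hs2 := sum_ot hx hne.symm
  rw [ot_comm] at hs2
  have hp1 : ∏ b ∈ ot u v, Real.exp (-(x s(u, b))) = Real.exp (-(oth G x u v)) := by
    rw [← Real.exp_sum, Finset.sum_neg_distrib, hs1]
  have hp2 : ∏ b ∈ ot u v, Real.exp (-(x s(v, b))) = Real.exp (-(oth G x v u)) := by
    rw [← Real.exp_sum, Finset.sum_neg_distrib, hs2]
  have hinr : ∀ a : V × V, (Sum.inr a : Idx V) ∈ gr G := by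
    intro a
    unfold gr
    exact Finset.inr_mem_disjSum.mpr (Finset.mem_univ _)
  have hevr : ∀ a : V × V, ev (gr G) (prG G x) (ge2X (Sum.inr a)) = prG G x (Sum.inr a) :=
    fun a => ev_mem (hinr a) (prG G x)
  have hvu : ((v, u) : V × V) ≠ (u, v) := by
    intro h
    exact hne (Prod.ext_iff.mp h).2
  have c1 : ev (gr G) (prG G x) (fun T => ge2X (Sum.inl s(u, v)) T * ge2X (Sum.inr (u, v)) T) =
      kk (x s(u, v)) * prG G x (Sum.inr (u, v)) := by
    rw [ev_indep (ge2X_dep _) (ge2X_dep _) (by simp), ge2_ev hx, hevr]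
  have c2 : ev (gr G) (prG G x) (fun T => ge2X (Sum.inl s(u, v)) T * ge2X (Sum.inr (v, u)) T) =
      kk (x s(u, v)) * prG G x (Sum.inr (v, u)) := by
    rw [ev_indep (ge2X_dep _) (ge2X_dep _) (by simp), ge2_ev hx, hevr]
  have d3 : DepOn (fun T : Finset (Idx V) => ge2X (Sum.inr (u, v)) T * ge2X (Sum.inr (v, u)) T)
      {Sum.inr (u, v), Sum.inr (v, u)} := by
    intro T T' h
    have h1 := ge2_mem h (i := Sum.inr (u, v)) (by simp)
    have h2 := ge2_mem h (i := Sum.inr (v, u)) (by simp)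
    simp only
    rw [h1, h2]
  have c3 : ev (gr G) (prG G x) (fun T => ge2X (Sum.inl s(u, v)) T *
      (ge2X (Sum.inr (u, v)) T * ge2X (Sum.inr (v, u)) T)) =
      kk (x s(u, v)) * (prG G x (Sum.inr (u, v)) * prG G x (Sum.inr (v, u))) := by
    rw [ev_indep (ge2X_dep _) d3 (by simp), ge2_ev hx,
      ev_indep (ge2X_dep _) (ge2X_dep _) (by
        rw [Finset.disjoint_singleton]
        intro h
        exact hvu (Sum.inr_injective h).symm), hevr, hevr]
  have dep0 : DepOn (ge2X (Sum.inl s(u, v))) (ge2C u v) :=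
    (ge2X_dep _).mono (by unfold ge2C; simp)
  have dep1 : DepOn (fun T => ge2X (Sum.inl s(u, v)) T * ge2X (Sum.inr (u, v)) T)
      (ge2C u v) := depOn_mul dep0 ((ge2X_dep _).mono (by unfold ge2C; simp))
  have dep2 : DepOn (fun T => ge2X (Sum.inl s(u, v)) T * ge2X (Sum.inr (v, u)) T)
      (ge2C u v) := depOn_mul dep0 ((ge2X_dep _).mono (by unfold ge2C; simp))
  have dep3 : DepOn (fun T => ge2X (Sum.inl s(u, v)) T *
      (ge2X (Sum.inr (u, v)) T * ge2X (Sum.inr (v, u)) T)) (ge2C u v) :=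
    depOn_mul dep0 (d3.mono (by unfold ge2C; intro i hi; simp at hi ⊢; tauto))
  rw [ev_congr (fun T _ => ge2_point (G := G) (x := x) s u v T), ev_add, ev_sub, ev_sub,
    ge2_split hne _ dep0 _ (fun b _ => ge2_depH s u v b),
    ge2_split hne _ dep1 _ (fun b _ => depOn_mul (ge2_depU u v b) (ge2_depH s u v b)),
    ge2_split hne _ dep2 _ (fun b _ => depOn_mul (ge2_depV u v b) (ge2_depH s u v b)),
    ge2_split hne _ dep3 _ (fun b _ => depOn_mul (ge2_depU u v b)
      (depOn_mul (ge2_depV u v b) (ge2_depH s u v b)))]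
  rw [Finset.prod_congr rfl (fun b hb => ge2_e1 hx hne hb s),
    Finset.prod_congr rfl (fun b hb => ge2_e2 hx hne hb s),
    Finset.prod_congr rfl (fun b hb => ge2_e3 hx hne hb s),
    Finset.prod_congr rfl (fun b hb => ge2_e4 hx hne hb s)]
  rw [Finset.prod_mul_distrib, Finset.prod_mul_distrib, Finset.prod_mul_distrib, hp1, hp2,
    c1, c2, c3, ge2_ev hx, ← hcoin1]
  have hcoin : prG G x (Sum.inr (v, u)) * Real.exp (-(oth G x v u)) =
      prG G x (Sum.inr (u, v)) * Real.exp (-(oth G x u v)) := by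
    rw [hcoin1, hcoin2]
  linear_combination (-(kk (x s(u, v))) * ∏ b ∈ ot u v, qf s (x s(u, b)) (x s(v, b)) +
    kk (x s(u, v)) * (prG G x (Sum.inr (u, v)) * Real.exp (-(oth G x u v)))) * hcoin

end Pool.Agent.Lib.MP_7470b6_lc.Gen
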