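import Pool.Agent.Lib.MP_7470b6_lc.Gen.GP
import Pool.Agent.Lib.MP_7470b6_lc.Gen.GA
import Pool.Agent.Lib.MP_7470b6_lc.Crs.SD1

/-!
# Job GL: the leaf term
-/

open Finset

namespace Pool.Agent.Lib.MP_7470b6_lc.Gen

open Pool.Agent.Lib.MP_7470b6_lc.Crs

variable {V : Type} [Fintype V] [DecidableEq V] {G : SimpleGraph V} {x : Sym2 V → ℝ}

/-- The event that `b` is an active leaf at `u` (when no edge at `v` is present). -/
private def GLev (G : SimpleGraph V) (u v b : V) (T : Finset (Idx V)) : Prop :=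
  Sum.inl s(b, u) ∈ T ∧ Sum.inr (b, u) ∈ T ∧ quiet G T b u v

open Classical in
private noncomputable def GLphi (G : SimpleGraph V) (s : ℝ) (u v b : V) (T : Finset (Idx V)) : ℝ :=
  1 - (1 - s) * (if GLev G u v b T then (1 : ℝ) else 0)

open Classical in
private noncomputable def GLB (G : SimpleGraph V) (u v b : V) : Finset (Idx V) :=
  insert (Sum.inl s(b, u)) (blk2 G b u v)

private theorem GL_mem_blk2_inl {b u v : V} {f : Sym2 V} :
    Sum.inl f ∈ blk2 G b u v ↔ f ∈ edges G ∧ b ∈ f ∧ f ≠ s(b, u) ∧ f ≠ s(b, v) := by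
  classical
  unfold blk2
  rw [Finset.inl_mem_disjSum, Finset.mem_filter]

private theorem GL_mem_blk2_inr {b u v : V} {p : V × V} :
    Sum.inr p ∈ blk2 G b u v ↔ p = (b, u) ∨ p = (b, v) := by
  classical
  unfold blk2
  rw [Finset.inr_mem_disjSum, Finset.mem_insert, Finset.mem_singleton]

private theorem GL_mem_B_inl {b u v : V} {f : Sym2 V} :
    Sum.inl f ∈ GLB G u v b ↔
      f = s(b, u) ∨ (f ∈ edges G ∧ b ∈ f ∧ f ≠ s(b, u) ∧ f ≠ s(b, v)) := by
  classical
  unfold GLB
  rw [Finset.mem_insert, GL_mem_blk2_inl]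
  constructor
  · rintro (h | h)
    · exact Or.inl (Sum.inl_injective h)
    · exact Or.inr h
  · rintro (h | h)
    · exact Or.inl (by rw [h])
    · exact Or.inr h

private theorem GL_mem_B_inr {b u v : V} {p : V × V} :
    Sum.inr p ∈ GLB G u v b ↔ p = (b, u) ∨ p = (b, v) := by
  classical
  unfold GLB
  rw [Finset.mem_insert, GL_mem_blk2_inr]
  constructor
  · rintro (h | h)
    · exact absurd h (by simp)
    · exact h
  · intro h
    exact Or.inr h

private theorem GL_dep (s : ℝ) (u v b : V) : DepOn (GLphi G s u v b) (GLB G u v b) := by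
  classical
  intro T T' h
  have hmem : ∀ i ∈ GLB G u v b, (i ∈ T ↔ i ∈ T') := by
    intro i hi
    have hx := congrArg (fun S : Finset (Idx V) => i ∈ S) h
    simp only [Finset.mem_inter, hi, and_true, eq_iff_iff] at hx
    exact hx
  have hiff : GLev G u v b T ↔ GLev G u v b T' := by
    unfold GLev quiet
    have h1 : Sum.inl s(b, u) ∈ T ↔ Sum.inl s(b, u) ∈ T' :=
      hmem _ (GL_mem_B_inl.2 (Or.inl rfl))
    have h2 : Sum.inr (b, u) ∈ T ↔ Sum.inr (b, u) ∈ T' :=
      hmem _ (GL_mem_B_inr.2 (Or.inl rfl))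
    have h3 : ∀ f ∈ edges G, b ∈ f → f ≠ s(b, u) → f ≠ s(b, v) →
        (Sum.inl f ∈ T ↔ Sum.inl f ∈ T') := fun f hf hb h4 h5 =>
      hmem _ (GL_mem_B_inl.2 (Or.inr ⟨hf, hb, h4, h5⟩))
    rw [h1, h2]
    refine and_congr_right fun _ => and_congr_right fun _ => ?_
    constructor
    · intro h4 f hf hT hb
      by_contra hne
      rw [not_or] at hne
      rcases h4 f hf ((h3 f hf hb hne.1 hne.2).2 hT) hb with h5 | h5
      · exact hne.1 h5
      · exact hne.2 h5
    · intro h4 f hf hT hb
      by_contra hne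
      rw [not_or] at hne
      rcases h4 f hf ((h3 f hf hb hne.1 hne.2).1 hT) hb with h5 | h5
      · exact hne.1 h5
      · exact hne.2 h5
  unfold GLphi
  simp only [hiff]

private theorem GL_ot {u v b : V} (hb : b ∈ ot u v) : b ≠ u ∧ b ≠ v := by
  unfold ot at hb
  rw [Finset.mem_filter] at hb
  exact hb.2

private theorem GL_mono {s : ℝ} (hs1 : s ≤ 1) {u v b c : V} (hb : b ∈ ot u v) (hc : c ∈ ot u v)
    (hbc : b ≠ c) (i : Idx V) (hi : i ∈ GLB G u v b ∩ GLB G u v c) (T : Finset (Idx V)) :
    GLphi G s u v b T ≤ GLphi G s u v b (insert i T) := by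
  classical
  obtain ⟨hbu, hbv⟩ := GL_ot hb
  obtain ⟨hcu, hcv⟩ := GL_ot hc
  rw [Finset.mem_inter] at hi
  obtain ⟨hi1, hi2⟩ := hi
  rcases i with f | p
  · rw [GL_mem_B_inl] at hi1 hi2
    have key : f ∈ edges G ∧ b ∈ f ∧ f ≠ s(b, u) ∧ f ≠ s(b, v) := by
      rcases hi1 with h1 | h1
      · exfalso
        rcases hi2 with h2 | h2
        · rw [h1] at h2
          rcases Sym2.eq_iff.1 h2 with h3 | h3
          · exact hbc h3.1
          · exact hbu h3.1
        · have h3 := h2.2.1
          rw [h1, Sym2.mem_iff] at h3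
          rcases h3 with h3 | h3
          · exact hbc h3.symm
          · exact hcu h3
      · exact h1
    have hno : ¬ GLev G u v b (insert (Sum.inl f) T) := by
      rintro ⟨-, -, hq⟩
      rcases hq f key.1 (Finset.mem_insert_self _ _) key.2.1 with h | h
      · exact key.2.2.1 h
      · exact key.2.2.2 h
    unfold GLphi
    rw [if_neg hno]
    split_ifs <;> linarith
  · exfalso
    rw [GL_mem_B_inr] at hi1 hi2
    have h1 : p.1 = b := by rcases hi1 with h | h <;> rw [h]
    have h2 : p.1 = c := by rcases hi2 with h | h <;> rw [h]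
    exact hbc (h1.symm.trans h2)

private theorem GL_ev (hx : FG G x) {u v b : V} (huv : u ≠ v) (hb : b ∈ ot u v) (s : ℝ) :
    ev (gr G) (prG G x) (GLphi G s u v b) = pf (1 - s) (x s(u, b)) (x s(v, b)) := by
  classical
  have h1 := ev_sub (gr G) (prG G x) (fun _ => (1 : ℝ))
    (fun T => (1 - s) * (if GLev G u v b T then (1 : ℝ) else 0))
  have h2 := ev_const_mul (gr G) (prG G x) (1 - s)
    (fun T => (if GLev G u v b T then (1 : ℝ) else 0))
  have h3 : ev (gr G) (prG G x) (fun T => (if GLev G u v b T then (1 : ℝ) else 0)) =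
      AA (x s(u, b)) * Real.exp (x s(v, b)) := by
    rw [← ev_semi hx huv hb]
    refine ev_congr fun T _ => ?_
    unfold GLev
    split_ifs <;> rfl
  rw [ev_const, h2, h3] at h1
  unfold pf
  rw [← h1]
  rfl

open Classical in
/-- Proof: for `T ⊆ gr G` with `lf G T v u` no edge `s(v,b)`, `b ∈ ot u v`, is present (`lf_iff`), so by `cntA_pow`, `act_iff`
the function is `1[inl s(u,v)] * 1[lf v u] * ∏ b, φ b` with
`φ b T = 1 - (1 - s) 1[inl s(b,u) ∈ T ∧ inr (b,u) ∈ T ∧ quiet G T b u v]`. The three factors depend on the disjoint sets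
`{inl s(u,v)}`, `stem G v u` (`lf_depOn`), and the union of the `Bk b = insert (inl s(b,u)) (blk2 G b u v)`: `ev_indep`, `ev_mem`,
`ev_lfG`. `ev_harris_prod` and `ev_semi` for the last one (common elements of `Bk b` and `Bk c` are `inl s(b,c)`; adding it can
only destroy `quiet`). -/
theorem leaf_lower (hx : FG G x) {u v : V} (huv : s(u, v) ∈ edges G) (hxe : 0 < x s(u, v)) {s : ℝ}
    (hs0 : 0 ≤ s) (hs1 : s ≤ 1) :
    AA (x s(u, v)) * ∏ b ∈ ot u v, pf (1 - s) (x s(u, b)) (x s(v, b)) ≤
      ev (gr G) (prG G x) (fun T => (if Sum.inl s(u, v) ∈ T then 1 else 0) *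
        (if lf G T v u then s ^ cntA G T u v else 0)) := by
  have hne : u ≠ v := ((mk_mem_edges G u v).1 huv).ne
  have hvu : s(v, u) ∈ edges G := by rw [Sym2.eq_swap]; exact huv
  have hxs : x s(v, u) = x s(u, v) := by rw [Sym2.eq_swap]
  have hxe' : 0 < x s(v, u) := by rw [hxs]; exact hxe
  -- pointwise
  have hpt : ∀ T ⊆ gr G, (if Sum.inl s(u, v) ∈ T then (1 : ℝ) else 0) *
        (if lf G T v u then s ^ cntA G T u v else 0) =
      (if Sum.inl s(u, v) ∈ T then (1 : ℝ) else 0) *
        ((if lf G T v u then (1 : ℝ) else 0) * ∏ b ∈ ot u v, GLphi G s u v b T) := by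
    intro T hT
    congr 1
    by_cases h : lf G T v u
    · rw [if_pos h, if_pos h, one_mul, cntA_pow hT hne]
      refine Finset.prod_congr rfl fun b hb => ?_
      have h1 := (lf_iff hT hne.symm).1 h
      have h2 : Sum.inl s(b, v) ∉ T := by
        rw [show s(b, v) = s(v, b) from Sym2.eq_swap]
        exact h1.2 b (by rw [ot_comm]; exact hb)
      have h3 : act G T b u ↔ GLev G u v b T := by
        rw [act_iff hT hne hb]
        unfold GLev
        constructor
        · rintro ⟨a1, -, a3, a4⟩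
          exact ⟨a1, a3, a4⟩
        · rintro ⟨a1, a3, a4⟩
          exact ⟨a1, h2, a3, a4⟩
      unfold GLphi
      by_cases h4 : GLev G u v b T
      · rw [if_pos (h3.2 h4), if_pos h4]; ring
      · rw [if_neg fun h5 => h4 (h3.1 h5), if_neg h4]; ring
    · rw [if_neg h, if_neg h, zero_mul]
  rw [ev_congr hpt]
  -- independence
  have hd1 : DepOn (fun T : Finset (Idx V) => if Sum.inl s(u, v) ∈ T then (1 : ℝ) else 0)
      {Sum.inl s(u, v)} := by
    intro T T' h
    have hx := congrArg (fun S : Finset (Idx V) => Sum.inl s(u, v) ∈ S) h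
    simp only [Finset.mem_inter, Finset.mem_singleton, and_true, eq_iff_iff] at hx
    simp only [hx]
  have hd2 := lf_depOn G v u
  have hd3 : DepOn (fun T : Finset (Idx V) => ∏ b ∈ ot u v, GLphi G s u v b T)
      ((ot u v).biUnion (GLB G u v)) := by
    intro T T' h
    refine Finset.prod_congr rfl fun b hb => ?_
    exact (GL_dep s u v b).mono (Finset.subset_biUnion_of_mem (GLB G u v) hb) T T' h
  have hBi : ∀ i ∈ (ot u v).biUnion (GLB G u v), i ≠ Sum.inl s(u, v) ∧ i ∉ stem G v u := by
    intro i hi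
    rw [Finset.mem_biUnion] at hi
    obtain ⟨b, hb, hib⟩ := hi
    obtain ⟨hbu, hbv⟩ := GL_ot hb
    rcases i with f | p
    · rw [GL_mem_B_inl] at hib
      constructor
      · intro h
        have h' : f = s(u, v) := Sum.inl_injective h
        have hbf : b ∈ f := by
          rcases hib with h1 | h1
          · rw [h1]; exact Sym2.mem_mk_left b u
          · exact h1.2.1
        rw [h', Sym2.mem_iff] at hbf
        rcases hbf with h1 | h1
        · exact hbu h1
        · exact hbv h1
      · intro h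
        unfold stem at h
        rw [Finset.inl_mem_disjSum, Finset.mem_filter] at h
        obtain ⟨-, hvf, hfv⟩ := h
        rcases hib with h1 | h1
        · rw [h1, Sym2.mem_iff] at hvf
          rcases hvf with h2 | h2
          · exact hbv h2.symm
          · exact hne h2.symm
        · exact h1.2.2.2 ((Sym2.mem_and_mem_iff hbv).1 ⟨h1.2.1, hvf⟩)
    · rw [GL_mem_B_inr] at hib
      constructor
      · simp
      · intro h
        unfold stem at h
        rw [Finset.inr_mem_disjSum, Finset.mem_singleton] at h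
        have h1 : p.1 = b := by rcases hib with h | h <;> rw [h]
        rw [h] at h1
        exact hbv h1.symm
  have hdis23 : Disjoint (stem G v u) ((ot u v).biUnion (GLB G u v)) := by
    rw [Finset.disjoint_right]
    intro i hi
    exact (hBi i hi).2
  have hstem : Sum.inl s(u, v) ∉ stem G v u := by
    intro h
    unfold stem at h
    rw [Finset.inl_mem_disjSum, Finset.mem_filter] at h
    exact h.2.2 Sym2.eq_swap
  have hdis1 : Disjoint {Sum.inl s(u, v)} (stem G v u ∪ (ot u v).biUnion (GLB G u v)) := by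
    rw [Finset.disjoint_singleton_left, Finset.mem_union]
    rintro (h | h)
    · exact hstem h
    · exact (hBi _ h).1 rfl
  have hd23 : DepOn (fun T : Finset (Idx V) => (if lf G T v u then (1 : ℝ) else 0) *
      ∏ b ∈ ot u v, GLphi G s u v b T) (stem G v u ∪ (ot u v).biUnion (GLB G u v)) :=
    depOn_mul (hd2.mono Finset.subset_union_left) (hd3.mono Finset.subset_union_right)
  rw [ev_indep hd1 hd23 hdis1, ev_indep hd2 hd3 hdis23, ev_mem (sd2_gr_inl huv), ev_lfG hvu hxe',
    hxs]
  have hH := ev_harris_prod (prG_mem hx) (ot u v) (GLphi G s u v) (GLB G u v)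
    (fun b _ T => by
      unfold GLphi
      split_ifs <;> linarith)
    (fun b _ => GL_dep s u v b)
    (fun b hb c hc hbc i hi T => GL_mono hs1 hb hc hbc i hi T)
  have hP : ∏ b ∈ ot u v, ev (gr G) (prG G x) (GLphi G s u v b) =
      ∏ b ∈ ot u v, pf (1 - s) (x s(u, b)) (x s(v, b)) :=
    Finset.prod_congr rfl fun b hb => GL_ev hx hne hb s
  rw [hP] at hH
  have hkk : (0 : ℝ) < kk (x s(u, v)) := sd2_one_sub_exp_pos hxe
  have e1 : prG G x (Sum.inl s(u, v)) = kk (x s(u, v)) := rfl
  have e2 : kk (x s(u, v)) * (AA (x s(u, v)) / kk (x s(u, v)) *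
      ev (gr G) (prG G x) (fun T => ∏ b ∈ ot u v, GLphi G s u v b T)) =
      AA (x s(u, v)) * ev (gr G) (prG G x) (fun T => ∏ b ∈ ot u v, GLphi G s u v b T) := by
    field_simp
  rw [e1, e2]
  refine mul_le_mul_of_nonneg_left hH ?_
  have h0 := hx.nonneg s(u, v)
  have h1 := x_le hx u v
  exact AA_nonneg h0 h1

end Pool.Agent.Lib.MP_7470b6_lc.Gen
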