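import Pool.Agent.Lib.MP_7470b6_lc.Gen.GE1
import Pool.Agent.Lib.MP_7470b6_lc.Gen.GE2
import Pool.Agent.Lib.MP_7470b6_lc.Gen.GL
import Pool.Agent.Lib.MP_7470b6_lc.Crs.RU2
import Pool.Agent.Lib.MP_7470b6_lc.Crs.FinD

/-!
# Job GF: lower bound for the probability that an edge is chosen
-/

open Finset

namespace Pool.Agent.Lib.MP_7470b6_lc.Gen

open Pool.Agent.Lib.MP_7470b6_lc.Crs

variable {V : Type} [Fintype V] [DecidableEq V] {G : SimpleGraph V} {x : Sym2 V → ℝ}

private theorem GF_ne {u v : V} (huv : s(u, v) ∈ edges G) : u ≠ v := by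
  classical
  unfold edges at huv
  rw [mem_filter] at huv
  have h : G.Adj u v := by
    rw [← SimpleGraph.mem_edgeSet]
    exact huv.2
  exact h.ne

open Classical in
/-- The function of the main term. -/
private theorem GF_main_eq {u v : V} (huv : u ≠ v) (s : ℝ) {T : Finset (Idx V)} (hT : T ⊆ gr G) :
    Uf s u v T * ∏ b ∈ ot u v, psi G b u v T =
      (if Sum.inl s(u, v) ∈ T then 1 else 0) *
        (if ¬ lf G T u v ∧ ¬ lf G T v u ∧ cntA G T u v = 0 ∧ cntA G T v u = 0 then
          s ^ (cntK G T u v + cntK G T v u) else 0) := by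
  have h1 := lf_iff hT huv
  have h2 := lf_iff hT huv.symm
  rw [ot_comm v u] at h2
  have h3 := cntK_pow hT huv s
  have h4 := cntA_zero hT huv
  have hpsi : ∏ b ∈ ot u v, psi G b u v T =
      if cntA G T u v = 0 ∧ cntA G T v u = 0 then 1 else 0 := by
    by_cases hc : cntA G T u v = 0 ∧ cntA G T v u = 0
    · rw [if_pos hc]
      apply Finset.prod_eq_one
      intro b hb
      have h5 := (h4.1 hc) b hb
      have h6 := act_iff hT huv hb
      have h7 := act_iff hT huv.symm (b := b) (by rw [ot_comm v u]; exact hb)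
      unfold psi
      rw [if_neg]
      rintro (h8 | h8)
      · exact h5.1 (h6.2 h8)
      · exact h5.2 (h7.2 ⟨h8.1, h8.2.1, h8.2.2.1, quiet_comm.1 h8.2.2.2⟩)
    · rw [if_neg hc]
      have h5 : ¬ ∀ b ∈ ot u v, ¬ act G T b u ∧ ¬ act G T b v := fun h => hc (h4.2 h)
      rw [not_forall] at h5
      obtain ⟨b, h5⟩ := h5
      rw [Classical.not_imp] at h5
      obtain ⟨hb, h5⟩ := h5
      apply Finset.prod_eq_zero hb
      have h6 := act_iff hT huv hb
      have h7 := act_iff hT huv.symm (b := b) (by rw [ot_comm v u]; exact hb)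
      unfold psi
      rw [if_pos]
      by_cases h8 : act G T b u
      · exact Or.inl (h6.1 h8)
      · have h9 : act G T b v := by
          by_contra h9
          exact h5 ⟨h8, h9⟩
        have h10 := h7.1 h9
        exact Or.inr ⟨h10.1, h10.2.1, h10.2.2.1, quiet_comm.1 h10.2.2.2⟩
  rw [hpsi]
  unfold Uf
  rw [← h3]
  by_cases he : Sum.inl s(u, v) ∈ T
  · rw [if_pos he, one_mul, one_mul]
    by_cases hu : lf G T u v
    · rw [if_pos (h1.1 hu)]
      have n1 : ¬ (¬ lf G T u v ∧ ¬ lf G T v u ∧ cntA G T u v = 0 ∧ cntA G T v u = 0) :=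
        fun h => h.1 hu
      rw [if_neg n1]
      ring
    · rw [if_neg (fun h => hu (h1.2 h))]
      by_cases hv : lf G T v u
      · have n1 : ¬ (¬ lf G T u v ∧ ¬ lf G T v u ∧ cntA G T u v = 0 ∧ cntA G T v u = 0) :=
          fun h => h.2.1 hv
        rw [if_pos (h2.1 hv), if_neg n1]
        ring
      · rw [if_neg (fun h => hv (h2.2 h))]
        by_cases hc : cntA G T u v = 0 ∧ cntA G T v u = 0
        · rw [if_pos hc, if_pos ⟨hu, hv, hc.1, hc.2⟩]
          ring
        · have n1 : ¬ (¬ lf G T u v ∧ ¬ lf G T v u ∧ cntA G T u v = 0 ∧ cntA G T v u = 0) :=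
            fun h => hc ⟨h.2.2.1, h.2.2.2⟩
          rw [if_neg hc, if_neg n1]
          ring
  · rw [if_neg he]
    ring

open Classical in
/-- `main_harris`, `main_value`; for `T ⊆ gr G` the function on the right is `Uf s u v T * ∏ psi` (`lf_iff`, `cntK_pow`, `cntA_zero`,
`act_iff`, `quiet_comm`). -/
theorem main_lower (hx : FG G x) {u v : V} (huv : s(u, v) ∈ edges G) (hxe : 0 < x s(u, v)) {s : ℝ}
    (hs0 : 0 ≤ s) (hs1 : s ≤ 1) :
    kk (x s(u, v)) * (∏ b ∈ ot u v, gf s (x s(u, b)) (x s(v, b)) -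
        AA (x s(u, v)) / kk (x s(u, v)) * ∏ b ∈ ot u v, qf s (x s(v, b)) (x s(u, b)) -
        AA (x s(u, v)) / kk (x s(u, v)) * ∏ b ∈ ot u v, qf s (x s(u, b)) (x s(v, b)) +
        (AA (x s(u, v)) / kk (x s(u, v))) ^ 2) ≤
      ev (gr G) (prG G x) (fun T => (if Sum.inl s(u, v) ∈ T then 1 else 0) *
        (if ¬ lf G T u v ∧ ¬ lf G T v u ∧ cntA G T u v = 0 ∧ cntA G T v u = 0 then
          s ^ (cntK G T u v + cntK G T v u) else 0)) := by
  rw [← main_value hx huv hxe s]
  refine (main_harris hx huv hs0 hs1).trans (le_of_eq ?_)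
  exact ev_congr fun T hT => GF_main_eq (GF_ne huv) s hT

private theorem GF_W4 (k l : ℕ) :
    1 / 2 * ((0.212 : ℝ) ^ (k + l) + 0.788 ^ (k + l)) ≤ W4 k l := by
  have h := node_le (k + l)
  unfold W4
  push_cast at h
  exact h

open Classical in
/-- The pointwise lower bound with the node inequality. -/
private theorem GF_point {T : Finset (Idx V)} {z : Sym2 V → ℝ}
    (hz : ∀ u v, s(u, v) ∈ FF G T →
      W4 (dg (FF G T) u - 1) (dg (FF G T) v - 1) ≤ z s(u, v))
    (hz0 : ∀ e, 0 ≤ z e) {u v : V} (huv : s(u, v) ∈ edges G) :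
    1 / 2 * ((if Sum.inl s(u, v) ∈ T then 1 else 0) *
        (if lf G T v u then (0.212 : ℝ) ^ cntA G T u v else 0)) +
      1 / 2 * ((if Sum.inl s(u, v) ∈ T then 1 else 0) *
        (if lf G T v u then (0.788 : ℝ) ^ cntA G T u v else 0)) +
      1 / 2 * ((if Sum.inl s(u, v) ∈ T then 1 else 0) *
        (if lf G T u v then (0.212 : ℝ) ^ cntA G T v u else 0)) +
      1 / 2 * ((if Sum.inl s(u, v) ∈ T then 1 else 0) *
        (if lf G T u v then (0.788 : ℝ) ^ cntA G T v u else 0)) +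
      1 / 2 * ((if Sum.inl s(u, v) ∈ T then 1 else 0) *
        (if ¬ lf G T u v ∧ ¬ lf G T v u ∧ cntA G T u v = 0 ∧ cntA G T v u = 0 then
          (0.212 : ℝ) ^ (cntK G T u v + cntK G T v u) else 0)) +
      1 / 2 * ((if Sum.inl s(u, v) ∈ T then 1 else 0) *
        (if ¬ lf G T u v ∧ ¬ lf G T v u ∧ cntA G T u v = 0 ∧ cntA G T v u = 0 then
          (0.788 : ℝ) ^ (cntK G T u v + cntK G T v u) else 0)) -
      ((if Sum.inl s(u, v) ∈ T then 1 else 0) *
        (if lf G T u v ∧ lf G T v u then (1 : ℝ) else 0)) ≤ z s(u, v) := by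
  by_cases he : Sum.inl s(u, v) ∈ T
  · have hp := pointwise G T (W := W4)
      (fun k => by
        unfold W4
        rw [Nat.cast_zero, add_zero])
      (fun k => by
        unfold W4
        rw [Nat.cast_zero, zero_add])
      (fun k k' l l' hk hl => by
        unfold W4
        apply one_div_le_one_div_of_le
        · positivity
        · have h1 : (k : ℝ) ≤ k' := by exact_mod_cast hk
          have h2 : (l : ℝ) ≤ l' := by exact_mod_cast hl
          linarith)
      hz hz0 huv he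
    refine le_trans ?_ hp
    simp only [if_pos he, one_mul]
    have h1 : 1 / 2 * (if lf G T v u then (0.212 : ℝ) ^ cntA G T u v else 0) +
        1 / 2 * (if lf G T v u then (0.788 : ℝ) ^ cntA G T u v else 0) ≤
        (if lf G T v u then 1 / (1 + (cntA G T u v : ℝ)) else 0) := by
      split_ifs
      · have := node_le (cntA G T u v)
        rw [add_comm (1 : ℝ)]
        linarith
      · norm_num
    have h2 : 1 / 2 * (if lf G T u v then (0.212 : ℝ) ^ cntA G T v u else 0) +
        1 / 2 * (if lf G T u v then (0.788 : ℝ) ^ cntA G T v u else 0) ≤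
        (if lf G T u v then 1 / (1 + (cntA G T v u : ℝ)) else 0) := by
      split_ifs
      · have := node_le (cntA G T v u)
        rw [add_comm (1 : ℝ)]
        linarith
      · norm_num
    have h3 : 1 / 2 * (if ¬ lf G T u v ∧ ¬ lf G T v u ∧ cntA G T u v = 0 ∧ cntA G T v u = 0 then
          (0.212 : ℝ) ^ (cntK G T u v + cntK G T v u) else 0) +
        1 / 2 * (if ¬ lf G T u v ∧ ¬ lf G T v u ∧ cntA G T u v = 0 ∧ cntA G T v u = 0 then
          (0.788 : ℝ) ^ (cntK G T u v + cntK G T v u) else 0) ≤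
        (if ¬ lf G T u v ∧ ¬ lf G T v u ∧ cntA G T u v = 0 ∧ cntA G T v u = 0 then
          W4 (cntK G T u v) (cntK G T v u) else 0) := by
      by_cases h : ¬ lf G T u v ∧ ¬ lf G T v u ∧ cntA G T u v = 0 ∧ cntA G T v u = 0
      · rw [if_pos h, if_pos h, if_pos h]
        have := GF_W4 (cntK G T u v) (cntK G T v u)
        linarith
      · rw [if_neg h, if_neg h, if_neg h]
        norm_num
    linarith
  · simp only [if_neg he, zero_mul, mul_zero, add_zero, sub_zero]
    exact hz0 _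

/-- Proof: `pointwise` (with `W4`) times the indicator of `inl s(u,v) ∈ T`; `node_le` gives
`1/(1 + n) ≥ (0.212^n + 0.788^n)/2` and `W4 k l ≥ (0.212^(k+l) + 0.788^(k+l))/2`; `leaf_lower` for both ends and both nodes
(`1 - 0.212 = 0.788`; for the other end use `Sym2.eq_swap`, `ot_comm`), `ev_lfG_both`, `main_lower` for both nodes; the terms
`(AA/kk)^2` cancel. -/
theorem gen_low (hx : FG G x) {z : Finset (Idx V) → Sym2 V → ℝ}
    (hz : ∀ T ⊆ gr G, ∀ u v, s(u, v) ∈ FF G T →
      W4 (dg (FF G T) u - 1) (dg (FF G T) v - 1) ≤ z T s(u, v))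
    (hz0 : ∀ T ⊆ gr G, ∀ e, 0 ≤ z T e) {u v : V} (huv : s(u, v) ∈ edges G)
    (hxe : 0 < x s(u, v)) :
    kk (x s(u, v)) * (1 / 2 * (PH (AA (x s(u, v)) / kk (x s(u, v))) 0.212 (fun b => x s(u, b))
        (fun b => x s(v, b)) (ot u v) ∅ +
      PH (AA (x s(u, v)) / kk (x s(u, v))) 0.788 (fun b => x s(u, b))
        (fun b => x s(v, b)) (ot u v) ∅)) ≤
      ev (gr G) (prG G x) (fun T => z T s(u, v)) := by
  classical
  have hne := GF_ne huv
  have hvu : s(v, u) ∈ edges G := by
    rw [Sym2.eq_swap]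
    exact huv
  have hswap : s(v, u) = s(u, v) := Sym2.eq_swap
  have hxe' : 0 < x s(v, u) := by
    rw [hswap]
    exact hxe
  have hp := prG_mem hx
  have hmono := ev_mono hp (f := fun T =>
      1 / 2 * ((if Sum.inl s(u, v) ∈ T then 1 else 0) *
        (if lf G T v u then (0.212 : ℝ) ^ cntA G T u v else 0)) +
      1 / 2 * ((if Sum.inl s(u, v) ∈ T then 1 else 0) *
        (if lf G T v u then (0.788 : ℝ) ^ cntA G T u v else 0)) +
      1 / 2 * ((if Sum.inl s(u, v) ∈ T then 1 else 0) *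
        (if lf G T u v then (0.212 : ℝ) ^ cntA G T v u else 0)) +
      1 / 2 * ((if Sum.inl s(u, v) ∈ T then 1 else 0) *
        (if lf G T u v then (0.788 : ℝ) ^ cntA G T v u else 0)) +
      1 / 2 * ((if Sum.inl s(u, v) ∈ T then 1 else 0) *
        (if ¬ lf G T u v ∧ ¬ lf G T v u ∧ cntA G T u v = 0 ∧ cntA G T v u = 0 then
          (0.212 : ℝ) ^ (cntK G T u v + cntK G T v u) else 0)) +
      1 / 2 * ((if Sum.inl s(u, v) ∈ T then 1 else 0) *
        (if ¬ lf G T u v ∧ ¬ lf G T v u ∧ cntA G T u v = 0 ∧ cntA G T v u = 0 then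
          (0.788 : ℝ) ^ (cntK G T u v + cntK G T v u) else 0)) -
      ((if Sum.inl s(u, v) ∈ T then 1 else 0) *
        (if lf G T u v ∧ lf G T v u then (1 : ℝ) else 0)))
    (g := fun T => z T s(u, v))
    (fun T hT => GF_point (hz T hT) (hz0 T hT) huv)
  refine le_trans ?_ hmono
  rw [ev_sub, ev_add, ev_add, ev_add, ev_add, ev_add, ev_const_mul, ev_const_mul, ev_const_mul,
    ev_const_mul, ev_const_mul, ev_const_mul]
  have l1 := leaf_lower hx huv hxe (s := 0.212) (by norm_num) (by norm_num)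
  have l2 := leaf_lower hx huv hxe (s := 0.788) (by norm_num) (by norm_num)
  have l3 := leaf_lower hx hvu hxe' (s := 0.212) (by norm_num) (by norm_num)
  have l4 := leaf_lower hx hvu hxe' (s := 0.788) (by norm_num) (by norm_num)
  have m1 := main_lower hx huv hxe (s := 0.212) (by norm_num) (by norm_num)
  have m2 := main_lower hx huv hxe (s := 0.788) (by norm_num) (by norm_num)
  have hb := ev_lfG_both (G := G) (x := x) huv hxe
  rw [hswap, ot_comm v u] at l3 l4
  have e1 : (1 : ℝ) - 0.212 = 0.788 := by norm_num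
  have e2 : (1 : ℝ) - 0.788 = 0.212 := by norm_num
  rw [e1] at l1 l3
  rw [e2] at l2 l4
  rw [hb]
  have hkk : 0 < kk (x s(u, v)) := by
    unfold kk
    have : Real.exp (-(x s(u, v))) < 1 := by
      rw [Real.exp_lt_one_iff]
      linarith
    linarith
  set η := AA (x s(u, v)) / kk (x s(u, v)) with hη
  have hAA : AA (x s(u, v)) = kk (x s(u, v)) * η := by
    rw [hη]
    field_simp
  rw [hAA] at l1 l2 l3 l4
  unfold PH PO QO RO
  simp only [Finset.prod_empty, mul_one]
  refine le_trans (le_of_eq ?_) (sub_le_sub_right (add_le_add (add_le_add (add_le_add (add_le_add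
    (add_le_add (mul_le_mul_of_nonneg_left l1 (by norm_num : (0 : ℝ) ≤ 1 / 2))
    (mul_le_mul_of_nonneg_left l2 (by norm_num : (0 : ℝ) ≤ 1 / 2)))
    (mul_le_mul_of_nonneg_left l3 (by norm_num : (0 : ℝ) ≤ 1 / 2)))
    (mul_le_mul_of_nonneg_left l4 (by norm_num : (0 : ℝ) ≤ 1 / 2)))
    (mul_le_mul_of_nonneg_left m1 (by norm_num : (0 : ℝ) ≤ 1 / 2)))
    (mul_le_mul_of_nonneg_left m2 (by norm_num : (0 : ℝ) ≤ 1 / 2))) _)
  ring

end Pool.Agent.Lib.MP_7470b6_lc.Gen
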