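import Pool.Agent.Lib.MP_7470b6_lc.Gen.GB
import Pool.Agent.Lib.MP_7470b6_lc.Gen.GC
import Pool.Agent.Lib.MP_7470b6_lc.Crs.SD2

/-!
# Job GP: probabilities of single events
-/

open Finset

namespace Pool.Agent.Lib.MP_7470b6_lc.Gen

open Pool.Agent.Lib.MP_7470b6_lc.Crs

variable {V : Type} [Fintype V] [DecidableEq V] {G : SimpleGraph V} {x : Sym2 V → ℝ}

private theorem GP_inl (G : SimpleGraph V) (x : Sym2 V → ℝ) (f : Sym2 V) :
    prG G x (Sum.inl f) = kk (x f) := rfl

private theorem GP_one_sub (G : SimpleGraph V) (x : Sym2 V → ℝ) (f : Sym2 V) :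
    1 - prG G x (Sum.inl f) = Real.exp (-(x f)) := by
  rw [GP_inl]
  unfold kk
  ring

private theorem GP_inr {u v : V} (huv : s(u, v) ∈ edges G) (hx : 0 < x s(u, v)) :
    prG G x (Sum.inr (u, v)) =
      AA (x s(u, v)) / (kk (x s(u, v)) * Real.exp (-(oth G x u v))) := by
  simp only [prG]
  rw [if_pos ⟨huv, hx⟩]
  rfl

private theorem GP_kk_pos {t : ℝ} (ht : 0 < t) : 0 < kk t := sd2_one_sub_exp_pos ht

private theorem GP_prod (G : SimpleGraph V) (x : Sym2 V → ℝ) (u v : V) :
    ∏ i ∈ sd2C G u v, (1 - prG G x i) = Real.exp (-(oth G x u v)) := by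
  classical
  unfold sd2C oth
  rw [Finset.prod_map, ← Finset.sum_neg_distrib, Real.exp_sum]
  apply Finset.prod_congr rfl
  intro f hf
  exact GP_one_sub G x f

/-- Coin times the probability that the other edges at `u` are absent. -/
theorem coin_oth {u v : V} (huv : s(u, v) ∈ edges G) (hx : 0 < x s(u, v)) :
    prG G x (Sum.inr (u, v)) * Real.exp (-(oth G x u v)) = AA (x s(u, v)) / kk (x s(u, v)) := by
  rw [GP_inr huv hx]
  have e1 := (GP_kk_pos hx).ne'
  have e2 := (Real.exp_pos (-(oth G x u v))).ne'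
  field_simp

open Classical in
/-- `ev_pattern` with `B = {inr (u,v)}` and `C` the edges at `u` other than `s(u,v)`. -/
theorem ev_lfG {u v : V} (huv : s(u, v) ∈ edges G) (hx : 0 < x s(u, v)) :
    ev (gr G) (prG G x) (fun T => if lf G T u v then (1 : ℝ) else 0) =
      AA (x s(u, v)) / kk (x s(u, v)) := by
  have h2 := ev_pattern (A := gr G) (B := {Sum.inr (u, v)}) (C := sd2C G u v)
    (by
      rw [Finset.singleton_subset_iff]
      exact sd2_gr_inr G _)
    (sd2C_sub G u v)
    (by
      rw [Finset.disjoint_singleton_left]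
      exact sd2C_inr G u v _) (prG G x)
  rw [Finset.prod_singleton, GP_prod, coin_oth huv hx] at h2
  refine (ev_congr ?_).trans h2
  intro T _
  by_cases h : lf G T u v
  · have h' := (sd2_lf_iff G T u v).1 h
    rw [if_pos h, if_pos ⟨Finset.singleton_subset_iff.mpr h'.1, h'.2⟩]
  · rw [if_neg h, if_neg]
    rintro ⟨ha, hb⟩
    exact h ((sd2_lf_iff G T u v).2 ⟨Finset.singleton_subset_iff.mp ha, hb⟩)

private theorem GP_disj {u v : V} (hne : u ≠ v) : Disjoint (sd2C G u v) (sd2C G v u) := by
  classical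
  rw [Finset.disjoint_left]
  intro i hi hj
  unfold sd2C at hi hj
  rw [Finset.mem_map] at hi hj
  obtain ⟨f, hf, rfl⟩ := hi
  obtain ⟨g, hg, hgf⟩ := hj
  have hgf' : g = f := Sum.inl_injective hgf
  subst hgf'
  rw [Finset.mem_filter] at hf hg
  exact hf.2.2 ((Sym2.mem_and_mem_iff hne).1 ⟨hf.2.1, hg.2.1⟩)

open Classical in
/-- `ev_pattern` (both coins, all other edges at `u` and at `v` absent). -/
theorem ev_lfG_both {u v : V} (huv : s(u, v) ∈ edges G) (hx : 0 < x s(u, v)) :
    ev (gr G) (prG G x) (fun T => (if Sum.inl s(u, v) ∈ T then 1 else 0) *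
        (if lf G T u v ∧ lf G T v u then (1 : ℝ) else 0)) =
      kk (x s(u, v)) * (AA (x s(u, v)) / kk (x s(u, v))) ^ 2 := by
  have hne : u ≠ v := ((mk_mem_edges G u v).1 huv).ne
  have hvu : s(v, u) ∈ edges G := by rw [Sym2.eq_swap]; exact huv
  have hxs : x s(v, u) = x s(u, v) := by rw [Sym2.eq_swap]
  have hx' : 0 < x s(v, u) := by rw [hxs]; exact hx
  have hsw : (Sum.inl s(u, v) : Idx V) ∉ sd2C G v u := by
    rw [show s(u, v) = s(v, u) from Sym2.eq_swap]
    exact sd2C_inl G v u
  have n1 : (Sum.inl s(u, v) : Idx V) ∉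
      (insert (Sum.inr (u, v)) {Sum.inr (v, u)} : Finset (Idx V)) := by
    simp
  have n2 : (Sum.inr (u, v) : Idx V) ∉ ({Sum.inr (v, u)} : Finset (Idx V)) := by
    rw [Finset.mem_singleton]
    intro h
    have h' := Sum.inr_injective h
    exact hne (congrArg Prod.fst h')
  have h2 := ev_pattern (A := gr G)
    (B := insert (Sum.inl s(u, v)) (insert (Sum.inr (u, v)) {Sum.inr (v, u)}))
    (C := sd2C G u v ∪ sd2C G v u)
    (by
      rw [Finset.insert_subset_iff, Finset.insert_subset_iff, Finset.singleton_subset_iff]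
      exact ⟨sd2_gr_inl huv, sd2_gr_inr G _, sd2_gr_inr G _⟩)
    (Finset.union_subset (sd2C_sub G u v) (sd2C_sub G v u))
    (by
      rw [Finset.disjoint_insert_left, Finset.disjoint_insert_left,
        Finset.disjoint_singleton_left, Finset.mem_union, Finset.mem_union, Finset.mem_union]
      refine ⟨?_, ?_, ?_⟩
      · rintro (h | h)
        · exact sd2C_inl G u v h
        · exact hsw h
      · rintro (h | h)
        · exact sd2C_inr G u v _ h
        · exact sd2C_inr G v u _ h
      · rintro (h | h)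
        · exact sd2C_inr G u v _ h
        · exact sd2C_inr G v u _ h) (prG G x)
  rw [Finset.prod_insert n1, Finset.prod_insert n2, Finset.prod_singleton,
    Finset.prod_union (GP_disj hne), GP_prod, GP_prod] at h2
  refine (ev_congr ?_).trans (h2.trans ?_)
  · intro T _
    by_cases h0 : Sum.inl s(u, v) ∈ T
    · rw [if_pos h0, one_mul]
      by_cases h : lf G T u v ∧ lf G T v u
      · have h' := (sd2_lf_iff G T u v).1 h.1
        have h'' := (sd2_lf_iff G T v u).1 h.2
        rw [if_pos h, if_pos]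
        refine ⟨?_, ?_⟩
        · rw [Finset.insert_subset_iff, Finset.insert_subset_iff, Finset.singleton_subset_iff]
          exact ⟨h0, h'.1, h''.1⟩
        · rw [Finset.disjoint_union_left]
          exact ⟨h'.2, h''.2⟩
      · rw [if_neg h, if_neg]
        rintro ⟨ha, hb⟩
        rw [Finset.insert_subset_iff, Finset.insert_subset_iff, Finset.singleton_subset_iff] at ha
        rw [Finset.disjoint_union_left] at hb
        exact h ⟨(sd2_lf_iff G T u v).2 ⟨ha.2.1, hb.1⟩, (sd2_lf_iff G T v u).2 ⟨ha.2.2, hb.2⟩⟩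
    · rw [if_neg h0, zero_mul, if_neg]
      rintro ⟨ha, hb⟩
      rw [Finset.insert_subset_iff] at ha
      exact h0 ha.1
  · have e1 := coin_oth huv hx
    have e2 := coin_oth hvu hx'
    rw [hxs] at e2
    rw [GP_inl]
    calc kk (x s(u, v)) * (prG G x (Sum.inr (u, v)) * prG G x (Sum.inr (v, u))) *
          (Real.exp (-(oth G x u v)) * Real.exp (-(oth G x v u)))
        = kk (x s(u, v)) * (prG G x (Sum.inr (u, v)) * Real.exp (-(oth G x u v))) *
          (prG G x (Sum.inr (v, u)) * Real.exp (-(oth G x v u))) := by ring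
      _ = kk (x s(u, v)) * (AA (x s(u, v)) / kk (x s(u, v))) ^ 2 := by
          rw [e1, e2]; ring

open Classical in
/-- The edges at `b` other than `s(b,u)`, `s(b,v)`, as indices. -/
private noncomputable def GPC (G : SimpleGraph V) (b u v : V) : Finset (Idx V) :=
  ((edges G).filter (fun f => b ∈ f ∧ f ≠ s(b, u) ∧ f ≠ s(b, v))).map
    ⟨Sum.inl, Sum.inl_injective⟩

private theorem GPC_prod (G : SimpleGraph V) (x : Sym2 V → ℝ) (b u v : V) :
    ∏ i ∈ GPC G b u v, (1 - prG G x i) = Real.exp (-(oth2 G x b u v)) := by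
  classical
  unfold GPC oth2
  rw [Finset.prod_map, ← Finset.sum_neg_distrib, Real.exp_sum]
  apply Finset.prod_congr rfl
  intro f hf
  exact GP_one_sub G x f

private theorem GPC_sub (G : SimpleGraph V) (b u v : V) : GPC G b u v ⊆ gr G := by
  classical
  intro i hi
  unfold GPC at hi
  rw [Finset.mem_map] at hi
  obtain ⟨f, hf, rfl⟩ := hi
  rw [Finset.mem_filter] at hf
  exact Finset.inl_mem_disjSum.mpr hf.1

private theorem GPC_inr (G : SimpleGraph V) (b u v : V) (p : V × V) : Sum.inr p ∉ GPC G b u v := by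
  classical
  intro h
  unfold GPC at h
  rw [Finset.mem_map] at h
  obtain ⟨f, _, hf⟩ := h
  simp at hf

private theorem GPC_inl (G : SimpleGraph V) (b u v : V) : Sum.inl s(b, u) ∉ GPC G b u v := by
  classical
  intro h
  unfold GPC at h
  rw [Finset.mem_map] at h
  obtain ⟨f, hf, hf'⟩ := h
  rw [Finset.mem_filter] at hf
  have : f = s(b, u) := Sum.inl_injective hf'
  exact hf.2.2.1 this

private theorem GPC_quiet (G : SimpleGraph V) (T : Finset (Idx V)) (b u v : V) :
    quiet G T b u v ↔ Disjoint (GPC G b u v) T := by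
  classical
  unfold quiet
  rw [Finset.disjoint_left]
  constructor
  · intro h i hi hiT
    unfold GPC at hi
    rw [Finset.mem_map] at hi
    obtain ⟨f, hf, rfl⟩ := hi
    rw [Finset.mem_filter] at hf
    rcases h f hf.1 hiT hf.2.1 with h1 | h1
    · exact hf.2.2.1 h1
    · exact hf.2.2.2 h1
  · intro h f hf hT hb
    by_contra hne
    rw [not_or] at hne
    refine h ?_ hT
    unfold GPC
    rw [Finset.mem_map]
    exact ⟨f, Finset.mem_filter.mpr ⟨hf, hb, hne.1, hne.2⟩, rfl⟩

open Classical in
/-- `ev_pattern` with `B = {inl s(b,u), inr (b,u)}` and `C` the edges at `b` other than `s(b,u)`, `s(b,v)`; `oth2_eq`.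
If `s(b,u)` is no edge, or if `x s(b,u) = 0`, both sides are zero. -/
theorem ev_semi (hx : FG G x) {u v b : V} (huv : u ≠ v) (hb : b ∈ ot u v) :
    ev (gr G) (prG G x) (fun T => if Sum.inl s(b, u) ∈ T ∧ Sum.inr (b, u) ∈ T ∧ quiet G T b u v
        then (1 : ℝ) else 0) =
      AA (x s(u, b)) * Real.exp (x s(v, b)) := by
  have hAA0 : AA 0 = 0 := by unfold AA; ring
  have hs1 : s(u, b) = s(b, u) := Sym2.eq_swap
  have hs2 : s(v, b) = s(b, v) := Sym2.eq_swap
  rw [hs1, hs2]
  by_cases hbu : s(b, u) ∈ edges G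
  · have hne : (Sum.inl s(b, u) : Idx V) ∉ ({Sum.inr (b, u)} : Finset (Idx V)) := by
      simp
    have h2 := ev_pattern (A := gr G) (B := insert (Sum.inl s(b, u)) {Sum.inr (b, u)})
      (C := GPC G b u v)
      (by
        rw [Finset.insert_subset_iff, Finset.singleton_subset_iff]
        exact ⟨sd2_gr_inl hbu, sd2_gr_inr G _⟩)
      (GPC_sub G b u v)
      (by
        rw [Finset.disjoint_insert_left, Finset.disjoint_singleton_left]
        exact ⟨GPC_inl G b u v, GPC_inr G b u v _⟩) (prG G x)
    rw [Finset.prod_insert hne, Finset.prod_singleton, GPC_prod] at h2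
    refine (ev_congr ?_).trans (h2.trans ?_)
    · intro T _
      by_cases h : Sum.inl s(b, u) ∈ T ∧ Sum.inr (b, u) ∈ T ∧ quiet G T b u v
      · rw [if_pos h, if_pos]
        refine ⟨?_, (GPC_quiet G T b u v).1 h.2.2⟩
        rw [Finset.insert_subset_iff, Finset.singleton_subset_iff]
        exact ⟨h.1, h.2.1⟩
      · rw [if_neg h, if_neg]
        rintro ⟨ha, hc⟩
        rw [Finset.insert_subset_iff, Finset.singleton_subset_iff] at ha
        exact h ⟨ha.1, ha.2, (GPC_quiet G T b u v).2 hc⟩
    · rcases (hx.nonneg s(b, u)).lt_or_eq with h0 | h0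
      · have e0 := oth2_eq hx huv hb
        have e1 := coin_oth hbu h0
        have e3 : Real.exp (-(oth2 G x b u v)) =
            Real.exp (-(oth G x b u)) * Real.exp (x s(b, v)) := by
          rw [← Real.exp_add, ← e0]
          congr 1
          ring
        rw [GP_inl, e3]
        calc kk (x s(b, u)) * prG G x (Sum.inr (b, u)) *
              (Real.exp (-(oth G x b u)) * Real.exp (x s(b, v)))
            = kk (x s(b, u)) * (prG G x (Sum.inr (b, u)) * Real.exp (-(oth G x b u))) *
              Real.exp (x s(b, v)) := by ring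
          _ = AA (x s(b, u)) * Real.exp (x s(b, v)) := by
              rw [e1]
              have e4 := (GP_kk_pos h0).ne'
              field_simp
      · rw [GP_inl, ← h0, hAA0]
        unfold kk
        simp
  · rw [hx.zero _ hbu, hAA0, zero_mul]
    refine (ev_congr (g := fun _ => (0 : ℝ)) ?_).trans (ev_const _ _ _)
    intro T hT
    rw [if_neg]
    rintro ⟨h, -⟩
    exact hbu (Finset.inl_mem_disjSum.mp (hT h))

end Pool.Agent.Lib.MP_7470b6_lc.Gen
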