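import Pool.Agent.Lib.MP_7470b6_lc.Gen.GP

/-!
# Definitions for the main term
-/

open Finset

namespace Pool.Agent.Lib.MP_7470b6_lc.Gen

open Pool.Agent.Lib.MP_7470b6_lc.Crs

variable {V : Type} [Fintype V] [DecidableEq V]

open Classical in
/-- The part that depends on the edges at `u`, `v` and the coins of `(u,v)`, `(v,u)`. -/
noncomputable def Uf (s : ℝ) (u v : V) (T : Finset (Idx V)) : ℝ :=
  (if Sum.inl s(u, v) ∈ T then 1 else 0) *
    ((1 - if Sum.inr (u, v) ∈ T ∧ ∀ b ∈ ot u v, Sum.inl s(u, b) ∉ T then 1 else 0) *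
      (1 - if Sum.inr (v, u) ∈ T ∧ ∀ b ∈ ot u v, Sum.inl s(v, b) ∉ T then 1 else 0)) *
    ∏ b ∈ ot u v, ((if Sum.inl s(u, b) ∈ T then s else 1) * (if Sum.inl s(v, b) ∈ T then s else 1))

/-- Coin times the probability of `quiet`. -/
noncomputable def rho (G : SimpleGraph V) (x : Sym2 V → ℝ) (b u v : V) : ℝ :=
  prG G x (Sum.inr (b, u)) * Real.exp (-(oth2 G x b u v))

open Classical in
/-- Conditional probability that `b` is no active leaf attached to `u` or `v`. -/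
noncomputable def mf (G : SimpleGraph V) (x : Sym2 V → ℝ) (b u v : V) (T : Finset (Idx V)) : ℝ :=
  1 - (if Sum.inl s(b, u) ∈ T ∧ Sum.inl s(b, v) ∉ T then rho G x b u v else 0) -
    (if Sum.inl s(b, v) ∈ T ∧ Sum.inl s(b, u) ∉ T then rho G x b v u else 0)

open Classical in
/-- `b` is no active leaf attached to `u` or `v`. -/
noncomputable def psi (G : SimpleGraph V) (b u v : V) (T : Finset (Idx V)) : ℝ :=
  if (Sum.inl s(b, u) ∈ T ∧ Sum.inl s(b, v) ∉ T ∧ Sum.inr (b, u) ∈ T ∧ quiet G T b u v) ∨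
    (Sum.inl s(b, v) ∈ T ∧ Sum.inl s(b, u) ∉ T ∧ Sum.inr (b, v) ∈ T ∧ quiet G T b u v)
  then 0 else 1

end Pool.Agent.Lib.MP_7470b6_lc.Gen
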