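import Pool.Agent.Lib.MP_7470b6_lc.Crs.EVB
import Pool.Agent.Lib.MP_7470b6_lc.Crs.SideD

/-!
# General graphs: definitions
-/

open Finset

namespace Pool.Agent.Lib.MP_7470b6_lc.Gen

open Pool.Agent.Lib.MP_7470b6_lc.Crs

/-- Probability that an edge of weight `t` is present and has an active leaf at a given end. -/
noncomputable def AA (t : ℝ) : ℝ := 0.3678 * t - 0.29 * t ^ 2 + 0.1 * t ^ 3

/-- Probability that an edge of weight `t` is present. -/
noncomputable def kk (t : ℝ) : ℝ := 1 - Real.exp (-t)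

/-- Factors of a neighbour with weights `a` (towards `u`) and `b` (towards `v`). -/
noncomputable def pf (s a b : ℝ) : ℝ := 1 - s * (AA a * Real.exp b)

noncomputable def qf (s a b : ℝ) : ℝ := pf s a b - kk a * (1 - s)

noncomputable def gf (s a b : ℝ) : ℝ :=
  (1 - kk a * (1 - s)) * (1 - kk b * (1 - s)) - s * (AA a + AA b)

/-- Factors of the independent version. -/
noncomputable def ec (a : ℝ) : ℝ := 1 - Real.exp (-(0.3678 * a))

noncomputable def pc (s a : ℝ) : ℝ := 1 - s * ec a

noncomputable def qc (s a : ℝ) : ℝ := pc s a - kk a * (1 - s)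

/-- Differences. -/
noncomputable def del (a b : ℝ) : ℝ := AA a * Real.exp b - ec a

noncomputable def BB (s a b : ℝ) : ℝ :=
  s * (ec a * kk b + ec b * kk a - ec a * ec b) - (ec a * kk b + ec b * kk a) +
    (ec a - AA a) + (ec b - AA b)

/-- Products over two sets of neighbours, original version and independent version. -/
noncomputable def PO {α : Type*} (s : ℝ) (a b : α → ℝ) (N₁ N₂ : Finset α) : ℝ :=
  (∏ i ∈ N₁, pf s (a i) (b i)) * ∏ i ∈ N₂, pc s (a i)

noncomputable def QO {α : Type*} (s : ℝ) (a b : α → ℝ) (N₁ N₂ : Finset α) : ℝ :=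
  (∏ i ∈ N₁, qf s (a i) (b i)) * ∏ i ∈ N₂, qc s (a i)

noncomputable def RO {α : Type*} (s : ℝ) (a b : α → ℝ) (N₁ N₂ : Finset α) : ℝ :=
  (∏ i ∈ N₁, gf s (a i) (b i)) * ∏ i ∈ N₂, (qc s (a i) * qc s (b i))

noncomputable def PH {α : Type*} (η s : ℝ) (a b : α → ℝ) (N₁ N₂ : Finset α) : ℝ :=
  η * (PO s a b N₁ N₂ - QO s a b N₁ N₂) + η * (PO s b a N₁ N₂ - QO s b a N₁ N₂) +
    RO s a b N₁ N₂

/-- Weights of the neighbours of the two ends of an edge. -/
structure Good {α : Type*} (N : Finset α) (a b : α → ℝ) : Prop where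
  a0 : ∀ i ∈ N, 0 ≤ a i
  b0 : ∀ i ∈ N, 0 ≤ b i
  ab : ∀ i ∈ N, a i + b i ≤ 1
  sa : ∑ i ∈ N, a i ≤ 1
  sb : ∑ i ∈ N, b i ≤ 1

section Graph

variable {V : Type} [Fintype V] [DecidableEq V]

open Classical in
/-- The probabilities: the edge `f` is present with probability `1 - exp (-x f)`; the coins are such
that `s(b,u)` is present and `b` an active leaf with probability `AA (x s(b,u))`. -/
noncomputable def prG (G : SimpleGraph V) (x : Sym2 V → ℝ) : Idx V → ℝ
  | Sum.inl f => 1 - Real.exp (-(x f))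
  | Sum.inr (b, u) =>
      if s(b, u) ∈ edges G ∧ 0 < x s(b, u) then
        AA (x s(b, u)) / ((1 - Real.exp (-(x s(b, u)))) * Real.exp (-(oth G x b u)))
      else 0

open Classical in
/-- `x` is nonnegative, zero outside the edges, with sum at most one at every vertex. -/
structure FG (G : SimpleGraph V) (x : Sym2 V → ℝ) : Prop where
  nonneg : ∀ e, 0 ≤ x e
  zero : ∀ e, e ∉ edges G → x e = 0
  vertex : ∀ u, ∑ f ∈ (edges G).filter (fun f => u ∈ f), x f ≤ 1

/-- All vertices other than `u` and `v`. -/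
def ot (u v : V) : Finset V := Finset.univ.filter (fun b => b ≠ u ∧ b ≠ v)

/-- No edge at `b` is present except possibly the ones to `u` and `v`. -/
def quiet (G : SimpleGraph V) (T : Finset (Idx V)) (b u v : V) : Prop :=
  ∀ f ∈ edges G, Sum.inl f ∈ T → b ∈ f → f = s(b, u) ∨ f = s(b, v)

open Classical in
/-- Sum of `x` over the edges at `b` other than `s(b,u)`, `s(b,v)`. -/
noncomputable def oth2 (G : SimpleGraph V) (x : Sym2 V → ℝ) (b u v : V) : ℝ :=
  ∑ f ∈ (edges G).filter (fun f => b ∈ f ∧ f ≠ s(b, u) ∧ f ≠ s(b, v)), x f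

open Classical in
/-- The indices on which `quiet b u v` and the coins of `(b,u)`, `(b,v)` depend. -/
noncomputable def blk2 (G : SimpleGraph V) (b u v : V) : Finset (Idx V) :=
  ((edges G).filter (fun f => b ∈ f ∧ f ≠ s(b, u) ∧ f ≠ s(b, v))).disjSum
    ({(b, u), (b, v)} : Finset (V × V))

end Graph

end Pool.Agent.Lib.MP_7470b6_lc.Gen
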