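import Pool.Agent.Lib.MP_7470b6_lc.Crs.EVC
import Pool.Agent.Lib.MP_7470b6_lc.Crs.DIS
import Pool.Agent.Lib.MP_7470b6_lc.Crs.CWM
import Pool.Agent.Lib.MP_7470b6_lc.Gen.GF
import Pool.Agent.Lib.MP_7470b6_lc.Gen.DM

/-!
# The main theorem for all graphs
-/

open Finset

namespace Pool.Agent.Lib.MP_7470b6_lc.Gen

open Pool.Agent.Lib.MP_7470b6_lc.Crs

variable {V : Type} [Fintype V]

theorem gmain_fg [DecidableEq V] {G : SimpleGraph V} {x : Sym2 V → ℝ}
    (hx : x ∈ matchingPolytope G) : FG G x := by
  have hx' : x ∈ PF (edges G) := hx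
  refine ⟨fun e => PF_nonneg hx' e, fun e he => PF_zero hx' he, fun u => ?_⟩
  have h := PF_vertex hx' u
  convert h

/-- The retention probability. -/
noncomputable def gret (x : Sym2 V → ℝ) (f : Sym2 V) : ℝ := (1 - Real.exp (-(x f))) / x f

omit [Fintype V] in
theorem gret_mul (x : Sym2 V → ℝ) (f : Sym2 V) : x f * gret x f = 1 - Real.exp (-(x f)) := by
  unfold gret
  by_cases h : x f = 0
  · simp [h]
  · field_simp

omit [Fintype V] in
theorem gret_mem {x : Sym2 V → ℝ} {f : Sym2 V} (hx : 0 ≤ x f) :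
    0 ≤ gret x f ∧ gret x f ≤ 1 := by
  unfold gret
  rcases hx.eq_or_lt with h | h
  · simp [← h]
  · have h1 : 0 ≤ 1 - Real.exp (-(x f)) := by
      have := Real.exp_le_one_iff.mpr (show -(x f) ≤ 0 by linarith)
      linarith
    refine ⟨div_nonneg h1 h.le, ?_⟩
    rw [div_le_one h]
    have := Real.add_one_le_exp (-(x f))
    linarith

theorem gmain_assemble [DecidableEq V] {G : SimpleGraph V} {x : Sym2 V → ℝ}
    (hx : x ∈ matchingPolytope G) {c : ℝ}
    {z : Finset (Idx V) → Sym2 V → ℝ} (hz : ∀ T ⊆ gr G, z T ∈ PF (FF G T))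
    (hc : ∀ e ∈ edges G, 0 < x e → c * x e ≤ ev (gr G) (prG G x) (fun T => z T e)) :
    ∃ μ, IsScheme G μ ∧ Balanced G x μ c := by
  classical
  have hfm := gmain_fg hx
  have hpr := prG_mem hfm
  set q : V × V → ℝ := fun j => prG G x (Sum.inr j) with hq
  set Z : Finset (Sym2 V) → Sym2 V → ℝ := fun S e =>
    ev S (gret x) (fun S' => ev (Finset.univ : Finset (V × V)) q (fun C => z (S'.disjSum C) e))
    with hZdef
  have hsub : ∀ S' ⊆ edges G, ∀ C : Finset (V × V), S'.disjSum C ⊆ gr G := by
    intro S' hS' C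
    exact Finset.disjSum_mono hS' (Finset.subset_univ C)
  have hZ : ∀ S ⊆ edges G, Z S ∈ PF S := by
    intro S hS
    refine PF_ev (fun i hi => gret_mem (hfm.nonneg i)) ?_
    intro S' hS'
    refine PF_ev (fun i _ => hpr _ ?_) ?_
    · simp [gr]
    · intro C _
      refine PF_mono ?_ (hz _ (hsub S' (hS'.trans hS) C))
      intro e he
      have h := (FF_sub G _ he).2
      rw [Finset.inl_mem_disjSum] at h
      exact hS' h
  obtain ⟨μ, hμ, hμZ⟩ := exists_scheme hZ
  refine ⟨μ, hμ, ?_⟩
  intro e he hxe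
  have hin : probIn G x μ e = ev (gr G) (prG G x) (fun T => z T e) := by
    have h1 : probIn G x μ e = ev (edges G) x (fun S => Z S e) := by
      unfold probIn ev prob
      refine Finset.sum_congr rfl fun S hS => ?_
      rw [hμZ S (Finset.mem_powerset.mp hS) e]
      congr 1
      refine Finset.prod_congr rfl fun i _ => ?_
      congr
    rw [h1]
    simp only [hZdef]
    rw [ev_thin]
    unfold gr
    rw [ev_disjSum]
    have h2 : (fun i => x i * gret x i) = (fun i => prG G x (Sum.inl i)) := by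
      funext i
      rw [gret_mul]
      rfl
    rw [h2]
  have hpres : probPresent G x e = x e := by
    have h1 := ev_mem he x
    rw [← h1]
    unfold probPresent ev prob
    refine Finset.sum_congr rfl fun S hS => ?_
    by_cases h : e ∈ S
    · simp only [h, if_true, mul_one]
      refine Finset.prod_congr rfl fun i _ => ?_
      congr
    · simp [h]
  rw [hin, hpres, le_div_iff₀ hxe]
  exact hc e he hxe

theorem main_general (G : SimpleGraph V) (x : Sym2 V → ℝ)
    (hx : x ∈ matchingPolytope G) : ∃ μ, IsScheme G μ ∧ Balanced G x μ 0.49 := by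
  classical
  choose z hz hzb using fun T : Finset (Idx V) => exists_caroWei (FF G T)
  have hfm := gmain_fg hx
  refine gmain_assemble hx (z := z) (fun T _ => hz T) ?_
  intro e he hxe
  induction e using Sym2.ind with
  | _ u v =>
  have huv : u ≠ v := by
    rintro rfl
    simp [edges] at he
  refine le_trans (det_main (N := ot u v) (a := fun b => x s(u, b)) (b := fun b => x s(v, b))
    hxe (x_le hfm u v) (fun i _ => hfm.nonneg _) (fun i _ => hfm.nonneg _)
    (fun i hi => ab_le hfm huv hi) ?_ ?_) (gen_low hfm ?_ (fun T _ e => PF_nonneg (hz T) e) he hxe)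
  · rw [sum_ot hfm huv]
    have := oth_le hfm u v
    linarith
  · rw [ot_comm, sum_ot hfm huv.symm]
    have := oth_le hfm v u
    rw [Sym2.eq_swap] at this
    linarith
  · intro T _ a b hab
    have h := hzb T a b hab
    refine le_trans (le_of_eq ?_) h
    have ha : 1 ≤ dg (FF G T) a := by
      unfold dg
      refine Finset.card_pos.mpr ⟨s(a, b), ?_⟩
      simp [hab]
    have hb : 1 ≤ dg (FF G T) b := by
      unfold dg
      refine Finset.card_pos.mpr ⟨s(a, b), ?_⟩
      simp [hab]
    unfold W4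
    push_cast [Nat.cast_sub ha, Nat.cast_sub hb]
    ring_nf

end Pool.Agent.Lib.MP_7470b6_lc.Gen
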